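import Pool.Agent.Lib.MP_be93de_nt.Hb.Defs

/-! Elementary symmetric sums and the alternating truncation of a product. -/

namespace Pool.Agent.Lib.MP_be93de_nt.Hb

open Finset

namespace Altx

noncomputable def e (x : ℕ → ℝ) (Q : Finset ℕ) (t : ℕ) : ℝ := ∑ D ∈ powersetCard t Q, ∏ i ∈ D, x i

theorem e_zero (x : ℕ → ℝ) (Q : Finset ℕ) : e x Q 0 = 1 := by simp [e]

theorem e_empty (x : ℕ → ℝ) (t : ℕ) : e x ∅ (t + 1) = 0 := by
  rw [e, powersetCard_eq_empty.2 (by simp), sum_empty]

theorem e_insert (x : ℕ → ℝ) {Q : Finset ℕ} {i : ℕ} (hi : i ∉ Q) (t : ℕ) :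
    e x (insert i Q) (t + 1) = e x Q (t + 1) + x i * e x Q t := by
  rw [e, powersetCard_succ_insert hi, sum_union, sum_image, e, e, mul_sum]
  · congr 1
    refine sum_congr rfl fun D hD => prod_insert fun k => hi ((mem_powersetCard.1 hD).1 k)
  · intro D hD D' hD' h
    have k1 : i ∉ D := fun k => hi ((mem_powersetCard.1 hD).1 k)
    have k2 : i ∉ D' := fun k => hi ((mem_powersetCard.1 hD').1 k)
    rw [← erase_insert k1, ← erase_insert k2]
    exact congrArg (fun s => erase s i) h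
  · rw [disjoint_left]
    intro D hD hD'
    obtain ⟨D', -, rfl⟩ := mem_image.1 hD'
    exact hi ((mem_powersetCard.1 hD).1 (mem_insert_self _ _))

theorem e_le (x : ℕ → ℝ) (Q : Finset ℕ) (h : ∀ i ∈ Q, 0 ≤ x i) :
    ∀ t, e x Q t ≤ (∑ i ∈ Q, x i) ^ t / t.factorial := by
  induction Q using Finset.induction_on with
  | empty =>
    intro t
    cases t with
    | zero => simp [e_zero]
    | succ t => simp [e_empty]
  | insert i Q hi ih =>
    intro t
    have h' : ∀ j ∈ Q, 0 ≤ x j := fun j hj => h j (mem_insert_of_mem hj)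
    have hx : 0 ≤ x i := h i (mem_insert_self _ _)
    have hS : 0 ≤ ∑ j ∈ Q, x j := sum_nonneg h'
    cases t with
    | zero => simp [e_zero]
    | succ t =>
      rw [e_insert x hi, sum_insert hi, add_comm (x i)]
      have k := pow_add_mul_le_add_pow hS (b := x i) (by linarith) (t + 1)
      have f0 : (0 : ℝ) < t.factorial := by exact_mod_cast t.factorial_pos
      have k1 := ih h' (t + 1)
      have k2 := mul_le_mul_of_nonneg_left (ih h' t) hx
      have k3 : (∑ j ∈ Q, x j) ^ (t + 1) / ((t + 1).factorial : ℝ) +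
          x i * ((∑ j ∈ Q, x j) ^ t / t.factorial) =
          ((∑ j ∈ Q, x j) ^ (t + 1) + ((t + 1 : ℕ) : ℝ) * (∑ j ∈ Q, x j) ^ (t + 1 - 1) * x i) /
            ((t + 1).factorial : ℝ) := by
        rw [Nat.factorial_succ, Nat.add_sub_cancel]
        push_cast
        field_simp
      have k4 := div_le_div_of_nonneg_right k (Nat.cast_nonneg (α := ℝ) (t + 1).factorial)
      linarith

noncomputable def A (x : ℕ → ℝ) (Q : Finset ℕ) (t : ℕ) : ℝ := ∑ j ∈ range t, (-1) ^ j * e x Q j

theorem A_insert (x : ℕ → ℝ) {Q : Finset ℕ} {i : ℕ} (hi : i ∉ Q) (t : ℕ) :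
    A x (insert i Q) (t + 1) = A x Q (t + 1) - x i * A x Q t := by
  induction t with
  | zero => simp [A, e_zero]
  | succ t ih =>
    have s : ∀ (Q : Finset ℕ) (t : ℕ), A x Q (t + 1) = A x Q t + (-1) ^ t * e x Q t :=
      fun Q t => sum_range_succ _ _
    rw [s _ (t + 1), ih, e_insert x hi, s Q (t + 1), s Q t]
    ring

theorem r_nonneg (x : ℕ → ℝ) (Q : Finset ℕ) (h : ∀ i ∈ Q, 0 ≤ x i) (h1 : ∀ i ∈ Q, x i ≤ 1) :
    ∀ t, 0 ≤ (-1) ^ t * (∏ i ∈ Q, (1 - x i) - A x Q t) := by
  have z : ∀ Q : Finset ℕ, (∀ i ∈ Q, x i ≤ 1) →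
      0 ≤ (-1) ^ 0 * (∏ i ∈ Q, (1 - x i) - A x Q 0) := fun Q k => by
    simp only [A, pow_zero, one_mul, range_zero, sum_empty, sub_zero]
    exact prod_nonneg fun i hi => sub_nonneg.2 (k i hi)
  induction Q using Finset.induction_on with
  | empty =>
    intro t
    cases t with
    | zero => exact z _ h1
    | succ t => simp [A, sum_range_succ', e_zero, e_empty]
  | insert i Q hi ih =>
    intro t
    cases t with
    | zero => exact z _ h1
    | succ t =>
      have ih' := ih (fun j hj => h j (mem_insert_of_mem hj))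
        (fun j hj => h1 j (mem_insert_of_mem hj))
      have k := add_nonneg (ih' (t + 1)) (mul_nonneg (h i (mem_insert_self _ _)) (ih' t))
      rw [A_insert x hi, prod_insert hi]
      refine k.trans_eq ?_
      ring

end Altx

theorem alt_st : AltSt := by
  intro Q x t h
  refine ⟨Altx.e_le x Q h t, fun h1 => ?_⟩
  have k1 := Altx.r_nonneg x Q h h1 t
  have k2 := Altx.r_nonneg x Q h h1 (t + 1)
  have s : Altx.A x Q (t + 1) = Altx.A x Q t + (-1) ^ t * Altx.e x Q t := sum_range_succ _ _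
  rw [s] at k2
  change |∏ i ∈ Q, (1 - x i) - Altx.A x Q t| ≤ Altx.e x Q t
  rcases neg_one_pow_eq_or ℝ t with e | e
  · rw [pow_succ, e] at k2
    rw [e] at k1
    exact abs_le.2 ⟨by linarith, by linarith⟩
  · rw [pow_succ, e] at k2
    rw [e] at k1
    exact abs_le.2 ⟨by linarith, by linarith⟩

end Pool.Agent.Lib.MP_be93de_nt.Hb
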