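import Pool.Agent.Lib.MP_be93de_nt.Hb.Defs

/-! Truncated Bernoulli weights on the patterns of a cell. -/

namespace Pool.Agent.Lib.MP_be93de_nt.Hb

open Finset

namespace BaseWx

theorem marg (c K : Finset ℕ) (hK : K ⊆ c) (ρ : ℝ) :
    ∑ π ∈ c.powerset.filter (K ⊆ ·), ρ ^ π.card * (1 - ρ) ^ (c.card - π.card) = ρ ^ K.card := by
  have h := Finset.prod_add (fun _ : ℕ => ρ) (fun i => if i ∈ K then (0 : ℝ) else 1 - ρ) c
  have h1 : ∏ i ∈ c, (ρ + if i ∈ K then (0 : ℝ) else 1 - ρ) = ρ ^ K.card := by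
    have : ∀ i ∈ c, (ρ + if i ∈ K then (0 : ℝ) else 1 - ρ) = if i ∈ K then ρ else 1 := by
      intro i _; split_ifs <;> ring
    rw [prod_congr rfl this, prod_ite, prod_const, prod_const_one, mul_one, filter_mem_eq_inter,
      inter_eq_right.2 hK]
  rw [← h1, h, sum_filter]
  refine sum_congr rfl fun π hπ => ?_
  have hπ' : π ⊆ c := mem_powerset.1 hπ
  split_ifs with e
  · rw [prod_const, ← card_sdiff_of_subset hπ', ← prod_const (1 - ρ)]
    congr 1
    refine prod_congr rfl fun i hi => ?_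
    rw [if_neg fun hiK => (mem_sdiff.1 hi).2 (e hiK)]
  · obtain ⟨i, hi, hi'⟩ := not_subset.1 e
    rw [prod_eq_zero (f := fun i => if i ∈ K then (0 : ℝ) else 1 - ρ) (i := i)
      (mem_sdiff.2 ⟨hK hi, hi'⟩) (if_pos hi), mul_zero]

theorem tail (c : Finset ℕ) (ρ : ℝ) (nm : ℕ) (h0 : 0 ≤ ρ) (h1 : ρ ≤ 1) (h : c.card * ρ ≤ 1 / 4) :
    ∑ π ∈ c.powerset.filter (fun π => nm < π.card), ρ ^ π.card * (1 - ρ) ^ (c.card - π.card) ≤
      (1 / 4) ^ nm := by
  have h2 : 0 ≤ 1 - ρ := by linarith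
  have a1 : ∑ π ∈ c.powerset.filter (fun π => nm < π.card),
      ρ ^ π.card * (1 - ρ) ^ (c.card - π.card) ≤
      ∑ π ∈ c.powerset, (1 / 4) ^ (nm + 1) * ((4 * ρ) ^ π.card * (1 - ρ) ^ (c.card - π.card)) := by
    refine le_trans (sum_le_sum fun π hπ => ?_)
      (sum_le_sum_of_subset_of_nonneg (filter_subset _ _) fun π _ _ => by positivity)
    have hπ' : nm + 1 ≤ π.card := (mem_filter.1 hπ).2
    have b1 : (4 : ℝ) ^ (nm + 1) ≤ 4 ^ π.card := pow_le_pow_right₀ (by norm_num) hπ'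
    have b2 : (1 : ℝ) ≤ (1 / 4) ^ (nm + 1) * 4 ^ π.card := by
      have : (1 / 4 : ℝ) ^ (nm + 1) * 4 ^ (nm + 1) = 1 := by rw [← mul_pow]; norm_num
      exact this.symm.le.trans (mul_le_mul_of_nonneg_left b1 (by positivity))
    have b3 : 0 ≤ ρ ^ π.card * (1 - ρ) ^ (c.card - π.card) := by positivity
    calc ρ ^ π.card * (1 - ρ) ^ (c.card - π.card)
        = 1 * (ρ ^ π.card * (1 - ρ) ^ (c.card - π.card)) := (one_mul _).symm
      _ ≤ ((1 / 4) ^ (nm + 1) * 4 ^ π.card) * (ρ ^ π.card * (1 - ρ) ^ (c.card - π.card)) :=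
          mul_le_mul_of_nonneg_right b2 b3
      _ = _ := by rw [mul_pow]; ring
  rw [← mul_sum, Finset.sum_pow_mul_eq_add_pow] at a1
  have a2 : (4 * ρ + (1 - ρ)) ^ c.card ≤ Real.exp (3 * ρ) ^ c.card :=
    pow_le_pow_left₀ (by linarith) (by linarith [Real.add_one_le_exp (3 * ρ)]) _
  have a3 : Real.exp (3 * ρ) ^ c.card ≤ 4 := by
    rw [← Real.exp_nat_mul]
    calc Real.exp (c.card * (3 * ρ)) ≤ Real.exp 1 := Real.exp_le_exp.2 (by linarith)
      _ ≤ 4 := by linarith [Real.exp_one_lt_d9]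
  calc _ ≤ (1 / 4 : ℝ) ^ (nm + 1) * (4 * ρ + (1 - ρ)) ^ c.card := a1
    _ ≤ (1 / 4) ^ (nm + 1) * 4 := mul_le_mul_of_nonneg_left (a2.trans a3) (by positivity)
    _ = _ := by rw [pow_succ]; ring

end BaseWx

theorem base_st : BaseSt := by
  intro c ρ nm h0 h1 h
  have h2 : 0 ≤ 1 - ρ := by linarith
  set w : ℕ → ℝ := fun n => ρ ^ n * (1 - ρ) ^ (c.card - n) with hw
  have w0 : ∀ n, 0 ≤ w n := fun n => by simp only [hw]; positivity
  set τ : ℝ := ∑ π ∈ c.powerset.filter (fun π => nm < π.card), w π.card with hτ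
  have τ0 : 0 ≤ τ := sum_nonneg fun π _ => w0 _
  have τ1 : τ ≤ (1 / 4) ^ nm := BaseWx.tail c ρ nm h0 h1 h
  have key : ∀ K ⊆ c, ∑ π ∈ c.powerset.filter (K ⊆ ·),
      (w π.card - (if nm < π.card then w π.card else 0) + if π.card = 0 then τ else 0) =
      ρ ^ K.card - (∑ π ∈ c.powerset.filter (K ⊆ ·), if nm < π.card then w π.card else 0) +
        if K = ∅ then τ else 0 := by
    intro K hK
    rw [sum_add_distrib, sum_sub_distrib, BaseWx.marg c K hK ρ]
    congr 1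
    simp only [card_eq_zero]
    rw [sum_ite_eq']
    simp
  refine ⟨fun n => w n - (if nm < n then w n else 0) + if n = 0 then τ else 0, ?_, ?_, ?_, ?_⟩
  · intro n
    have := w0 n
    split_ifs <;> linarith
  · have := key ∅ (empty_subset _)
    simp only [empty_subset, filter_true, card_empty, pow_zero, if_true] at this
    rw [this, hτ, sum_filter]
    ring
  · intro n hn
    rw [if_pos hn, if_neg (by omega)]
    ring
  · intro K hK
    rw [key K hK]
    have t0 : 0 ≤ ∑ π ∈ c.powerset.filter (K ⊆ ·), if nm < π.card then w π.card else 0 :=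
      sum_nonneg fun π _ => by split_ifs; exacts [w0 _, le_rfl]
    have t1 : (∑ π ∈ c.powerset.filter (K ⊆ ·), if nm < π.card then w π.card else 0) ≤ τ := by
      rw [hτ, sum_filter (fun π : Finset ℕ => nm < π.card)]
      exact sum_le_sum_of_subset_of_nonneg (filter_subset _ _) fun π _ _ => by
        split_ifs; exacts [w0 _, le_rfl]
    rw [abs_le]
    constructor <;> split_ifs <;> linarith

end Pool.Agent.Lib.MP_be93de_nt.Hb
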