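import Pool.Agent.Lib.MP_be93de_nt.Hb.Defs

namespace Pool.Agent.Lib.MP_be93de_nt.Hb

open Finset Filter

namespace Blockx

def Zn (T u : ℕ) : Finset ℕ := (range (u + 1)).image (fun i => T + 3 * (i + 1))

def Km (q : ℕ) (H : Finset ℕ) (m : ℕ) : Finset ℕ := H.image (fun b => q * m + b)

theorem mem_Zn {T u a : ℕ} : a ∈ Zn T u ↔ ∃ i, i ≤ u ∧ T + 3 * (i + 1) = a := by
  simp [Zn]

theorem card_Zn (T u : ℕ) : (Zn T u).card = u + 1 := by
  rw [Zn, card_image_of_injective _ (fun i j e => by omega), card_range]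

theorem card_Km (q : ℕ) (H : Finset ℕ) (m : ℕ) : (Km q H m).card = H.card :=
  card_image_of_injective _ (fun i j e => by omega)

theorem tup_eq (q : ℕ) (H : Finset ℕ) (Z : ℕ) (B : Finset ℕ) :
    (tup q H Z B : ℝ) = ∑ m ∈ range Z, if Km q H m ⊆ B then (1 : ℝ) else 0 := by
  rw [tup, card_filter]
  push_cast
  exact sum_congr rfl fun m _ => if_congr (by simp [Km, image_subset_iff]) rfl rfl

theorem good_union {P : ℕ → Prop} {T L u r : ℕ} {B : Finset ℕ} (hu : u < L)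
    (hB : ∀ a ∈ B, T + 3 * L + 3 ≤ a) (h : Good P (r + 1 + u) B) : Good P r (Zn T u ∪ B) := by
  intro a ha ha2
  have a1 : a ∈ B := by
    rcases mem_union.1 ha with e | e
    · obtain ⟨i, hi, rfl⟩ := mem_Zn.1 e
      rcases mem_union.1 ha2 with e' | e'
      · obtain ⟨j, -, hj⟩ := mem_Zn.1 e'
        omega
      · have := hB _ e'
        omega
    · exact e
  have a0 := hB a a1
  have a2 : a + 2 ∈ B := by
    rcases mem_union.1 ha2 with e' | e'
    · obtain ⟨j, hj, hj'⟩ := mem_Zn.1 e'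
      omega
    · exact e'
  have e1 : (Zn T u).filter (· ≤ a) = Zn T u := filter_true_of_mem fun x hx => by
    obtain ⟨j, hj, hj'⟩ := mem_Zn.1 hx
    omega
  have e2 : Disjoint (Zn T u) (B.filter (· ≤ a)) := disjoint_left.2 fun x hx hx' => by
    obtain ⟨j, hj, hj'⟩ := mem_Zn.1 hx
    have := hB x (mem_filter.1 hx').1
    omega
  have := h a a1 a2
  rw [filter_union, e1, card_union_of_disjoint e2, card_Zn]
  convert this using 1
  omega

theorem cntA {q : ℕ} (hq : 1 ≤ q) (H bad : Finset ℕ) (Z : ℕ) :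
    ((range Z).filter fun m => ¬ Disjoint (Km q H m) bad).card ≤ H.card * bad.card := by
  rw [← card_product]
  refine le_trans (card_le_card fun m hm => ?_)
    (card_image_le (f := fun z : ℕ × ℕ => (z.2 - z.1) / q))
  obtain ⟨a, h1, h2⟩ := not_disjoint_iff.1 (mem_filter.1 hm).2
  obtain ⟨b, hb, rfl⟩ := mem_image.1 h1
  refine mem_image.2 ⟨(b, q * m + b), mem_product.2 ⟨hb, h2⟩, ?_⟩
  simp only [Nat.add_sub_cancel]
  exact Nat.mul_div_cancel_left m hq

theorem cntB {q : ℕ} (hq : 1 ≤ q) {H : Finset ℕ} (hH : H.Nonempty) (W : Finset ℕ) (Z : ℕ) :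
    ((range Z).filter fun m => Km q H m ⊆ W).card ≤ W.card := by
  obtain ⟨b, hb⟩ := hH
  refine card_le_card_of_injOn (fun m => q * m + b)
    (fun m hm => (mem_filter.1 (mem_coe.1 hm)).2 (mem_image_of_mem _ hb)) fun m _ m' _ e => ?_
  exact Nat.eq_of_mul_eq_mul_left hq (Nat.add_right_cancel e)

theorem est (hF : FuncSt) {P : ℕ → Prop} {p : Finset ℕ → ℕ → Finset ℕ → ℝ} {cs : List (Finset ℕ)}
    (hp : ∀ c ∈ cs, Prob P c (p c)) {E bad H : Finset ℕ} {Zf : ℕ → Finset ℕ} {L r q : ℕ} (Z : ℕ)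
    {ρ ε : ℝ} (hL : 1 ≤ L) (hZ : ∀ u < L, Zf u ⊆ bad) (hE : E ⊆ un cs ∪ bad) (hW : un cs ⊆ E)
    (h0 : 0 ≤ ρ) (h1 : ρ ≤ 1) (hε : 0 ≤ ε) (hq : 1 ≤ q) (hH : H.Nonempty)
    (hC : ∀ m, Km q H m ⊆ un cs →
      |Av L r (fun u => Ex p cs u (fun B => if Km q H m ⊆ B then 1 else 0)) - ρ ^ H.card| ≤ ε) :
    |(∑ u ∈ range L, Ex p cs (r + u) (fun B => (tup q H Z (Zf u ∪ B) : ℝ))) / L -
      ρ ^ H.card * tup q H Z E| ≤ H.card * bad.card + (un cs).card * ε := by
  obtain ⟨lin, hr⟩ := hF P p cs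
  obtain ⟨cst, mono, -⟩ := hr hp
  have L0 : (0 : ℝ) < L := by exact_mod_cast hL
  have e1 : ∀ u, Ex p cs (r + u) (fun B => (tup q H Z (Zf u ∪ B) : ℝ)) = ∑ m ∈ range Z,
      Ex p cs (r + u) (fun B => if Km q H m ⊆ Zf u ∪ B then 1 else 0) := fun u => by
    have := lin (r + u) ℕ (range Z) (fun _ => 1)
      (fun m B => if Km q H m ⊆ Zf u ∪ B then 1 else 0)
    simp only [one_mul] at this
    rw [← this]
    exact congrArg _ (funext fun B => tup_eq _ _ _ _)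
  rw [sum_congr rfl fun u _ => e1 u, sum_comm, tup_eq, sum_div, mul_sum, ← sum_sub_distrib]
  refine (abs_sum_le_sum_abs _ _).trans ((sum_le_sum (g := fun m =>
    (if ¬ Disjoint (Km q H m) bad then (1 : ℝ) else 0) +
      (if Km q H m ⊆ un cs then (1 : ℝ) else 0) * ε) fun m _ => ?_).trans ?_)
  · have p0 : 0 ≤ ρ ^ H.card := pow_nonneg h0 _
    have p1 : ρ ^ H.card ≤ 1 := pow_le_one₀ h0 h1
    by_cases hd : Disjoint (Km q H m) bad
    · rw [if_neg (not_not.2 hd), zero_add]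
      by_cases hw : Km q H m ⊆ un cs
      · rw [if_pos hw, if_pos (hw.trans hW), one_mul, mul_one]
        refine le_of_eq_of_le ?_ (hC m hw)
        unfold Av
        congr 3
        refine sum_congr rfl fun u hu => congrArg _ (funext fun B => if_congr ⟨fun k a ha => ?_,
          fun k => k.trans subset_union_right⟩ rfl rfl)
        exact (mem_union.1 (k ha)).resolve_left fun k' =>
          disjoint_left.1 hd ha (hZ u (mem_range.1 hu) k')
      · obtain ⟨a, ha, ha'⟩ := not_subset.1 hw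
        have hb := disjoint_left.1 hd ha
        have z1 : ∀ u ∈ range L,
            Ex p cs (r + u) (fun B => if Km q H m ⊆ Zf u ∪ B then 1 else 0) = 0 := fun u hu => by
          have k : ∀ B ⊆ un cs, (if Km q H m ⊆ Zf u ∪ B then (1 : ℝ) else 0) = 0 := fun B hB =>
            if_neg fun k => (mem_union.1 (k ha)).elim
              (fun k' => hb (hZ u (mem_range.1 hu) k')) fun k' => ha' (hB k')
          exact le_antisymm ((mono _ _ _ fun B hB => (k B hB).le).trans_eq (cst _ 0))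
            ((cst _ 0).symm.trans_le (mono _ _ _ fun B hB => (k B hB).ge))
        rw [sum_eq_zero z1, if_neg hw, if_neg fun k => (mem_union.1 (hE (k ha))).elim ha' hb]
        simp
    · rw [if_pos hd]
      have x0 : 0 ≤ (∑ u ∈ range L,
          Ex p cs (r + u) (fun B => if Km q H m ⊆ Zf u ∪ B then 1 else 0)) / L :=
        div_nonneg (sum_nonneg fun u _ => (cst _ 0).symm.trans_le
          (mono _ _ _ fun B _ => by split_ifs <;> norm_num)) L0.le
      have x1 : (∑ u ∈ range L,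
          Ex p cs (r + u) (fun B => if Km q H m ⊆ Zf u ∪ B then 1 else 0)) / L ≤ 1 := by
        rw [div_le_one L0]
        refine (sum_le_sum (g := fun _ => (1 : ℝ)) fun u _ => (mono _ _ (fun _ => 1)
          fun B _ => by split_ifs <;> norm_num).trans_eq (cst _ 1)).trans ?_
        simp
      have y0 : 0 ≤ (if Km q H m ⊆ un cs then (1 : ℝ) else 0) * ε :=
        mul_nonneg (by split_ifs <;> norm_num) hε
      rw [abs_le]
      split_ifs <;> constructor <;> linarith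
  · rw [sum_add_distrib, ← sum_mul, sum_boole, sum_boole]
    have c1 : (((range Z).filter fun m => ¬ Disjoint (Km q H m) bad).card : ℝ) ≤
        H.card * bad.card := by exact_mod_cast cntA hq H bad Z
    have c2 : (((range Z).filter fun m => Km q H m ⊆ un cs).card : ℝ) ≤ (un cs).card := by
      exact_mod_cast cntB hq hH (un cs) Z
    exact add_le_add c1 (mul_le_mul_of_nonneg_right c2 hε)

theorem sub_un {cs : List (Finset ℕ)} {c : Finset ℕ} (h : c ∈ cs) : c ⊆ un cs := by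
  induction cs with
  | nil => simp at h
  | cons a l ih =>
    rcases List.mem_cons.1 h with rfl | e
    · exact subset_union_left
    · exact (ih e).trans subset_union_right

theorem num1 {s : ℕ} (hs : 2 ≤ s) : s * (3 * R s + 3 + s ^ 7) * 2 ^ (s + 1) ≤ Y s := by
  have a1 : s ≤ 2 ^ s := Nat.lt_two_pow_self.le
  have a2 : s ^ 7 ≤ 2 ^ s ^ 7 := Nat.lt_two_pow_self.le
  have a3 : 1 ≤ 2 ^ s ^ 7 := Nat.one_le_two_pow
  have a4 : 3 * R s + 3 + s ^ 7 ≤ 2 ^ (s ^ 7 + 3) := by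
    rw [R, pow_add]; omega
  have a5 : s + (s ^ 7 + 3) + (s + 1) ≤ s ^ 8 := by
    have b1 : 2 ^ 6 ≤ s ^ 6 := Nat.pow_le_pow_left hs 6
    have b2 : s ^ 7 = s * s ^ 6 := by ring
    have b3 : s ^ 8 = s * s ^ 7 := by ring
    have b4 : s * 2 ^ 6 ≤ s * s ^ 6 := Nat.mul_le_mul_left s b1
    have b5 : 2 * s ^ 7 ≤ s * s ^ 7 := Nat.mul_le_mul_right _ hs
    omega
  calc s * (3 * R s + 3 + s ^ 7) * 2 ^ (s + 1) ≤ 2 ^ s * 2 ^ (s ^ 7 + 3) * 2 ^ (s + 1) := by gcongr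
    _ = 2 ^ (s + (s ^ 7 + 3) + (s + 1)) := by rw [← pow_add, ← pow_add]
    _ ≤ Y s := Nat.pow_le_pow_right (by norm_num) a5

theorem num2 {s : ℕ} (hs : 1 ≤ s) : 2 * s * (2 ^ s + 1) ≤ 2 ^ (4 * s) := by
  have a1 : s ≤ 2 ^ s := Nat.lt_two_pow_self.le
  have a2 : 2 ≤ 2 ^ s := by simpa using Nat.pow_le_pow_right (show 1 ≤ 2 by norm_num) hs
  rw [mul_comm 4, pow_mul]
  generalize 2 ^ s = w at *
  have a3 : 4 ≤ w * w := by nlinarith
  calc 2 * s * (w + 1) ≤ 2 * w * (2 * w) := by gcongr; omega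
    _ = 4 * (w * w) := by ring
    _ ≤ w * w * (w * w) := by gcongr
    _ = w ^ 4 := by ring

theorem num3 {s k : ℕ} (hs : 2 ≤ s) (hk : k ≤ s) :
    (4 : ℝ) ^ k * (1 / (4 * 8 ^ s) + (1 / 4) ^ (2 * s)) ≤ 1 / (2 * 2 ^ s) := by
  have a1 : (4 : ℝ) ^ k ≤ 4 ^ s := pow_le_pow_right₀ (by norm_num) hk
  have a2 : (4 : ℝ) ≤ 2 ^ s := by
    have := pow_le_pow_right₀ (show (1 : ℝ) ≤ 2 by norm_num) hs
    linarith
  have e1 : (4 : ℝ) ^ s = (2 ^ s) ^ 2 := by rw [← pow_mul, mul_comm, pow_mul]; norm_num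
  have e2 : (8 : ℝ) ^ s = (2 ^ s) ^ 3 := by rw [← pow_mul, mul_comm, pow_mul]; norm_num
  have e3 : (1 / 4 : ℝ) ^ (2 * s) = 1 / (2 ^ s) ^ 4 := by
    rw [one_div_pow, ← pow_mul, mul_comm s 4, pow_mul, pow_mul]; norm_num
  refine (mul_le_mul_of_nonneg_right a1 (by positivity)).trans ?_
  rw [e1, e2, e3]
  generalize (2 : ℝ) ^ s = w at *
  have w0 : 0 < w := by linarith
  have e4 : w ^ 2 * (1 / (4 * w ^ 3) + 1 / w ^ 4) = 1 / (4 * w) + 1 / (w * w) := by
    field_simp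
  have e5 : 1 / (w * w) ≤ 1 / (4 * w) := one_div_le_one_div_of_le (by positivity) (by nlinarith)
  have e6 : 1 / (2 * w) = 1 / (4 * w) + 1 / (4 * w) := by field_simp; norm_num
  linarith

end Blockx

open Blockx in
theorem block_st (h1 : MertSt) (h2 : CellsSt) (h3 : BaseSt) (h4 : TiltSt) (h5 : FuncSt)
    (h6 : CombSt) (h7 : AvgSt) : BlockSt := by
  filter_upwards [h7, eventually_ge_atTop 8,
    (tendsto_natCast_atTop_atTop (R := ℝ)).eventually_ge_atTop (12 * Real.exp 42)]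
    with s hA hs hs' T r ρ d h0 hρ
  have s8 : (8 : ℝ) ≤ s := by exact_mod_cast hs
  have s0 : (0 : ℝ) < s := by linarith
  have s1 : (1 : ℝ) ≤ s ^ 7 := one_le_pow₀ (by linarith)
  have hρ' : ρ * (s : ℝ) ^ 8 ≤ 1 := (le_div_iff₀ (by positivity)).1 hρ
  have e8 : (s : ℝ) ^ 8 = s * s ^ 7 := by ring
  have ρ7 : ρ * (s : ℝ) ^ 7 ≤ 1 / 8 := by
    have : 0 ≤ ρ * (s : ℝ) ^ 7 := by positivity
    nlinarith
  have ρ1 : ρ ≤ 1 / 8 := by nlinarith
  have f4 : 4 ≤ 2 ^ (2 * s) := by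
    simpa using Nat.pow_le_pow_right (show 1 ≤ 2 by norm_num) (show 2 ≤ 2 * s by omega)
  have hU : ∀ a ∈ (EB s T).filter (T + 3 * R s + 3 ≤ ·), ¬ 2 ∣ a ∧ ¬ 3 ∣ a := fun a ha => by
    have k := (mem_filter.1 (mem_filter.1 ha).1).2
    exact ⟨k 2 (mem_filter.2 ⟨mem_Ioc.2 ⟨by norm_num, by omega⟩, Nat.prime_two⟩),
      k 3 (mem_filter.2 ⟨mem_Ioc.2 ⟨by norm_num, by omega⟩, Nat.prime_three⟩)⟩
  obtain ⟨cs, hS, hc, hu, hl⟩ := h2 _ (s ^ 7) (Nat.one_le_pow _ _ (by omega)) hU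
  have g1 : 1 ≤ (sig s)⁻¹ := (one_le_inv₀ (h1.1 _ _).1).2 (h1.1 _ _).2
  have g2 := (h1.2.2 s (by omega)).2.1
  have hp : ∀ c, ∃ p, c ∈ cs → Prob (SS s) c p ∧
      Rep (SS s) (sig s)⁻¹ ρ ((1 / 4) ^ (2 * s)) (2 * s) c p := fun c => by
    by_cases hcs : c ∈ cs
    swap
    · exact ⟨fun _ _ => 0, fun k => absurd k hcs⟩
    have k1 : (s : ℝ) ^ 7 ≤ c.card := by exact_mod_cast (hc c hcs).1
    have k2 : (c.card : ℝ) ≤ s ^ 7 + 1 := by exact_mod_cast (hc c hcs).2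
    obtain ⟨β, hβ⟩ := h3 c ρ (2 * s) h0 (by linarith) (by nlinarith)
    obtain ⟨p, hp⟩ := h4 (SS s) c (sig s)⁻¹ ρ _ (2 * s) β
      (fun a ha => (hU a (hu (sub_un hcs ha))).2) g1 (by
        refine le_trans ?_ k1
        push_cast
        have m1 : 3 * (sig s)⁻¹ * (2 * (s : ℝ)) ^ 2 ≤
            3 * (Real.exp 42 * s ^ 2) * (2 * (s : ℝ)) ^ 2 := by gcongr
        have m2 : 12 * Real.exp 42 * (s : ℝ) ^ 4 ≤ s * s ^ 4 := by gcongr
        have m3 : (s : ℝ) ^ 5 ≤ s ^ 7 := pow_le_pow_right₀ (by linarith) (by norm_num)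
        nlinarith) hβ
    exact ⟨p, fun _ => hp⟩
  choose p hp using hp
  have R1 : 1 ≤ R s := Nat.one_le_two_pow
  have R0 : (0 : ℝ) < R s := by exact_mod_cast R1
  have n1 := num1 (show 2 ≤ s by omega)
  have n2 : 3 * R s + 3 ≤ Y s := by
    have k1 : 1 ≤ 2 ^ (s + 1) := Nat.one_le_two_pow
    have k2 : 1 * (3 * R s + 3) * 1 ≤ s * (3 * R s + 3 + s ^ 7) * 2 ^ (s + 1) :=
      Nat.mul_le_mul (Nat.mul_le_mul (by omega) (Nat.le_add_right _ _)) k1
    omega
  obtain ⟨lin, hr⟩ := h5 (SS s) p cs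
  obtain ⟨-, -, sel⟩ := hr fun c k => (hp c k).1
  obtain ⟨u, hu', hmin⟩ := exists_min_image (range (R s)) (fun u => ∑ τ ∈ tests s, d τ *
    Ex p cs (r + 1 + u) (fun B => (tup τ.1 τ.2 (T + Y s) (Zn T u ∪ B) : ℝ)))
    ⟨0, mem_range.2 R1⟩
  obtain ⟨B, hB, hG, hle⟩ := sel hS (r + 1 + u)
    (fun B => ∑ τ ∈ tests s, d τ * (tup τ.1 τ.2 (T + Y s) (Zn T u ∪ B) : ℝ))
  rw [lin] at hle
  have uR := mem_range.1 hu'
  refine ⟨Zn T u ∪ B, fun τ => (∑ u ∈ range (R s),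
    Ex p cs (r + 1 + u) (fun B => (tup τ.1 τ.2 (T + Y s) (Zn T u ∪ B) : ℝ))) / R s,
    fun a ha => ?_, ⟨T + 3, mem_union_left _ (mem_Zn.2 ⟨0, Nat.zero_le _, rfl⟩)⟩,
    good_union uR (fun a ha => (mem_filter.1 (hu (hB ha))).2) hG, ?_, fun τ hτ => ?_⟩
  · rcases mem_union.1 ha with e | e
    · obtain ⟨i, hi, rfl⟩ := mem_Zn.1 e
      exact mem_Ico.2 ⟨by omega, by omega⟩
    · have k := mem_filter.1 (hu (hB e))
      have k' := mem_Ico.1 (mem_filter.1 k.1).1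
      exact mem_Ico.2 ⟨by omega, k'.2⟩
  · have k := card_nsmul_le_sum _ _ _ hmin
    rw [card_range, nsmul_eq_mul, sum_comm] at k
    simp only [mul_sub, sum_sub_distrib, ← mul_div_assoc, mul_sum]
    rw [← sum_div, sub_nonpos, le_div_iff₀ R0]
    exact (mul_le_mul_of_nonneg_right hle R0.le).trans ((mul_comm _ _).trans_le k)
  · obtain ⟨t1, t2⟩ := mem_product.1 hτ
    obtain ⟨t3, t4, t5⟩ := mem_filter.1 t2
    have t6 : ∀ b ∈ τ.2, b ≤ 2 ^ s := fun b hb =>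
      Nat.lt_succ_iff.1 (mem_range.1 (mem_powerset.1 t3 hb))
    have k := est h5 (fun c k => (hp c k).1) (E := EB s T)
      (bad := Ico T (T + 3 * R s + 3) ∪ ((EB s T).filter (T + 3 * R s + 3 ≤ ·) \ un cs))
      (H := τ.2) (Zf := Zn T) (r := r + 1) (q := τ.1) (T + Y s) (ρ := ρ) (ε := 1 / (2 * 2 ^ s)) R1
      (fun u hu a ha => by
        obtain ⟨i, hi, rfl⟩ := mem_Zn.1 ha
        exact mem_union_left _ (mem_Ico.2 ⟨by omega, by omega⟩))
      (fun a ha => by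
        by_cases e1 : a ∈ un cs
        · exact mem_union_left _ e1
        refine mem_union_right _ ?_
        by_cases e2 : T + 3 * R s + 3 ≤ a
        · exact mem_union_right _ (mem_sdiff.2 ⟨mem_filter.2 ⟨ha, e2⟩, e1⟩)
        · exact mem_union_left _
            (mem_Ico.2 ⟨(mem_Ico.1 (mem_filter.1 ha).1).1, not_le.1 e2⟩))
      (hu.trans (filter_subset _ _)) h0 (by linarith) (by positivity) (mem_Icc.1 t1).1
      (card_pos.1 t4) fun m hm => by
        have k1 := h6 (SS s) (sig s)⁻¹ ρ ((1 / 4) ^ (2 * s)) (1 / (4 * 8 ^ s)) (2 * s) (2 * s ^ 2)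
          (2 ^ (4 * s)) (2 ^ s) (R s) (r + 1) p cs (Km τ.1 τ.2 m) h0 (by linarith)
          (by positivity) R1 (hA (r + 1)) hS
          (fun c k => ⟨card_pos.1 (lt_of_lt_of_le (by positivity) (hc c k).1), hp c k⟩) hm
          (fun a ha b hb => by
            obtain ⟨a', ha', rfl⟩ := mem_image.1 ha
            obtain ⟨b', -, rfl⟩ := mem_image.1 hb
            have := t6 a' ha'
            omega)
          (by rw [card_Km]; nlinarith) (num2 (by omega))
        rw [card_Km] at k1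
        exact k1.trans (num3 (by omega) t5)
    refine k.trans ?_
    have c1 : (Ico T (T + 3 * R s + 3) ∪ ((EB s T).filter (T + 3 * R s + 3 ≤ ·) \ un cs)).card ≤
        3 * R s + 3 + s ^ 7 :=
      (card_union_le _ _).trans (Nat.add_le_add (by rw [Nat.card_Ico]; omega) hl)
    have c2 : (un cs).card ≤ Y s :=
      (card_le_card ((hu.trans (filter_subset _ _)).trans (filter_subset _ _))).trans
        (by rw [Nat.card_Ico]; omega)
    have c3 : ((τ.2.card * (Ico T (T + 3 * R s + 3) ∪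
        ((EB s T).filter (T + 3 * R s + 3 ≤ ·) \ un cs)).card * 2 ^ (s + 1) : ℕ) : ℝ) ≤ Y s := by
      exact_mod_cast le_trans (by gcongr) n1
    have c4 : ((un cs).card : ℝ) ≤ Y s := by exact_mod_cast c2
    push_cast at c3
    rw [← le_div_iff₀ (by positivity), pow_succ] at c3
    have c5 := mul_le_mul_of_nonneg_right c4 (show (0 : ℝ) ≤ 1 / (2 * 2 ^ s) by positivity)
    have e : (Y s : ℝ) / 2 ^ s = Y s / (2 ^ s * 2) + Y s * (1 / (2 * 2 ^ s)) := by
      field_simp; norm_num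
    linarith

end Pool.Agent.Lib.MP_be93de_nt.Hb
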