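import Pool.Agent.Lib.MP_be93de_nt.Hb.Defs

namespace Pool.Agent.Lib.MP_be93de_nt.Hb

open Finset

namespace Bonfx

/-- indicator of the excluded classes -/
noncomputable def chi (Ω : ℕ → Finset ℕ) (m p : ℕ) : ℝ := if m % p ∈ Ω p then 1 else 0

theorem chi_nonneg (Ω : ℕ → Finset ℕ) (m p : ℕ) : 0 ≤ chi Ω m p := by
  unfold chi; split_ifs <;> norm_num

theorem chi_le (Ω : ℕ → Finset ℕ) (m p : ℕ) : chi Ω m p ≤ 1 := by
  unfold chi; split_ifs <;> norm_num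

theorem prod_chi (Ω : ℕ → Finset ℕ) (m : ℕ) (D : Finset ℕ) :
    ∏ p ∈ D, chi Ω m p = if ∀ p ∈ D, m % p ∈ Ω p then 1 else 0 := by
  split_ifs with h
  · exact prod_eq_one fun p hp => if_pos (h p hp)
  · push Not at h
    obtain ⟨p, hp, h⟩ := h
    exact prod_eq_zero hp (if_neg h)

theorem prod_one_sub (Ω : ℕ → Finset ℕ) (m : ℕ) (D : Finset ℕ) :
    ∏ p ∈ D, (1 - chi Ω m p) = if ∀ p ∈ D, m % p ∉ Ω p then 1 else 0 := by
  split_ifs with h
  · refine prod_eq_one fun p hp => ?_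
    unfold chi; rw [if_neg (h p hp), sub_zero]
  · push Not at h
    obtain ⟨p, hp, h⟩ := h
    refine prod_eq_zero hp ?_
    unfold chi; rw [if_pos h, sub_self]

/-- elementary symmetric sum -/
noncomputable def es (Q : Finset ℕ) (x : ℕ → ℝ) (j : ℕ) : ℝ :=
  ∑ D ∈ powersetCard j Q, ∏ i ∈ D, x i

theorem sum_le_pow (S : ℝ) (hS : 0 ≤ S) (t : ℕ) :
    ∑ j ∈ range (t + 1), S ^ j / j.factorial ≤ (1 + S) ^ t := by
  rw [add_comm (1 : ℝ) S, add_pow]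
  refine sum_le_sum fun j hj => ?_
  have hj' : j ≤ t := Nat.lt_succ_iff.1 (mem_range.1 hj)
  have h1 : (1 : ℝ) ≤ (t.choose j : ℝ) := by exact_mod_cast Nat.choose_pos hj'
  have h2 : (1 : ℝ) ≤ (j.factorial : ℝ) := by exact_mod_cast Nat.factorial_pos j
  have h3 : 0 ≤ S ^ j := pow_nonneg hS j
  rw [one_pow, mul_one]
  calc S ^ j / j.factorial ≤ S ^ j := div_le_self h3 h2
    _ ≤ S ^ j * (t.choose j : ℝ) := le_mul_of_one_le_right h3 h1

end Bonfx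

open Bonfx in
theorem bonf_st (h1 : AltSt) (h2 : CrtSt) : BonfSt := by
  intro Q Ω a L t hQ hΩ
  set I := Ico a (a + L) with hI
  set w : ℕ → ℝ := fun p => ((Ω p).card : ℝ) with hw
  set x : ℕ → ℝ := fun p => ((Ω p).card : ℝ) / p with hx
  have hL : (0 : ℝ) ≤ L := Nat.cast_nonneg L
  have hw0 : ∀ p ∈ Q, 0 ≤ w p := fun p _ => Nat.cast_nonneg _
  have hx0 : ∀ p ∈ Q, 0 ≤ x p := fun p _ => div_nonneg (Nat.cast_nonneg _) (Nat.cast_nonneg _)
  have hx1 : ∀ p ∈ Q, x p ≤ 1 := by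
    intro p hp
    have hp0 : (0 : ℝ) < p := by exact_mod_cast (hQ p hp).pos
    have hc : (Ω p).card ≤ p := by simpa using card_le_card (hΩ p hp)
    show ((Ω p).card : ℝ) / p ≤ 1
    rw [div_le_one hp0]
    exact_mod_cast hc
  have hcount : ((I.filter (fun m => ∀ p ∈ Q, m % p ∉ Ω p)).card : ℝ) =
      ∑ m ∈ I, ∏ p ∈ Q, (1 - chi Ω m p) := by
    rw [card_filter]
    push_cast
    exact sum_congr rfl fun m _ => (prod_one_sub Ω m Q).symm
  have hE : ∀ j, |∑ m ∈ I, es Q (chi Ω m) j - L * es Q x j| ≤ es Q w j := by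
    intro j
    unfold es
    rw [sum_comm, mul_sum, ← sum_sub_distrib]
    refine (abs_sum_le_sum_abs _ _).trans (sum_le_sum fun D hD => ?_)
    have hDQ : D ⊆ Q := (mem_powersetCard.1 hD).1
    have h := h2 D Ω a L (fun p hp => hQ p (hDQ hp)) (fun p hp => hΩ p (hDQ hp))
    have hc : ((I.filter (fun m => ∀ p ∈ D, m % p ∈ Ω p)).card : ℝ) =
        ∑ m ∈ I, ∏ p ∈ D, chi Ω m p := by
      rw [card_filter]
      push_cast
      exact sum_congr rfl fun m _ => (prod_chi Ω m D).symm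
    rw [← hc]
    exact h
  have hA : |∑ m ∈ I, ∏ p ∈ Q, (1 - chi Ω m p) -
      ∑ j ∈ range t, (-1) ^ j * ∑ m ∈ I, es Q (chi Ω m) j| ≤ ∑ m ∈ I, es Q (chi Ω m) t := by
    have : ∑ j ∈ range t, (-1 : ℝ) ^ j * ∑ m ∈ I, es Q (chi Ω m) j =
        ∑ m ∈ I, ∑ j ∈ range t, (-1 : ℝ) ^ j * es Q (chi Ω m) j := by
      rw [sum_comm]
      exact sum_congr rfl fun j _ => mul_sum _ _ _
    rw [this, ← sum_sub_distrib]
    refine (abs_sum_le_sum_abs _ _).trans (sum_le_sum fun m _ => ?_)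
    exact (h1 Q (chi Ω m) t (fun p _ => chi_nonneg Ω m p)).2 (fun p _ => chi_le Ω m p)
  have hB : |∑ j ∈ range t, (-1) ^ j * ∑ m ∈ I, es Q (chi Ω m) j -
      L * ∑ j ∈ range t, (-1) ^ j * es Q x j| ≤ ∑ j ∈ range t, es Q w j := by
    rw [mul_sum, ← sum_sub_distrib]
    refine (abs_sum_le_sum_abs _ _).trans (sum_le_sum fun j _ => ?_)
    have : (-1 : ℝ) ^ j * ∑ m ∈ I, es Q (chi Ω m) j - L * ((-1) ^ j * es Q x j) =
        (-1) ^ j * (∑ m ∈ I, es Q (chi Ω m) j - L * es Q x j) := by ring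
    rw [this, abs_mul, abs_pow, abs_neg, abs_one, one_pow, one_mul]
    exact hE j
  have hC : |L * ∏ p ∈ Q, (1 - x p) - L * ∑ j ∈ range t, (-1) ^ j * es Q x j| ≤
      L * es Q x t := by
    rw [← mul_sub, abs_mul, abs_of_nonneg hL]
    exact mul_le_mul_of_nonneg_left ((h1 Q x t hx0).2 hx1) hL
  have hD : es Q x t ≤ (∑ p ∈ Q, x p) ^ t / t.factorial := (h1 Q x t hx0).1
  have hF : ∑ j ∈ range t, es Q w j + es Q w t ≤ (1 + ∑ p ∈ Q, w p) ^ t := by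
    rw [← sum_range_succ]
    refine le_trans (sum_le_sum fun j _ => (h1 Q w j hw0).1) ?_
    exact sum_le_pow _ (sum_nonneg hw0) t
  have hG := hE t
  have hD' : L * es Q x t ≤ L * ((∑ p ∈ Q, x p) ^ t / t.factorial) :=
    mul_le_mul_of_nonneg_left hD hL
  have hR : 2 * (L : ℝ) * (∑ p ∈ Q, x p) ^ t / t.factorial =
      2 * (L * ((∑ p ∈ Q, x p) ^ t / t.factorial)) := by ring
  rw [hcount]
  show |∑ m ∈ I, ∏ p ∈ Q, (1 - chi Ω m p) - L * ∏ p ∈ Q, (1 - x p)| ≤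
    2 * (L : ℝ) * (∑ p ∈ Q, x p) ^ t / t.factorial + (1 + ∑ p ∈ Q, w p) ^ t
  rw [hR]
  rw [abs_le] at hA hB hC hG ⊢
  constructor <;> linarith [hA.1, hA.2, hB.1, hB.2, hC.1, hC.2, hG.1, hG.2]

end Pool.Agent.Lib.MP_be93de_nt.Hb
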