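import Pool.Agent.Lib.MP_be93de_nt.Hb.Defs

namespace Pool.Agent.Lib.MP_be93de_nt.Hb

open Finset

namespace Cellsx

theorem sub_un {cs : List (Finset ℕ)} {c : Finset ℕ} (h : c ∈ cs) : c ⊆ un cs := by
  induction cs with
  | nil => simp at h
  | cons d ds ih =>
    rcases List.mem_cons.1 h with rfl | h
    · exact subset_union_left
    · exact (ih h).trans subset_union_right

theorem cut (U : Finset ℕ) (M : ℕ) (h1 : 1 ≤ M) (h2 : M ≤ U.card) :
    ∃ k ∈ U, (U.filter (· < k + 1)).card = M := by
  have hex : ∃ n, M ≤ (U.filter (· < n)).card := by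
    refine ⟨U.sup id + 1, h2.trans (card_le_card fun a ha => mem_filter.2 ⟨ha, ?_⟩)⟩
    exact Nat.lt_succ_of_le (le_sup (f := id) ha)
  have hs := Nat.find_spec hex
  have h0 : Nat.find hex ≠ 0 := fun e => by
    rw [e] at hs
    simp at hs
    omega
  obtain ⟨k, hk⟩ := Nat.exists_eq_succ_of_ne_zero h0
  have hm := Nat.find_min hex (m := k) (by omega)
  rw [hk] at hs
  have hsub : U.filter (· < k + 1) ⊆ insert k (U.filter (· < k)) := fun a ha => by
    obtain ⟨a1, a2⟩ := mem_filter.1 ha
    rcases Nat.lt_succ_iff_lt_or_eq.1 a2 with e | e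
    · exact mem_insert_of_mem (mem_filter.2 ⟨a1, e⟩)
    · exact e ▸ mem_insert_self _ _
  have hc := (card_le_card hsub).trans (card_insert_le _ _)
  have hs' : M ≤ (U.filter (· < k + 1)).card := hs
  refine ⟨k, ?_, by omega⟩
  by_contra hkU
  refine hm (hs'.trans (card_le_card fun a ha => ?_))
  obtain ⟨a1, a2⟩ := mem_filter.1 ha
  refine mem_filter.2 ⟨a1, ?_⟩
  rcases Nat.lt_succ_iff_lt_or_eq.1 a2 with e | e
  · exact e
  · exact absurd (e ▸ a1) hkU

theorem main (M : ℕ) (hM : 1 ≤ M) (n : ℕ) : ∀ U : Finset ℕ, U.card = n →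
    (∀ a ∈ U, ¬ 2 ∣ a ∧ ¬ 3 ∣ a) →
    ∃ cs : List (Finset ℕ), Srt cs ∧ (∀ c ∈ cs, M ≤ c.card ∧ c.card ≤ M + 1) ∧ un cs ⊆ U ∧
      (U \ un cs).card ≤ M := by
  induction n using Nat.strong_induction_on with
  | _ n ih =>
    intro U hn hU
    by_cases hle : U.card ≤ M
    · exact ⟨[], List.Pairwise.nil, by simp, empty_subset _,
        (card_le_card sdiff_subset).trans hle⟩
    obtain ⟨k, hk, hc⟩ := cut U M hM (by omega)
    have hlt : (U.filter (k + 3 ≤ ·)).card < n := by
      rw [← hn]
      refine card_lt_card ⟨filter_subset _ _, fun h => ?_⟩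
      have := (mem_filter.1 (h hk)).2
      omega
    obtain ⟨cs, s1, s2, s3, s4⟩ := ih _ hlt (U.filter (k + 3 ≤ ·)) rfl
      fun a ha => hU a (mem_filter.1 ha).1
    have hk2 := hU k hk
    refine ⟨U.filter (· < k + 3) :: cs, List.pairwise_cons.2 ⟨fun c' hc' a ha b hb => ?_, s1⟩,
      fun c hc' => ?_, union_subset (filter_subset _ _) (s3.trans (filter_subset _ _)), ?_⟩
    · obtain ⟨a1, a2⟩ := mem_filter.1 ha
      obtain ⟨b1, b2⟩ := mem_filter.1 (s3 (sub_un hc' hb))
      have ha2 := hU a a1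
      have hb2 := hU b b1
      refine ⟨by omega, fun e => ?_⟩
      have e1 : a = k + 2 := by
        have k1 := hk2.1
        have k2 := ha2.1
        omega
      subst e
      subst e1
      have k1 := hk2.2
      have k2 := ha2.2
      have k3 := hb2.2
      have k4 : k % 3 = 0 ∨ k % 3 = 1 ∨ k % 3 = 2 := by omega
      rcases k4 with k4 | k4 | k4
      · exact k1 (by omega)
      · exact k2 (by omega)
      · exact k3 (by omega)
    · rcases List.mem_cons.1 hc' with rfl | hc'
      · refine ⟨hc.ge.trans (card_le_card fun a ha => ?_), ?_⟩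
        · obtain ⟨a1, a2⟩ := mem_filter.1 ha
          exact mem_filter.2 ⟨a1, by omega⟩
        · have hsub : U.filter (· < k + 3) ⊆ insert (k + 2) (U.filter (· < k + 1)) :=
            fun a ha => by
              obtain ⟨a1, a2⟩ := mem_filter.1 ha
              have ha2 := hU a a1
              by_cases e : a = k + 2
              · exact e ▸ mem_insert_self _ _
              · exact mem_insert_of_mem (mem_filter.2 ⟨a1, by omega⟩)
          exact (card_le_card hsub).trans ((card_insert_le _ _).trans (by omega))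
      · exact s2 c hc'
    · refine (card_le_card fun a ha => ?_).trans s4
      obtain ⟨a1, a2⟩ := mem_sdiff.1 ha
      have a3 : a ∉ U.filter (· < k + 3) ∪ un cs := a2
      rw [mem_union, not_or] at a3
      refine mem_sdiff.2 ⟨mem_filter.2 ⟨a1, ?_⟩, a3.2⟩
      by_contra e
      exact a3.1 (mem_filter.2 ⟨a1, by omega⟩)

end Cellsx

theorem cells_st : CellsSt := fun U M hM hU => Cellsx.main M hM _ U rfl hU

end Pool.Agent.Lib.MP_be93de_nt.Hb
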