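import Pool.Agent.Lib.MP_be93de_nt.Hb.Defs

namespace Pool.Agent.Lib.MP_be93de_nt.Hb

open Finset

namespace Combx

lemma av_sum {ι : Type} (L r : ℕ) (I : Finset ι) (d : ι → ℝ) (F : ι → ℕ → ℝ) :
    Av L r (fun u => ∑ i ∈ I, d i * F i u) = ∑ i ∈ I, d i * Av L r (F i) := by
  unfold Av
  rw [sum_comm, sum_div]
  refine sum_congr rfl fun i _ => ?_
  rw [← mul_sum, mul_div_assoc]

lemma wsum {ι : Type} (I : Finset ι) (a v : ι → ℝ) (z ε A : ℝ) (hε : 0 ≤ ε)
    (h : ∀ i ∈ I, a i ≠ 0 → |v i - z| ≤ ε) (hA : ∑ i ∈ I, |a i| ≤ A) :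
    |∑ i ∈ I, a i * v i - z * ∑ i ∈ I, a i| ≤ A * ε := by
  have e : ∑ i ∈ I, a i * v i - z * ∑ i ∈ I, a i = ∑ i ∈ I, a i * (v i - z) := by
    rw [mul_sum, ← sum_sub_distrib]
    exact sum_congr rfl fun i _ => by ring
  rw [e]
  calc _ ≤ ∑ i ∈ I, |a i * (v i - z)| := abs_sum_le_sum_abs _ _
    _ ≤ ∑ i ∈ I, |a i| * ε := by
        refine sum_le_sum fun i hi => ?_
        rw [abs_mul]
        by_cases h0 : a i = 0
        · simp [h0]
        · exact mul_le_mul_of_nonneg_left (h i hi h0) (abs_nonneg _)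
    _ ≤ A * ε := by
        rw [← sum_mul]
        exact mul_le_mul_of_nonneg_right hA hε

lemma mem_un {a : ℕ} : ∀ {cs : List (Finset ℕ)}, a ∈ un cs → ∃ c ∈ cs, a ∈ c
  | [], h => by simp [un] at h
  | c :: cs, h => by
    simp only [un, mem_union] at h
    rcases h with h | h
    · exact ⟨c, by simp, h⟩
    · obtain ⟨c', h1, h2⟩ := mem_un h
      exact ⟨c', by simp [h1], h2⟩

lemma G_mul (P : ℕ → Prop) (g : ℝ) (J0 J : Finset ℕ) (n0 n u : ℕ) (h0 : J0 ⊆ Icc 1 n0)
    (h1 : J ⊆ Icc 1 n) :
    G P g J0 u * G P g J (u + n0) = G P g (J0 ∪ J.image (fun j => n0 + j)) u := by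
  unfold G
  rw [prod_union, prod_image (fun a _ b _ h => by simpa using h)]
  · simp only [add_assoc]
  · rw [disjoint_left]
    intro a ha hb
    obtain ⟨j, hj, rfl⟩ := mem_image.1 hb
    have := mem_Icc.1 (h0 ha)
    have := mem_Icc.1 (h1 hj)
    omega

lemma neutral (c : Finset ℕ) (a b : Finset ℕ → ℝ) (F : ℕ → ℝ)
    (h : ∀ n, ∑ π ∈ powersetCard n c, a π = ∑ π ∈ powersetCard n c, b π) :
    ∑ π ∈ c.powerset, a π * F π.card = ∑ π ∈ c.powerset, b π * F π.card := by
  rw [sum_powerset, sum_powerset]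
  refine sum_congr rfl fun n _ => ?_
  have e : ∀ a : Finset ℕ → ℝ, ∑ π ∈ powersetCard n c, a π * F π.card =
      (∑ π ∈ powersetCard n c, a π) * F n := by
    intro a
    rw [sum_mul]
    exact sum_congr rfl fun π hπ => by rw [(mem_powersetCard.1 hπ).2]
  rw [e, e, h]

lemma gen (hF : FuncSt) (P : ℕ → Prop) (g ρ δ η : ℝ) (nm κ Δ D L r hi : ℕ)
    (p : Finset ℕ → ℕ → Finset ℕ → ℝ) (h0 : 0 ≤ ρ) (h1 : ρ ≤ 1) (hδ : 0 ≤ δ) (hη : 0 ≤ η)
    (hG : ∀ J : Finset ℕ, J.card ≤ κ → (∀ i ∈ J, ∀ j ∈ J, i ≤ j + Δ) →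
      |Av L r (G P g J) - 1| ≤ η) (hD : nm * (D + 1) ≤ Δ) :
    ∀ cs : List (Finset ℕ), Srt cs →
      (∀ c ∈ cs, c.Nonempty ∧ Prob P c (p c) ∧ Rep P g ρ δ nm c (p c)) →
      ∀ (K J0 : Finset ℕ) (n0 lo : ℕ), K ⊆ un cs → (∀ a ∈ K, a < hi ∧ hi ≤ a + D + 1) →
        (∀ a ∈ un cs, lo ≤ a) → J0 ⊆ Icc 1 n0 → J0.card + nm * K.card ≤ κ →
        (∀ j ∈ J0, n0 + nm * (hi - lo) ≤ j + Δ) →
        |Av L r (fun u => G P g J0 u * Ex p cs (u + n0) (fun B => if K ⊆ B then 1 else 0)) -
          ρ ^ K.card| ≤ 4 ^ K.card * (η + δ) := by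
  have base : ∀ cs : List (Finset ℕ), (∀ c ∈ cs, Prob P c (p c)) → ∀ (J0 : Finset ℕ) (n0 : ℕ),
      J0 ⊆ Icc 1 n0 → J0.card ≤ κ → (∀ j ∈ J0, n0 ≤ j + Δ) →
      |Av L r (fun u => G P g J0 u *
        Ex p cs (u + n0) (fun B => if (∅ : Finset ℕ) ⊆ B then 1 else 0)) -
          ρ ^ (∅ : Finset ℕ).card| ≤ 4 ^ (∅ : Finset ℕ).card * (η + δ) := by
    intro cs hp J0 n0 hJ hc hw
    have e := ((hF P p cs).2 hp).1
    simp only [empty_subset, if_true, e, mul_one, card_empty, pow_zero, one_mul]
    have := hG J0 hc (fun i hi j hj => by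
      have := mem_Icc.1 (hJ hi)
      have := hw j hj
      omega)
    exact this.trans (by linarith)
  intro cs
  induction cs with
  | nil =>
    intro _ _ K J0 n0 lo hK _ _ hJ hc hw
    have : K = ∅ := by simpa [un] using hK
    subst this
    exact base [] (by simp) J0 n0 hJ (by omega) (fun j hj => by have := hw j hj; omega)
  | cons c cs ih =>
    intro hs hc K J0 n0 lo hK hhi hlo hJ hκ hw
    rcases K.eq_empty_or_nonempty with rfl | ⟨a0, ha0⟩
    · exact base _ (fun c h => (hc c h).2.1) J0 n0 hJ (by omega)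
        (fun j hj => by have := hw j hj; omega)
    obtain ⟨hs1, hs2⟩ := List.pairwise_cons.1 hs
    obtain ⟨cne, -, β, α, hβ, hneu, hα⟩ := hc c (by simp)
    have hc' : ∀ c' ∈ cs, c'.Nonempty ∧ Prob P c' (p c') ∧ Rep P g ρ δ nm c' (p c') :=
      fun c' h => hc c' (by simp [h])
    have ih' := ih hs2 hc'
    have hlt : ∀ a ∈ c, ∀ b ∈ un cs, a < b := by
      intro a ha b hb
      obtain ⟨c', k1, k2⟩ := mem_un hb
      exact (hs1 c' k1 a ha b k2).1
    set lo' := c.max' cne + 1 with hlo'
    have hl1 : ∀ a ∈ un cs, lo' ≤ a := fun a ha => hlt _ (c.max'_mem cne) a ha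
    have hl2 : lo + 1 ≤ lo' := by
      have := hlo (c.max' cne) (by simp only [un, mem_union]; exact Or.inl (c.max'_mem cne))
      omega
    have hl3 : lo < hi := lt_of_le_of_lt (hlo a0 (hK ha0)) (hhi a0 ha0).1
    have hstep : nm + nm * (hi - lo') ≤ nm * (hi - lo) := by
      have : hi - lo' + 1 ≤ hi - lo := by omega
      calc _ = nm * (hi - lo' + 1) := by ring
        _ ≤ _ := Nat.mul_le_mul_left _ this
    have hsz : ∀ n, β n ≠ 0 → n ≤ nm := fun n h => by
      by_contra k
      exact h (hβ.trunc n (by omega))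
    have habs : ∀ I ⊆ c.powerset, ∑ π ∈ I, |β π.card| ≤ 1 := by
      intro I hI
      rw [← hβ.total]
      calc _ = ∑ π ∈ I, β π.card := sum_congr rfl fun π _ => abs_of_nonneg (hβ.nonneg _)
        _ ≤ _ := sum_le_sum_of_subset_of_nonneg hI fun π _ _ => hβ.nonneg _
    have hε : ∀ k : ℕ, (0 : ℝ) ≤ 4 ^ k * (η + δ) := fun k => by positivity
    by_cases hm : Disjoint K c
    · have hK' : K ⊆ un cs := by
        intro a ha
        have := hK ha
        simp only [un, mem_union] at this
        exact this.resolve_left (disjoint_left.1 hm ha)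
      have e : (fun u => G P g J0 u * Ex p (c :: cs) (u + n0) (fun B => if K ⊆ B then 1 else 0)) =
          fun u => ∑ π ∈ c.powerset, β π.card *
            (G P g J0 u * Ex p cs (u + (n0 + π.card)) (fun B => if K ⊆ B then 1 else 0)) := by
        funext u
        have e1 := neutral c (p c (u + n0)) (fun π => β π.card)
          (fun n => G P g J0 u * Ex p cs (u + (n0 + n)) (fun B => if K ⊆ B then 1 else 0))
          (hneu (u + n0))
        rw [← e1]
        simp only [Ex]
        rw [mul_sum]
        refine sum_congr rfl fun π hπ => ?_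
        have e2 : (fun B => if K ⊆ π ∪ B then (1 : ℝ) else 0) =
            fun B => if K ⊆ B then 1 else 0 := by
          funext B
          refine if_congr ⟨fun h a ha => ?_, fun h => h.trans subset_union_right⟩ rfl rfl
          exact (mem_union.1 (h ha)).resolve_left
            (fun k => disjoint_left.1 hm ha (mem_powerset.1 hπ k))
        rw [e2, add_assoc]
        ring
      rw [e, av_sum]
      have := wsum c.powerset (fun π => β π.card) (fun π => Av L r (fun u => G P g J0 u *
        Ex p cs (u + (n0 + π.card)) (fun B => if K ⊆ B then 1 else 0))) (ρ ^ K.card)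
        (4 ^ K.card * (η + δ)) 1 (hε _) (fun π _ hb => by
          have := hsz _ hb
          refine ih' K J0 (n0 + π.card) lo' hK' hhi hl1
            (hJ.trans (Icc_subset_Icc le_rfl (by omega))) hκ (fun j hj => ?_)
          have := hw j hj
          omega) (habs _ Subset.rfl)
      rw [hβ.total, mul_one, one_mul] at this
      exact this
    · obtain ⟨a1, ha1, ha2⟩ := not_disjoint_iff.1 hm
      have hK' : K \ c ⊆ un cs := by
        intro a ha
        have := hK (mem_sdiff.1 ha).1
        simp only [un, mem_union] at this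
        exact this.resolve_left (mem_sdiff.1 ha).2
      have hcard : (K \ c).card + (K ∩ c).card = K.card := card_sdiff_add_card_inter K c
      have hpos : 1 ≤ (K ∩ c).card := card_pos.2 ⟨a1, mem_inter.2 ⟨ha1, ha2⟩⟩
      have hnew : nm + nm * (hi - lo') ≤ Δ := by
        have k1 := (hhi a1 ha1).2
        have k2 := c.le_max' a1 ha2
        have : hi - lo' ≤ D := by omega
        calc _ ≤ nm + nm * D := Nat.add_le_add_left (Nat.mul_le_mul_left _ this) _
          _ = nm * (D + 1) := by ring
          _ ≤ _ := hD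
      have hκ' : J0.card + nm + nm * (K \ c).card ≤ κ := by
        have : nm * ((K \ c).card + 1) ≤ nm * K.card := Nat.mul_le_mul_left _ (by omega)
        rw [mul_add, mul_one] at this
        omega
      have e : (fun u => G P g J0 u * Ex p (c :: cs) (u + n0) (fun B => if K ⊆ B then 1 else 0)) =
          fun u => ∑ π ∈ c.powerset.filter (K ∩ c ⊆ ·), β π.card *
            (∑ J ∈ (Icc 1 π.card).powerset, α π J * (G P g (J0 ∪ J.image (fun j => n0 + j)) u *
              Ex p cs (u + (n0 + π.card)) (fun B => if K \ c ⊆ B then 1 else 0))) := by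
        funext u
        simp only [Ex]
        rw [mul_sum, sum_filter]
        refine sum_congr rfl fun π hπ => ?_
        have hπ' := mem_powerset.1 hπ
        split_ifs with hk
        · have e2 : (fun B => if K ⊆ π ∪ B then (1 : ℝ) else 0) =
              fun B => if K \ c ⊆ B then 1 else 0 := by
            funext B
            refine if_congr ⟨fun h a ha => ?_, fun h a ha => ?_⟩ rfl rfl
            · exact (mem_union.1 (h (mem_sdiff.1 ha).1)).resolve_left
                (fun k => (mem_sdiff.1 ha).2 (hπ' k))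
            · by_cases k : a ∈ c
              · exact mem_union_left _ (hk (mem_inter.2 ⟨ha, k⟩))
              · exact mem_union_right _ (h (mem_sdiff.2 ⟨ha, k⟩))
          rw [e2, (hα π hπ').2.2, add_assoc u, mul_sum, mul_sum, sum_mul, mul_sum]
          refine sum_congr rfl fun J hJ' => ?_
          rw [← G_mul P g J0 J n0 π.card u hJ (mem_powerset.1 hJ')]
          ring
        · obtain ⟨k1, k2, -⟩ := (hF P p cs).2 (fun c' h => (hc' c' h).2.1)
          have z : ∀ B ⊆ un cs, (if K ⊆ π ∪ B then (1 : ℝ) else 0) = 0 := by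
            intro B hB
            rw [if_neg]
            intro h
            apply hk
            intro a ha
            refine (mem_union.1 (h (mem_inter.1 ha).1)).resolve_right fun k => ?_
            exact lt_irrefl _ (hlt a (mem_inter.1 ha).2 a (hB k))
          have z1 := k2 (u + n0 + π.card) _ (fun _ => (0 : ℝ)) (fun B hB => (z B hB).le)
          have z2 := k2 (u + n0 + π.card) (fun _ => (0 : ℝ)) _ (fun B hB => (z B hB).ge)
          rw [k1] at z1 z2
          rw [le_antisymm z1 z2]
          ring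
      rw [e, av_sum]
      have w := wsum (c.powerset.filter (K ∩ c ⊆ ·)) (fun π => β π.card) (fun π => Av L r (fun u =>
        ∑ J ∈ (Icc 1 π.card).powerset, α π J * (G P g (J0 ∪ J.image (fun j => n0 + j)) u *
          Ex p cs (u + (n0 + π.card)) (fun B => if K \ c ⊆ B then 1 else 0))))
        (ρ ^ (K \ c).card) (3 * (4 ^ (K \ c).card * (η + δ))) 1 (by positivity)
        (fun π hπ hb => by
          have hn := hsz _ hb
          have hπ' := mem_powerset.1 (mem_filter.1 hπ).1
          obtain ⟨q1, q2, -⟩ := hα π hπ'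
          rw [av_sum]
          have := wsum (Icc 1 π.card).powerset (α π) (fun J => Av L r (fun u =>
            G P g (J0 ∪ J.image (fun j => n0 + j)) u *
              Ex p cs (u + (n0 + π.card)) (fun B => if K \ c ⊆ B then 1 else 0)))
            (ρ ^ (K \ c).card) (4 ^ (K \ c).card * (η + δ)) 3 (hε _) (fun J hJ' _ => by
              have hJ'' := mem_powerset.1 hJ'
              refine ih' (K \ c) _ (n0 + π.card) lo' hK' (fun a ha => hhi a (mem_sdiff.1 ha).1)
                hl1 ?_ ?_ ?_
              · intro j hj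
                rcases mem_union.1 hj with k | k
                · have := mem_Icc.1 (hJ k)
                  exact mem_Icc.2 (by omega)
                · obtain ⟨i, hi, rfl⟩ := mem_image.1 k
                  have := mem_Icc.1 (hJ'' hi)
                  exact mem_Icc.2 (by omega)
              · have k1 := card_union_le J0 (J.image (fun j => n0 + j))
                have k2 : (J.image (fun j => n0 + j)).card ≤ J.card := card_image_le
                have k3 := card_le_card hJ''
                rw [Nat.card_Icc] at k3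
                omega
              · intro j hj
                rcases mem_union.1 hj with k | k
                · have := hw j k
                  omega
                · obtain ⟨i, hi, rfl⟩ := mem_image.1 k
                  omega) q2
          rw [q1, mul_one] at this
          exact this) (habs _ (filter_subset _ _))
      have m := hβ.marg (K ∩ c) inter_subset_right
      have r1 : ρ ^ (K \ c).card ≤ 1 := pow_le_one₀ h0 h1
      have r0 : 0 ≤ ρ ^ (K \ c).card := pow_nonneg h0 _
      have m2 : |ρ ^ (K \ c).card * ∑ π ∈ c.powerset.filter (K ∩ c ⊆ ·), β π.card - ρ ^ K.card|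
          ≤ δ := by
        rw [← hcard, pow_add, ← mul_sub, abs_mul, abs_of_nonneg r0]
        calc _ ≤ 1 * δ := mul_le_mul r1 m (abs_nonneg _) zero_le_one
          _ = δ := one_mul _
      have f1 : (1 : ℝ) ≤ 4 ^ (K \ c).card := one_le_pow₀ (by norm_num)
      have f2 : (4 : ℝ) ^ ((K \ c).card + 1) ≤ 4 ^ K.card :=
        pow_le_pow_right₀ (by norm_num) (by omega)
      have f3 : δ ≤ 4 ^ (K \ c).card * (η + δ) := by nlinarith
      have f4 : (4 : ℝ) ^ ((K \ c).card + 1) * (η + δ) ≤ 4 ^ K.card * (η + δ) :=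
        mul_le_mul_of_nonneg_right f2 (by linarith)
      rw [pow_succ] at f4
      have t := abs_sub_le
        (∑ π ∈ c.powerset.filter (K ∩ c ⊆ ·), β π.card * Av L r (fun u =>
          ∑ J ∈ (Icc 1 π.card).powerset, α π J * (G P g (J0 ∪ J.image (fun j => n0 + j)) u *
            Ex p cs (u + (n0 + π.card)) (fun B => if K \ c ⊆ B then 1 else 0))))
        (ρ ^ (K \ c).card * ∑ π ∈ c.powerset.filter (K ∩ c ⊆ ·), β π.card) (ρ ^ K.card)
      linarith

end Combx

theorem comb_st (h : FuncSt) : CombSt := by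
  intro P g ρ δ η nm κ Δ D L r p cs K h0 h1 hδ _ hG hs hc hK hw hκ hD
  have hη : 0 ≤ η := (abs_nonneg _).trans (hG ∅ (by simp) (by simp))
  have := Combx.gen h P g ρ δ η nm κ Δ D L r (K.sup id + 1) p h0 h1 hδ hη hG hD cs hs hc K ∅ 0 0
    hK (fun a ha => by
      have k1 : a ≤ K.sup id := le_sup (f := id) ha
      have k2 : K.sup id ≤ a + D := Finset.sup_le fun b hb => hw b hb a ha
      omega) (by simp) (by simp) (by simpa using hκ) (by simp)
  simpa [G] using this

end Pool.Agent.Lib.MP_be93de_nt.Hb
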