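import Pool.Agent.Lib.MP_be93de_nt.Hb.Defs

namespace Pool.Agent.Lib.MP_be93de_nt.Hb

open Finset

namespace Crtx

/-- two coprime moduli -/
theorem two {q d : ℕ} (h : q.Coprime d) (hq : 0 < q) (hd : 0 < d) (A B : Finset ℕ)
    (hA : A ⊆ range q) (hB : B ⊆ range d) :
    ((range (q * d)).filter (fun r => r % q ∈ A ∧ r % d ∈ B)).card = A.card * B.card := by
  rw [← card_product]
  refine card_bij (fun r _ => (r % q, r % d)) (fun r hr => mem_product.2 (mem_filter.1 hr).2)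
    (fun r hr s hs e => ?_) fun z hz => ?_
  · obtain ⟨e1, e2⟩ := Prod.mk.inj e
    have h1 : r ≡ s [MOD q * d] := (Nat.modEq_and_modEq_iff_modEq_mul h).1 ⟨e1, e2⟩
    exact Nat.ModEq.eq_of_lt_of_lt h1 (mem_range.1 (mem_filter.1 hr).1)
      (mem_range.1 (mem_filter.1 hs).1)
  · obtain ⟨z1, z2⟩ := mem_product.1 hz
    have e1 : (Nat.chineseRemainder h z.1 z.2 : ℕ) % q = z.1 :=
      Eq.trans (Nat.chineseRemainder h z.1 z.2).2.1 (Nat.mod_eq_of_lt (mem_range.1 (hA z1)))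
    have e2 : (Nat.chineseRemainder h z.1 z.2 : ℕ) % d = z.2 :=
      Eq.trans (Nat.chineseRemainder h z.1 z.2).2.2 (Nat.mod_eq_of_lt (mem_range.1 (hB z2)))
    refine ⟨Nat.chineseRemainder h z.1 z.2, mem_filter.2 ⟨mem_range.2
      (Nat.chineseRemainder_lt_mul h z.1 z.2 hq.ne' hd.ne'), ?_, ?_⟩, Prod.ext e1 e2⟩
    · rw [e1]; exact z1
    · rw [e2]; exact z2

theorem mod_iff (D : Finset ℕ) (Ω : ℕ → Finset ℕ) (hd : 0 < ∏ p ∈ D, p) (r : ℕ) :
    r % (∏ p ∈ D, p) ∈ (range (∏ p ∈ D, p)).filter (fun m => ∀ p ∈ D, m % p ∈ Ω p) ↔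
      ∀ p ∈ D, r % p ∈ Ω p := by
  rw [mem_filter, mem_range]
  refine (and_iff_right (Nat.mod_lt _ hd)).trans (forall₂_congr fun p hp => ?_)
  rw [Nat.mod_mod_of_dvd _ (dvd_prod_of_mem (fun p => p) hp)]

/-- the number of admissible residues -/
theorem res (Ω : ℕ → Finset ℕ) (D : Finset ℕ) : (∀ p ∈ D, p.Prime) → (∀ p ∈ D, Ω p ⊆ range p) →
    ((range (∏ p ∈ D, p)).filter (fun m => ∀ p ∈ D, m % p ∈ Ω p)).card =
      ∏ p ∈ D, (Ω p).card := by
  induction D using Finset.induction_on with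
  | empty => intro _ _; simp
  | insert q D hq ih =>
    intro h1 h2
    have p1 : ∀ p ∈ D, p.Prime := fun p hp => h1 p (mem_insert_of_mem hp)
    have pq := h1 q (mem_insert_self q D)
    have hd : 0 < ∏ p ∈ D, p := prod_pos fun p hp => (p1 p hp).pos
    have hc : q.Coprime (∏ p ∈ D, p) := Nat.Coprime.prod_right fun p hp =>
      (Nat.coprime_primes pq (p1 p hp)).2 fun e => hq (e ▸ hp)
    rw [prod_insert hq, prod_insert hq, ← ih p1 fun p hp => h2 p (mem_insert_of_mem hp),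
      ← two hc pq.pos hd _ _ (h2 q (mem_insert_self q D)) (filter_subset _ _)]
    congr 1
    refine filter_congr fun r _ => ?_
    rw [mod_iff D Ω hd, forall_mem_insert]

/-- one class in an interval -/
theorem cls {d : ℕ} (hd : 0 < d) (a L v : ℕ) :
    |(((Ico a (a + L)).filter (fun m => m ≡ v [MOD d])).card : ℝ) - (L : ℝ) / d| ≤ 1 := by
  have h := Nat.Ico_filter_modEq_card a (a + L) hd v
  have d0 : (0 : ℚ) < d := by exact_mod_cast hd
  have e : (((a + L : ℕ) : ℚ) - v) / d = ((a : ℚ) - v) / d + (L : ℚ) / d := by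
    push_cast; ring
  rw [e] at h
  have l0 : (0 : ℚ) ≤ (L : ℚ) / d := by positivity
  generalize ((a : ℚ) - v) / d = x at h
  rw [max_eq_left (sub_nonneg.2 (Int.ceil_mono (by linarith)))] at h
  have h1 : ((((Ico a (a + L)).filter (fun m => m ≡ v [MOD d])).card : ℕ) : ℚ) =
      (⌈x + (L : ℚ) / d⌉ : ℚ) - (⌈x⌉ : ℚ) := by exact_mod_cast h
  have h2 : |((((Ico a (a + L)).filter (fun m => m ≡ v [MOD d])).card : ℕ) : ℚ) - (L : ℚ) / d|
      ≤ 1 := by
    rw [h1, abs_le]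
    constructor <;> linarith [Int.le_ceil x, Int.ceil_lt_add_one x, Int.le_ceil (x + (L : ℚ) / d),
      Int.ceil_lt_add_one (x + (L : ℚ) / d)]
  have h3 := (Rat.cast_le (K := ℝ)).2 h2
  push_cast at h3
  exact h3

end Crtx

open Crtx in
theorem crt_st : CrtSt := by
  intro D Ω a L h1 h2
  have hd : 0 < ∏ p ∈ D, p := prod_pos fun p hp => (h1 p hp).pos
  have hW := res Ω D h1 h2
  have hm := mod_iff D Ω hd
  have e1 : ∏ p ∈ D, ((Ω p).card : ℝ) / p =
      (∏ p ∈ D, ((Ω p).card : ℝ)) / ((∏ p ∈ D, p : ℕ) : ℝ) := by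
    rw [prod_div_distrib, Nat.cast_prod]
  have e2 : ∏ p ∈ D, ((Ω p).card : ℝ) =
      (((range (∏ p ∈ D, p)).filter (fun m => ∀ p ∈ D, m % p ∈ Ω p)).card : ℝ) := by
    rw [hW, Nat.cast_prod]
  have hs : (range (∏ p ∈ D, p)).filter (fun m => ∀ p ∈ D, m % p ∈ Ω p) ⊆ range (∏ p ∈ D, p) :=
    filter_subset _ _
  rw [e1, e2]
  generalize (range (∏ p ∈ D, p)).filter (fun m => ∀ p ∈ D, m % p ∈ Ω p) = W at hm hs ⊢
  generalize (∏ p ∈ D, p) = d at hd hm hs ⊢
  have e3 : ((Ico a (a + L)).filter (fun m => ∀ p ∈ D, m % p ∈ Ω p)).card =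
      ∑ v ∈ W, ((Ico a (a + L)).filter (fun m => m ≡ v [MOD d])).card := by
    rw [card_eq_sum_card_fiberwise (f := fun m => m % d) (t := W)
      fun m h => (hm m).2 (mem_filter.1 h).2]
    refine sum_congr rfl fun v hv => ?_
    rw [filter_filter]
    congr 1
    refine filter_congr fun m _ => ?_
    have hv' : v % d = v := Nat.mod_eq_of_lt (mem_range.1 (hs hv))
    rw [Nat.ModEq, hv', ← hm m]
    exact ⟨fun k => k.2, fun k => ⟨k ▸ hv, k⟩⟩
  have e4 : (L : ℝ) * ((W.card : ℝ) / d) = ∑ _v ∈ W, (L : ℝ) / d := by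
    rw [sum_const, nsmul_eq_mul]; ring
  rw [e3, e4, Nat.cast_sum, ← sum_sub_distrib]
  refine (abs_sum_le_sum_abs _ _).trans ((sum_le_sum fun v _ => cls hd a L v).trans ?_)
  simp

end Pool.Agent.Lib.MP_be93de_nt.Hb
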