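import Mathlib

/-! A model set with uniform tuple counts and twins only at sifted ranks: definitions and statements. -/

namespace Pool.Agent.Lib.MP_be93de_nt.Hb

open Finset Filter

noncomputable section

/-- primes in `(a,b]` -/
def pr (a b : ℕ) : Finset ℕ := (Ioc a b).filter Nat.Prime

/-- product of `1 - 1/p` over the primes in `(a,b]` -/
def th (a b : ℕ) : ℝ := ∏ p ∈ pr a b, (1 - 1 / (p : ℝ))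

/-- number of classes `m` mod `p` with `p ∣ q m + b` for some `b ∈ H` -/
def nu (q : ℕ) (H : Finset ℕ) (p : ℕ) : ℕ :=
  ((range p).filter (fun m => ∃ b ∈ H, p ∣ q * m + b)).card

/-- `S` is the singular series of the forms `q m + b`, `b ∈ H` -/
def IsS (q : ℕ) (H : Finset ℕ) (S : ℝ) : Prop :=
  Tendsto (fun N : ℕ => ∏ p ∈ (range N).filter Nat.Prime,
    (1 - (nu q H p : ℝ) / p) / (1 - 1 / (p : ℝ)) ^ H.card) atTop (nhds S)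

/-- `r` has no prime factor in `(a,b]` -/
def Free (a b r : ℕ) : Prop := ∀ p ∈ pr a b, ¬ p ∣ r

instance (a b : ℕ) : DecidablePred (Free a b) := Classical.decPred _

def X (s : ℕ) : ℕ := 2 ^ (s ^ 10)
def Y (s : ℕ) : ℕ := 2 ^ (s ^ 8)
def R (s : ℕ) : ℕ := 2 ^ (s ^ 7)
/-- allowed ranks of twins at level `s` -/
def SS (s : ℕ) : ℕ → Prop := Free (2 ^ (4 * s)) (2 ^ (4 * s ^ 2))
def sig (s : ℕ) : ℝ := th (2 ^ (4 * s)) (2 ^ (4 * s ^ 2))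
/-- candidates in the block starting at `T` -/
def EB (s T : ℕ) : Finset ℕ := (Ico T (T + Y s)).filter (Free 0 (2 ^ (2 * s)))
/-- start of block `j` at level `s` -/
def TT (s j : ℕ) : ℕ := X s + j * Y s
/-- number of blocks at level `s` -/
def nb (s : ℕ) : ℕ := (X (2 * s) - X s) / Y s

/-- the pairs `(q,H)` tested at level `s` -/
def tests (s : ℕ) : Finset (ℕ × Finset ℕ) :=
  (Icc 1 (2 ^ s)) ×ˢ ((range (2 ^ s + 1)).powerset.filter (fun H => 1 ≤ H.card ∧ H.card ≤ s))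

/-- number of `m < Z` with `q m + H ⊆ B` -/
def tup (q : ℕ) (H : Finset ℕ) (Z : ℕ) (B : Finset ℕ) : ℕ :=
  ((range Z).filter (fun m => ∀ b ∈ H, q * m + b ∈ B)).card

/-- number of `m` with `y < q m ≤ x`, `q m + H ⊆ A` -/
def cnt (A : Set ℕ) (q : ℕ) (H : Finset ℕ) (y x : ℝ) : ℕ :=
  {m : ℕ | y < (q * m : ℕ) ∧ ((q * m : ℕ) : ℝ) ≤ x ∧ ∀ b ∈ H, q * m + b ∈ A}.ncard

open Classical in
def ind (P : ℕ → Prop) (g : ℝ) (r : ℕ) : ℝ := if P r then g else 0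

lemma ind_pos {P : ℕ → Prop} {g : ℝ} {r : ℕ} (h : P r) : ind P g r = g := by simp [ind, h]
lemma ind_neg {P : ℕ → Prop} {g : ℝ} {r : ℕ} (h : ¬ P r) : ind P g r = 0 := by simp [ind, h]

def G (P : ℕ → Prop) (g : ℝ) (J : Finset ℕ) (r : ℕ) : ℝ := ∏ j ∈ J, ind P g (r + j)

/-- average of `F` over `r, …, r + L - 1` -/
def Av (L r : ℕ) (F : ℕ → ℝ) : ℝ := (∑ u ∈ range L, F (r + u)) / L

/-- every twin of `B` has an allowed rank, ranks being counted from `r` -/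
def Good (P : ℕ → Prop) (r : ℕ) (B : Finset ℕ) : Prop :=
  ∀ a ∈ B, a + 2 ∈ B → P (r + (B.filter (· ≤ a)).card)

/-- lower members of twins in `π` -/
def tw (π : Finset ℕ) : Finset ℕ := π.filter (fun a => a + 2 ∈ π)

/-- cells are increasing and no twin is split -/
def Srt (cs : List (Finset ℕ)) : Prop :=
  cs.Pairwise (fun c c' => ∀ a ∈ c, ∀ b ∈ c', a < b ∧ a + 2 ≠ b)

def un : List (Finset ℕ) → Finset ℕ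
  | [] => ∅
  | c :: cs => c ∪ un cs

/-- expectation of `f` when the cells are filled one after the other -/
def Ex (p : Finset ℕ → ℕ → Finset ℕ → ℝ) : List (Finset ℕ) → ℕ → (Finset ℕ → ℝ) → ℝ
  | [], _, f => f ∅
  | c :: cs, r, f => ∑ π ∈ c.powerset, p c r π * Ex p cs (r + π.card) (fun B => f (π ∪ B))

/-- a probability law on the patterns of the cell `c`, for every starting rank -/
structure Prob (P : ℕ → Prop) (c : Finset ℕ) (p : ℕ → Finset ℕ → ℝ) : Prop where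
  nonneg : ∀ r π, 0 ≤ p r π
  total : ∀ r, ∑ π ∈ c.powerset, p r π = 1
  good : ∀ r, ∀ π ⊆ c, p r π ≠ 0 → Good P r π

/-- base weights depending on the size only -/
structure Base (ρ δ : ℝ) (nm : ℕ) (c : Finset ℕ) (β : ℕ → ℝ) : Prop where
  nonneg : ∀ n, 0 ≤ β n
  total : ∑ π ∈ c.powerset, β π.card = 1
  trunc : ∀ n, nm < n → β n = 0
  marg : ∀ K ⊆ c, |∑ π ∈ c.powerset.filter (K ⊆ ·), β π.card - ρ ^ K.card| ≤ δ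

/-- the law is a rank neutral tilt of base weights -/
def Rep (P : ℕ → Prop) (g ρ δ : ℝ) (nm : ℕ) (c : Finset ℕ) (p : ℕ → Finset ℕ → ℝ) : Prop :=
  ∃ (β : ℕ → ℝ) (α : Finset ℕ → Finset ℕ → ℝ), Base ρ δ nm c β ∧
    (∀ r n, ∑ π ∈ powersetCard n c, p r π = ∑ π ∈ powersetCard n c, β π.card) ∧
    ∀ π ⊆ c, ∑ J ∈ (Icc 1 π.card).powerset, α π J = 1 ∧
      ∑ J ∈ (Icc 1 π.card).powerset, |α π J| ≤ 3 ∧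
      ∀ r, p r π = β π.card * ∑ J ∈ (Icc 1 π.card).powerset, α π J * G P g J r

structure SeqOK (s r : ℕ) (B : ℕ → Finset ℕ) : Prop where
  sub : ∀ j, B j ⊆ Ico (TT s j + 3) (TT s j + Y s)
  ne : ∀ j, (B j).Nonempty
  good : ∀ j, Good (SS s) (r + ∑ i ∈ range j, (B i).card) (B j)
  dev : ∀ τ ∈ tests s, ∀ S, IsS τ.1 τ.2 S → ∀ j1 j2 : ℕ, j1 ≤ j2 →
    |∑ j ∈ Ico j1 j2, ((tup τ.1 τ.2 (TT s j + Y s) (B j) : ℝ) -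
        Y s * (S / τ.1 * (1 / Real.log (TT s j) ^ τ.2.card)))| ≤
      3 * ((j2 : ℝ) - j1) * Y s / 2 ^ s + 4 * Y s * Real.sqrt (j2 * 2 ^ (3 * s ^ 2))

/-- `A` and `F` agree on the positions of level `s` -/
def Agree (s : ℕ) (A : Set ℕ) (F : Finset ℕ) : Prop :=
  ∀ a, X s ≤ a → a < X (2 * s) → (a ∈ A ↔ a ∈ F)

def HLs (s : ℕ) (A : Set ℕ) : Prop :=
  ∀ τ ∈ tests s, ∀ S, IsS τ.1 τ.2 S → ∀ y x : ℝ, (X s : ℝ) ≤ y → y ≤ x → x ≤ X (2 * s) →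
    |(cnt A τ.1 τ.2 y x : ℝ) - S / τ.1 * ∫ t in y..x, 1 / Real.log t ^ τ.2.card| ≤
      4 * (x - y) / 2 ^ s + x ^ (2 / 3 : ℝ)

structure StageOK (s r : ℕ) (F : Finset ℕ) : Prop where
  sub : F ⊆ Ico (X s + 3) (X (2 * s))
  good : Good (SS s) r F
  big : X s ≤ F.card
  hl : ∀ A : Set ℕ, Agree s A F → HLs s A

structure GlobOK (i0 : ℕ) (A : Set ℕ) : Prop where
  low : ∀ a ∈ A, X (2 ^ i0) ≤ a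
  st : ∀ i, i0 ≤ i → ∃ F, StageOK (2 ^ i) {a ∈ A | a < X (2 ^ i)}.ncard F ∧ Agree (2 ^ i) A F

/-- part (1) of the theorem -/
def Part1 (A : Set ℕ) (C : ℝ) : Prop :=
  ∀ (x y : ℝ) (q : ℕ) (H : Finset ℕ), 2 ≤ y → y ≤ x → 1 ≤ q →
    (q : ℝ) ≤ Real.exp (Real.log x ^ (1 / 20 : ℝ)) → H.Nonempty →
    (H.card : ℝ) ≤ Real.log x ^ (1 / 20 : ℝ) →
    (∀ b ∈ H, (b : ℝ) ≤ Real.exp (Real.log x ^ (1 / 20 : ℝ))) →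
    ∃ S : ℝ, IsS q H S ∧
      |(cnt A q H y x : ℝ) - S / q * ∫ t in y..x, 1 / Real.log t ^ H.card| ≤
        C * ((x - y) * Real.exp (-Real.log x ^ (1 / 20 : ℝ)) + x ^ (2 / 3 : ℝ))

/-- part (2) of the theorem -/
def Part2 (A : Set ℕ) (C : ℝ) : Prop :=
  ∀ N : ℕ, 2 ≤ N →
    ({n : ℕ | 1 ≤ n ∧ n ≤ N ∧ ∃ k : ℕ, 1 ≤ k ∧ (k : ℝ) ≤ Real.exp (Real.log n ^ 2) ∧
      Nat.nth (· ∈ A) (k * n - 1) + 2 ∈ A}.ncard : ℝ) ≤ C * N / Real.log N ^ (1 / 10 : ℝ)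

/-! ### Statements of the steps -/

def MertSt : Prop :=
  (∀ a b, 0 < th a b ∧ th a b ≤ 1) ∧
  (∀ a b : ℕ, ∑ p ∈ pr a b, 1 / (p : ℝ) ≤ Real.log (1 + Real.log b) + 38) ∧
  ∀ s : ℕ, 1 ≤ s → (th 0 (2 ^ (2 * s)))⁻¹ ≤ Real.exp 42 * s ∧ (sig s)⁻¹ ≤ Real.exp 42 * s ^ 2 ∧
    sig s ≤ Real.exp 42 / s

def AltSt : Prop :=
  ∀ (Q : Finset ℕ) (x : ℕ → ℝ) (t : ℕ), (∀ i ∈ Q, 0 ≤ x i) →
    ∑ D ∈ powersetCard t Q, ∏ i ∈ D, x i ≤ (∑ i ∈ Q, x i) ^ t / t.factorial ∧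
    ((∀ i ∈ Q, x i ≤ 1) →
      |∏ i ∈ Q, (1 - x i) - ∑ j ∈ range t, (-1) ^ j * ∑ D ∈ powersetCard j Q, ∏ i ∈ D, x i| ≤
        ∑ D ∈ powersetCard t Q, ∏ i ∈ D, x i)

def CrtSt : Prop :=
  ∀ (D : Finset ℕ) (Ω : ℕ → Finset ℕ) (a L : ℕ), (∀ p ∈ D, p.Prime) → (∀ p ∈ D, Ω p ⊆ range p) →
    |(((Ico a (a + L)).filter (fun m => ∀ p ∈ D, m % p ∈ Ω p)).card : ℝ) -
      L * ∏ p ∈ D, ((Ω p).card : ℝ) / p| ≤ ∏ p ∈ D, ((Ω p).card : ℝ)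

def BonfSt : Prop :=
  ∀ (Q : Finset ℕ) (Ω : ℕ → Finset ℕ) (a L t : ℕ), (∀ p ∈ Q, p.Prime) → (∀ p ∈ Q, Ω p ⊆ range p) →
    |(((Ico a (a + L)).filter (fun m => ∀ p ∈ Q, m % p ∉ Ω p)).card : ℝ) -
      L * ∏ p ∈ Q, (1 - ((Ω p).card : ℝ) / p)| ≤
      2 * L * (∑ p ∈ Q, ((Ω p).card : ℝ) / p) ^ t / t.factorial + (1 + ∑ p ∈ Q, ((Ω p).card : ℝ)) ^ t

def FacSt : Prop :=
  ∀ (Q : Finset ℕ) (k y : ℕ), 1 ≤ y → k ≤ y → (∀ p ∈ Q, y < p) →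
    1 - (k : ℝ) ^ 2 / y ≤ ∏ p ∈ Q, (1 - (k : ℝ) / p) / (1 - 1 / (p : ℝ)) ^ k ∧
    0 ≤ ∏ p ∈ Q, (1 - (k : ℝ) / p) / (1 - 1 / (p : ℝ)) ^ k ∧
    ∏ p ∈ Q, (1 - (k : ℝ) / p) / (1 - 1 / (p : ℝ)) ^ k ≤ 1

def SingSt : Prop :=
  ∀ s : ℕ, ∀ τ ∈ tests s, (∃ S, IsS τ.1 τ.2 S) ∧ ∀ S, IsS τ.1 τ.2 S → 0 ≤ S ∧
    S * th 0 (2 ^ (2 * s)) ^ τ.2.card ≤ ∏ p ∈ pr 0 (2 ^ (2 * s)), (1 - (nu τ.1 τ.2 p : ℝ) / p) ∧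
    (∏ p ∈ pr 0 (2 ^ (2 * s)), (1 - (nu τ.1 τ.2 p : ℝ) / p)) - (s : ℝ) ^ 2 / 2 ^ (2 * s) ≤
      S * th 0 (2 ^ (2 * s)) ^ τ.2.card ∧
    S * th 0 (2 ^ (2 * s)) ^ τ.2.card ≤ 1

def CellsSt : Prop :=
  ∀ (U : Finset ℕ) (M : ℕ), 1 ≤ M → (∀ a ∈ U, ¬ 2 ∣ a ∧ ¬ 3 ∣ a) →
    ∃ cs : List (Finset ℕ), Srt cs ∧ (∀ c ∈ cs, M ≤ c.card ∧ c.card ≤ M + 1) ∧ un cs ⊆ U ∧
      (U \ un cs).card ≤ M

def RareSt : Prop :=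
  ∀ (c : Finset ℕ) (g : ℝ) (n : ℕ), (∀ a ∈ c, ¬ 3 ∣ a) → 1 ≤ g → 3 * g * (n : ℝ) ^ 2 ≤ c.card →
    ∑ π ∈ (powersetCard n c).filter (fun π => (tw π).Nonempty), g ^ (tw π).card ≤
      (c.card.choose n : ℝ) / 2

def BaseSt : Prop :=
  ∀ (c : Finset ℕ) (ρ : ℝ) (nm : ℕ), 0 ≤ ρ → ρ ≤ 1 → c.card * ρ ≤ 1 / 4 →
    ∃ β, Base ρ ((1 / 4) ^ nm) nm c β

def TiltSt : Prop :=
  ∀ (P : ℕ → Prop) (c : Finset ℕ) (g ρ δ : ℝ) (nm : ℕ) (β : ℕ → ℝ), (∀ a ∈ c, ¬ 3 ∣ a) → 1 ≤ g →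
    3 * g * (nm : ℝ) ^ 2 ≤ c.card → Base ρ δ nm c β → ∃ p, Prob P c p ∧ Rep P g ρ δ nm c p

def FuncSt : Prop :=
  ∀ (P : ℕ → Prop) (p : Finset ℕ → ℕ → Finset ℕ → ℝ) (cs : List (Finset ℕ)),
    (∀ (r : ℕ) (ι : Type) (I : Finset ι) (d : ι → ℝ) (f : ι → Finset ℕ → ℝ),
      Ex p cs r (fun B => ∑ i ∈ I, d i * f i B) = ∑ i ∈ I, d i * Ex p cs r (f i)) ∧
    ((∀ c ∈ cs, Prob P c (p c)) →
      (∀ (r : ℕ) (a : ℝ), Ex p cs r (fun _ => a) = a) ∧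
      (∀ (r : ℕ) (f f' : Finset ℕ → ℝ), (∀ B ⊆ un cs, f B ≤ f' B) → Ex p cs r f ≤ Ex p cs r f') ∧
      (Srt cs → ∀ (r : ℕ) (f : Finset ℕ → ℝ), ∃ B ⊆ un cs, Good P r B ∧ f B ≤ Ex p cs r f))

def CombSt : Prop :=
  ∀ (P : ℕ → Prop) (g ρ δ η : ℝ) (nm κ Δ D L r : ℕ) (p : Finset ℕ → ℕ → Finset ℕ → ℝ)
    (cs : List (Finset ℕ)) (K : Finset ℕ), 0 ≤ ρ → ρ ≤ 1 → 0 ≤ δ → 1 ≤ L →
    (∀ J : Finset ℕ, J.card ≤ κ → (∀ i ∈ J, ∀ j ∈ J, i ≤ j + Δ) → |Av L r (G P g J) - 1| ≤ η) →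
    Srt cs → (∀ c ∈ cs, c.Nonempty ∧ Prob P c (p c) ∧ Rep P g ρ δ nm c (p c)) →
    K ⊆ un cs → (∀ a ∈ K, ∀ b ∈ K, a ≤ b + D) → nm * K.card ≤ κ → nm * (D + 1) ≤ Δ →
    |Av L r (fun u => Ex p cs u (fun B => if K ⊆ B then 1 else 0)) - ρ ^ K.card| ≤
      4 ^ K.card * (η + δ)

def AvgSt : Prop :=
  ∀ᶠ s : ℕ in atTop, ∀ (r : ℕ) (J : Finset ℕ), J.card ≤ 2 * s ^ 2 →
    (∀ i ∈ J, ∀ j ∈ J, i ≤ j + 2 ^ (4 * s)) →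
    |Av (R s) r (G (SS s) (sig s)⁻¹ J) - 1| ≤ 1 / (4 * 8 ^ s)

def BlockSt : Prop :=
  ∀ᶠ s : ℕ in atTop, ∀ (T r : ℕ) (ρ : ℝ) (d : ℕ × Finset ℕ → ℝ), 0 ≤ ρ → ρ ≤ 1 / (s : ℝ) ^ 8 →
    ∃ (B : Finset ℕ) (μ : ℕ × Finset ℕ → ℝ), B ⊆ Ico (T + 3) (T + Y s) ∧ B.Nonempty ∧
      Good (SS s) r B ∧ ∑ τ ∈ tests s, d τ * ((tup τ.1 τ.2 (T + Y s) B : ℝ) - μ τ) ≤ 0 ∧
      ∀ τ ∈ tests s, |μ τ - ρ ^ τ.2.card * tup τ.1 τ.2 (T + Y s) (EB s T)| ≤ Y s / 2 ^ s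

def EcountSt : Prop :=
  ∀ᶠ s : ℕ in atTop, ∀ T : ℕ, ∀ τ ∈ tests s,
    |(tup τ.1 τ.2 (T + Y s) (EB s T) : ℝ) -
      Y s / τ.1 * ∏ p ∈ pr 0 (2 ^ (2 * s)), (1 - (nu τ.1 τ.2 p : ℝ) / p)| ≤ Y s / 2 ^ s

def TermSt : Prop :=
  ∀ᶠ s : ℕ in atTop, ∀ T : ℕ, X s ≤ T →
    0 ≤ 1 / (th 0 (2 ^ (2 * s)) * Real.log T) ∧
    1 / (th 0 (2 ^ (2 * s)) * Real.log T) ≤ 1 / (s : ℝ) ^ 8 ∧
    ∀ τ ∈ tests s, ∀ S, IsS τ.1 τ.2 S → 0 ≤ S ∧ S ≤ Real.log (X s) ^ τ.2.card ∧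
      |(1 / (th 0 (2 ^ (2 * s)) * Real.log T)) ^ τ.2.card * tup τ.1 τ.2 (T + Y s) (EB s T) -
        Y s * (S / τ.1 * (1 / Real.log T ^ τ.2.card))| ≤ 2 * Y s / 2 ^ s

def SeqSt : Prop := ∀ᶠ s : ℕ in atTop, ∀ r : ℕ, ∃ B, SeqOK s r B

def UnionSt : Prop :=
  ∀ (s r : ℕ) (B : ℕ → Finset ℕ), 1 ≤ s → SeqOK s r B →
    TT s (nb s) = X (2 * s) ∧ (range (nb s)).biUnion B ⊆ Ico (X s + 3) (X (2 * s)) ∧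
    Good (SS s) r ((range (nb s)).biUnion B) ∧ X s ≤ ((range (nb s)).biUnion B).card

def InterSt : Prop :=
  ∀ᶠ s : ℕ in atTop, ∀ (r : ℕ) (B : ℕ → Finset ℕ) (A : Set ℕ), SeqOK s r B →
    TT s (nb s) = X (2 * s) → Agree s A ((range (nb s)).biUnion B) → HLs s A

def StageSt : Prop := ∀ᶠ s : ℕ in atTop, ∀ r : ℕ, ∃ F, StageOK s r F

def GlobSt : Prop := ∃ i0 A, GlobOK i0 A

def HlSt : Prop := ∀ i0 A, GlobOK i0 A → ∃ C, 0 ≤ C ∧ Part1 A C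

def FreeSt : Prop :=
  ∀ᶠ s : ℕ in atTop, ∀ N : ℕ,
    (((Icc 1 N).filter (fun n => Free (2 ^ (4 * s)) (2 ^ (4 * s ^ 2)) n)).card : ℝ) ≤
      Real.exp 43 * N / s + 2 ^ (5 * s ^ 3)

def RankSt : Prop :=
  ∀ i0 A, GlobOK i0 A → A.Infinite ∧ ∀ m : ℕ, 1 ≤ m → Nat.nth (· ∈ A) (m - 1) + 2 ∈ A →
    ∃ i, i0 ≤ i ∧ SS (2 ^ i) m ∧ m ≤ X (2 ^ (i + 1)) ∧ (i = i0 ∨ X (2 ^ (i - 1)) ≤ m)

def ExcSt : Prop := ∀ i0 A, GlobOK i0 A → ∃ C, 0 ≤ C ∧ Part2 A C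

end

end Pool.Agent.Lib.MP_be93de_nt.Hb
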