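import Pool.Agent.Lib.MP_be93de_nt.Hb.Defs

namespace Pool.Agent.Lib.MP_be93de_nt.Hb

open Finset Filter

namespace Ecountx

theorem nu_le_p (q : ℕ) (H : Finset ℕ) (p : ℕ) : nu q H p ≤ p :=
  (card_filter_le _ _).trans_eq (card_range p)

theorem nu_le_card (q : ℕ) (H : Finset ℕ) (p : ℕ) (hp : p.Prime) (hq : ¬ p ∣ q) :
    nu q H p ≤ H.card := by
  classical
  unfold nu
  have hsub : (range p).filter (fun m => ∃ b ∈ H, p ∣ q * m + b) ⊆
      H.biUnion (fun b => (range p).filter (fun m => p ∣ q * m + b)) := by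
    intro m hm
    simp only [mem_filter, mem_biUnion] at hm ⊢
    obtain ⟨h1, b, hb, h2⟩ := hm
    exact ⟨b, hb, h1, h2⟩
  refine (card_le_card hsub).trans (card_biUnion_le.trans ?_)
  have : ∀ b ∈ H, ((range p).filter (fun m => p ∣ q * m + b)).card ≤ 1 := by
    intro b _
    refine card_le_one.2 fun m hm m' hm' => ?_
    simp only [mem_filter, mem_range] at hm hm'
    have h1 : q * m + b ≡ q * m' + b [MOD p] :=
      ((Nat.modEq_zero_iff_dvd).2 hm.2).trans ((Nat.modEq_zero_iff_dvd).2 hm'.2).symm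
    have h2 : q * m ≡ q * m' [MOD p] := Nat.ModEq.add_right_cancel' b h1
    have h3 : m ≡ m' [MOD p] :=
      Nat.ModEq.cancel_left_of_coprime ((Nat.Prime.coprime_iff_not_dvd hp).2 hq) h2
    exact Nat.ModEq.eq_of_lt_of_lt h3 hm.1 hm'.1
  exact (sum_le_sum this).trans (by simp)

theorem divs_le (q s : ℕ) (hq : 1 ≤ q) (hs : q ≤ 2 ^ s) (Q : Finset ℕ) (hQ : ∀ p ∈ Q, p.Prime) :
    (Q.filter (· ∣ q)).card ≤ s := by
  have h1 : ∏ p ∈ Q.filter (· ∣ q), p ∣ q :=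
    Finset.prod_primes_dvd q (fun p hp => (hQ p (mem_filter.1 hp).1).prime)
      (fun p hp => (mem_filter.1 hp).2)
  have h2 : 2 ^ (Q.filter (· ∣ q)).card ≤ ∏ p ∈ Q.filter (· ∣ q), p :=
    Finset.pow_card_le_prod _ _ _ (fun p hp => (hQ p (mem_filter.1 hp).1).two_le)
  have h3 := (h2.trans (Nat.le_of_dvd hq h1)).trans hs
  exact (Nat.pow_le_pow_iff_right (by norm_num)).1 h3

theorem sum_nu (q s : ℕ) (H : Finset ℕ) (hq : 1 ≤ q) (hs : q ≤ 2 ^ s) (hH : H.card ≤ s)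
    (Q : Finset ℕ) (hQ : ∀ p ∈ Q, p.Prime) :
    ∑ p ∈ Q, (nu q H p : ℝ) / p ≤ s * ∑ p ∈ Q, 1 / (p : ℝ) + s := by
  have h1 : ∀ p ∈ Q, (nu q H p : ℝ) / p ≤ s * (1 / (p : ℝ)) + if p ∣ q then 1 else 0 := by
    intro p hp
    have hp0 : (0 : ℝ) < p := by exact_mod_cast (hQ p hp).pos
    split_ifs with h
    · have : (nu q H p : ℝ) / p ≤ 1 := (div_le_one hp0).2 (by exact_mod_cast nu_le_p q H p)
      have : (0 : ℝ) ≤ s * (1 / (p : ℝ)) := by positivity
      linarith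
    · have : (nu q H p : ℝ) ≤ s := by exact_mod_cast (nu_le_card q H p (hQ p hp) h).trans hH
      rw [add_zero, mul_one_div]
      gcongr
  refine (sum_le_sum h1).trans ?_
  rw [sum_add_distrib, ← mul_sum, sum_boole]
  have : ((Q.filter (· ∣ q)).card : ℝ) ≤ s := by exact_mod_cast divs_le q s hq hs Q hQ
  linarith

theorem log_le (s : ℕ) (hs : 100 ≤ s) :
    Real.log (1 + Real.log ((2 ^ (2 * s) : ℕ) : ℝ)) + 39 ≤ (s : ℝ) := by
  have h0 : (100 : ℝ) ≤ s := by exact_mod_cast hs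
  have h2 : Real.log 2 ≤ 1 := by
    have := Real.log_le_sub_one_of_pos (show (0 : ℝ) < 2 by norm_num)
    linarith
  have h2' : 0 ≤ Real.log 2 := Real.log_nonneg (by norm_num)
  have e : Real.log ((2 ^ (2 * s) : ℕ) : ℝ) = 2 * (s : ℝ) * Real.log 2 := by
    push_cast
    rw [Real.log_pow]
    push_cast
    ring
  rw [e]
  have h3 : 1 + 2 * (s : ℝ) * Real.log 2 ≤ 10 * ((s : ℝ) / 4) := by nlinarith
  have h4 : Real.log (1 + 2 * (s : ℝ) * Real.log 2) ≤ Real.log (10 * ((s : ℝ) / 4)) :=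
    Real.log_le_log (by positivity) h3
  rw [Real.log_mul (by norm_num) (by positivity)] at h4
  have h5 := Real.log_le_sub_one_of_pos (show (0 : ℝ) < 10 by norm_num)
  have h6 := Real.log_le_sub_one_of_pos (show (0 : ℝ) < (s : ℝ) / 4 by positivity)
  linarith

theorem tail_le (t : ℕ) {L : ℝ} (h0 : 0 ≤ L) (hL : L ≤ (t : ℝ) / 6) :
    L ^ t / t.factorial ≤ 1 / 2 ^ t := by
  have hs0 : (0 : ℝ) ≤ t := Nat.cast_nonneg t
  have hf : (0 : ℝ) < t.factorial := by exact_mod_cast t.factorial_pos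
  have h1 := Real.pow_div_factorial_le_exp (t : ℝ) hs0 t
  have h2 : Real.exp t ≤ 3 ^ t := by
    rw [← Real.exp_one_pow]
    exact pow_le_pow_left₀ (Real.exp_pos 1).le (Real.exp_one_lt_d9.le.trans (by norm_num)) t
  have h3 : L ^ t ≤ (t : ℝ) ^ t / 6 ^ t := by
    rw [← div_pow]; exact pow_le_pow_left₀ h0 hL t
  have h4 : (t : ℝ) ^ t ≤ 3 ^ t * t.factorial := (div_le_iff₀ hf).1 (h1.trans h2)
  have h6 : (6 : ℝ) ^ t = 2 ^ t * 3 ^ t := by rw [← mul_pow]; norm_num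
  have h7 : L ^ t * 2 ^ t ≤ t.factorial := by
    rw [le_div_iff₀ (by positivity), h6] at h3
    have h8 : (0 : ℝ) < 3 ^ t := by positivity
    refine le_of_mul_le_mul_right ?_ h8
    nlinarith
  rw [div_le_div_iff₀ hf (by positivity)]
  linarith

theorem cmp (q T Yy W : ℕ) (H : Finset ℕ) (hq : 1 ≤ q) (hne : H.Nonempty) (hW : ∀ b ∈ H, b ≤ W)
    (P : ℕ → Prop) [DecidablePred P] (P' : ℕ → Prop) [DecidablePred P']
    (hP : ∀ m, P' m ↔ ∀ b ∈ H, P (q * m + b)) :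
    |(tup q H (T + Yy) ((Ico T (T + Yy)).filter P) : ℝ) -
      ((Ico (T / q + 1) (T / q + 1 + Yy / q)).filter P').card| ≤ W + 2 := by
  obtain ⟨b0, hb0⟩ := hne
  have a1 := Nat.div_add_mod T q
  have a2 := Nat.mod_lt T hq
  have a3 := Nat.div_add_mod Yy q
  have a4 := Nat.mod_lt Yy hq
  set a := T / q with ha
  set L := Yy / q with hL
  have s1 : (range (T + Yy)).filter (fun m => ∀ b ∈ H, q * m + b ∈ (Ico T (T + Yy)).filter P) ⊆
      (Ico (a + 1) (a + 1 + L)).filter P' ∪ (Ico (a + 1 - (W + 1)) (a + 1) ∪ {a + 1 + L}) := by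
    intro m hm
    simp only [mem_filter, mem_range, mem_Ico, mem_union, mem_singleton] at hm ⊢
    have c0 := (hm.2 b0 hb0).1
    have c1 := hW b0 hb0
    have c2 : m < a + 1 + L + 1 := by
      by_contra hc
      have : q * (a + 1 + L + 1) ≤ q * m := Nat.mul_le_mul_left q (by omega)
      nlinarith
    have c3 : a ≤ m + W := by
      by_contra hc
      have f1 : q * (m + W + 1) ≤ q * a := Nat.mul_le_mul_left q (by omega)
      have f2 : W ≤ q * W := Nat.le_mul_of_pos_left W hq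
      rw [mul_add, mul_add, mul_one] at f1
      omega
    by_cases d1 : m < a + 1
    · exact Or.inr (Or.inl ⟨by omega, d1⟩)
    · by_cases d2 : m = a + 1 + L
      · exact Or.inr (Or.inr d2)
      · exact Or.inl ⟨⟨by omega, by omega⟩, (hP m).2 fun b hb => (hm.2 b hb).2⟩
  have s2 : (Ico (a + 1) (a + 1 + L)).filter P' ⊆
      (range (T + Yy)).filter (fun m => ∀ b ∈ H, q * m + b ∈ (Ico T (T + Yy)).filter P) ∪
        Ico (a + 1 + L - (W + 1)) (a + 1 + L) := by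
    intro m hm
    simp only [mem_filter, mem_range, mem_Ico, mem_union] at hm ⊢
    by_cases d1 : m + W < a + L
    · have e1 : q * (m + W + 1) ≤ q * (a + L) := Nat.mul_le_mul_left q (by omega)
      have e2 : q * (a + 1) ≤ q * m := Nat.mul_le_mul_left q hm.1.1
      have e3 : q * m + W < T + Yy := by
        have f2 : W ≤ q * W := Nat.le_mul_of_pos_left W hq
        rw [mul_add, mul_add, mul_add, mul_one] at e1
        omega
      have e4 : m ≤ q * m := Nat.le_mul_of_pos_left m hq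
      refine Or.inl ⟨by omega, fun b hb => ⟨⟨by nlinarith, ?_⟩, (hP m).1 hm.2 b hb⟩⟩
      have := hW b hb
      omega
    · exact Or.inr ⟨by omega, hm.1.2⟩
  have k1 := (card_le_card s1).trans ((card_union_le _ _).trans
    (Nat.add_le_add_left (card_union_le _ _) _))
  have k2 := (card_le_card s2).trans (card_union_le _ _)
  rw [Nat.card_Ico, card_singleton] at k1
  rw [Nat.card_Ico] at k2
  unfold tup
  set A := ((range (T + Yy)).filter
    (fun m => ∀ b ∈ H, q * m + b ∈ (Ico T (T + Yy)).filter P)).card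
  set B := ((Ico (a + 1) (a + 1 + L)).filter P').card
  have k3 : (A : ℝ) ≤ B + (W + 2) := by exact_mod_cast (by omega : A ≤ B + (W + 2))
  have k4 : (B : ℝ) ≤ A + (W + 2) := by exact_mod_cast (by omega : B ≤ A + (W + 2))
  rw [abs_le]
  constructor <;> linarith

end Ecountx

theorem ecount_st (h1 : MertSt) (h2 : BonfSt) : EcountSt := by
  filter_upwards [eventually_ge_atTop 100] with s hs T τ hτ
  obtain ⟨q, H⟩ := τ
  simp only [tests, mem_product, mem_Icc, mem_filter, mem_powerset] at hτ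
  obtain ⟨⟨hq, hq2⟩, hH, hk1, hk⟩ := hτ
  have hQ : ∀ p ∈ pr 0 (2 ^ (2 * s)), p.Prime := fun p hp => (mem_filter.1 hp).2
  have hB := h2 (pr 0 (2 ^ (2 * s))) (fun p => (range p).filter (fun m => ∃ b ∈ H, p ∣ q * m + b))
    (T / q + 1) (Y s / q) (s ^ 3) hQ (fun p _ => filter_subset _ _)
  have hC := Ecountx.cmp q T (Y s) (2 ^ s) H hq (card_pos.1 hk1)
    (fun b hb => by have := mem_range.1 (hH hb); omega) (Free 0 (2 ^ (2 * s)))
    (fun m => ∀ p ∈ pr 0 (2 ^ (2 * s)), m % p ∉ (range p).filter (fun m => ∃ b ∈ H, p ∣ q * m + b))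
    (by
      intro m
      have key : ∀ p b, p ∣ q * (m % p) + b ↔ p ∣ q * m + b := by
        intro p b
        have : q * (m % p) + b ≡ q * m + b [MOD p] :=
          ((Nat.mod_modEq m p).mul_left q).add_right b
        exact this.dvd_iff dvd_rfl
      constructor
      · intro h b hb p hp hd
        exact h p hp (mem_filter.2 ⟨mem_range.2 (Nat.mod_lt _ (hQ p hp).pos), b, hb,
          (key p b).2 hd⟩)
      · intro h p hp hm
        obtain ⟨b, hb, hd⟩ := (mem_filter.1 hm).2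
        exact h b hb p hp ((key p b).1 hd))
  change |_ - ((Y s / q : ℕ) : ℝ) * ∏ p ∈ pr 0 (2 ^ (2 * s)), (1 - (nu q H p : ℝ) / p)| ≤
    2 * ((Y s / q : ℕ) : ℝ) * (∑ p ∈ pr 0 (2 ^ (2 * s)), (nu q H p : ℝ) / p) ^ (s ^ 3) /
      (s ^ 3).factorial + (1 + ∑ p ∈ pr 0 (2 ^ (2 * s)), (nu q H p : ℝ)) ^ (s ^ 3) at hB
  change |(tup q H (T + Y s) (EB s T) : ℝ) - _| ≤ _ at hC
  change |(tup q H (T + Y s) (EB s T) : ℝ) -
    Y s / q * ∏ p ∈ pr 0 (2 ^ (2 * s)), (1 - (nu q H p : ℝ) / p)| ≤ Y s / 2 ^ s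
  have hs0 : (100 : ℝ) ≤ s := by exact_mod_cast hs
  have hq0 : (0 : ℝ) < q := by exact_mod_cast hq
  have hf : ∀ p ∈ pr 0 (2 ^ (2 * s)), 0 ≤ 1 - (nu q H p : ℝ) / p ∧ 1 - (nu q H p : ℝ) / p ≤ 1 := by
    intro p hp
    have hp0 : (0 : ℝ) < p := by exact_mod_cast (hQ p hp).pos
    have : (nu q H p : ℝ) / p ≤ 1 := (div_le_one hp0).2 (by exact_mod_cast Ecountx.nu_le_p q H p)
    have : 0 ≤ (nu q H p : ℝ) / p := by positivity
    constructor <;> linarith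
  have P0 := prod_nonneg (fun p hp => (hf p hp).1)
  have P1 := prod_le_one (fun p hp => (hf p hp).1) (fun p hp => (hf p hp).2)
  set P := ∏ p ∈ pr 0 (2 ^ (2 * s)), (1 - (nu q H p : ℝ) / p)
  have L1 : ((Y s / q : ℕ) : ℝ) ≤ (Y s : ℝ) / q := Nat.cast_div_le
  have L2 : (Y s : ℝ) / q ≤ ((Y s / q : ℕ) : ℝ) + 1 := by
    rw [div_le_iff₀ hq0]
    have a3 := Nat.div_add_mod (Y s) q
    have a4 := Nat.mod_lt (Y s) hq
    have : Y s ≤ (Y s / q + 1) * q := by nlinarith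
    exact_mod_cast this
  have L3 : ((Y s / q : ℕ) : ℝ) ≤ Y s := by exact_mod_cast Nat.div_le_self _ _
  have L0 : (0 : ℝ) ≤ ((Y s / q : ℕ) : ℝ) := Nat.cast_nonneg _
  have lam : ∑ p ∈ pr 0 (2 ^ (2 * s)), (nu q H p : ℝ) / p ≤ ((s ^ 3 : ℕ) : ℝ) / 6 := by
    have b1 := Ecountx.sum_nu q s H hq hq2 hk _ hQ
    have b2 := h1.2.1 0 (2 ^ (2 * s))
    have b3 := Ecountx.log_le s hs
    have b4 : (s : ℝ) * ∑ p ∈ pr 0 (2 ^ (2 * s)), 1 / (p : ℝ) ≤ s * (s - 1) :=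
      mul_le_mul_of_nonneg_left (by linarith) (by linarith)
    have b5 : (s : ℝ) * s * 6 ≤ s * s * s :=
      mul_le_mul_of_nonneg_left (by linarith) (by positivity)
    push_cast
    nlinarith
  have tl := Ecountx.tail_le (s ^ 3) (sum_nonneg fun p _ => by positivity) lam
  have p3 : s + 2 ≤ s ^ 3 := by nlinarith [Nat.mul_le_mul hs hs]
  have tl2 : (1 : ℝ) / 2 ^ (s ^ 3) ≤ 1 / 2 ^ (s + 2) :=
    one_div_le_one_div_of_le (by positivity) (pow_le_pow_right₀ (by norm_num) p3)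
  have sn : 1 + ∑ p ∈ pr 0 (2 ^ (2 * s)), nu q H p ≤ 2 ^ (5 * s) := by
    have c1 : ∑ p ∈ pr 0 (2 ^ (2 * s)), nu q H p ≤ (pr 0 (2 ^ (2 * s))).card • 2 ^ (2 * s) :=
      sum_le_card_nsmul _ _ _ fun p hp =>
        (Ecountx.nu_le_p q H p).trans (mem_Ioc.1 (mem_filter.1 hp).1).2
    have c2 : (pr 0 (2 ^ (2 * s))).card ≤ 2 ^ (2 * s) :=
      (card_filter_le _ _).trans_eq (by simp)
    have c3 : 2 ^ (5 * s) = 2 ^ s * (2 ^ (2 * s) * 2 ^ (2 * s)) := by ring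
    have c4 : 2 ≤ 2 ^ s := Nat.le_self_pow (by omega) 2
    have c5 : 1 ≤ 2 ^ (2 * s) * 2 ^ (2 * s) := Nat.one_le_iff_ne_zero.2 (by positivity)
    rw [smul_eq_mul] at c1
    have c6 := Nat.mul_le_mul_right (2 ^ (2 * s)) c2
    have c7 := Nat.mul_le_mul_right (2 ^ (2 * s) * 2 ^ (2 * s)) c4
    omega
  have big : (2 ^ s + 3 + (1 + ∑ p ∈ pr 0 (2 ^ (2 * s)), nu q H p) ^ (s ^ 3)) * 2 ^ (s + 1) ≤
      Y s := by
    have d1 : (1 + ∑ p ∈ pr 0 (2 ^ (2 * s)), nu q H p) ^ (s ^ 3) ≤ 2 ^ (5 * s ^ 4) := by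
      refine (Nat.pow_le_pow_left sn _).trans ?_
      rw [← pow_mul]
      exact Nat.pow_le_pow_right (by norm_num) (le_of_eq (by ring))
    have q4 : s + 2 ≤ s ^ 4 := p3.trans (Nat.pow_le_pow_right (by omega) (by norm_num))
    have d2 : 2 ^ s + 3 ≤ 2 ^ (5 * s ^ 4) := by
      have e1 : 2 ^ (s + 2) ≤ 2 ^ (5 * s ^ 4) := Nat.pow_le_pow_right (by norm_num) (by omega)
      have e2 : 1 ≤ 2 ^ s := Nat.one_le_two_pow
      rw [pow_add] at e1
      omega
    have d3 : 5 * s ^ 4 + 1 + (s + 1) ≤ s ^ 8 := by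
      have e1 : s ^ 8 = s ^ 4 * s ^ 4 := by ring
      have e2 := Nat.mul_le_mul_right (s ^ 4) (show 100 ≤ s ^ 4 by omega)
      omega
    calc _ ≤ 2 ^ (5 * s ^ 4 + 1) * 2 ^ (s + 1) := by
          refine Nat.mul_le_mul_right _ ?_
          rw [pow_succ 2 (5 * s ^ 4)]
          omega
      _ = 2 ^ (5 * s ^ 4 + 1 + (s + 1)) := by rw [← pow_add]
      _ ≤ Y s := Nat.pow_le_pow_right (by norm_num) d3
  have big' : (2 : ℝ) ^ s + 3 + (1 + ∑ p ∈ pr 0 (2 ^ (2 * s)), (nu q H p : ℝ)) ^ (s ^ 3) ≤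
      Y s / 2 ^ s / 2 := by
    rw [div_div, ← pow_succ, le_div_iff₀ (by positivity)]
    exact_mod_cast big
  have t3 : 2 * ((Y s / q : ℕ) : ℝ) * (∑ p ∈ pr 0 (2 ^ (2 * s)), (nu q H p : ℝ) / p) ^ (s ^ 3) /
      (s ^ 3).factorial ≤ Y s / 2 ^ s / 2 := by
    rw [mul_div_assoc]
    have g1 := mul_le_mul L3 (tl.trans tl2) (by positivity) (Nat.cast_nonneg _)
    have g2 : (Y s : ℝ) * (1 / 2 ^ (s + 2)) = Y s / 2 ^ s / 4 := by rw [pow_add]; field_simp; norm_num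
    linarith
  have u1 := mul_le_mul_of_nonneg_right L1 P0
  have u2 := mul_le_mul_of_nonneg_right L2 P0
  push_cast at hC
  rw [abs_le] at hB hC ⊢
  constructor <;> nlinarith [hB.1, hB.2, hC.1, hC.2]

end Pool.Agent.Lib.MP_be93de_nt.Hb
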