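import Pool.Agent.Lib.MP_be93de_nt.Hb.Defs

namespace Pool.Agent.Lib.MP_be93de_nt.Hb

open Finset

namespace Facx

theorem one_sub_sum_le (Q : Finset ℕ) (f a : ℕ → ℝ) (h0 : ∀ p ∈ Q, 0 ≤ f p)
    (h1 : ∀ p ∈ Q, f p ≤ 1) (ha : ∀ p ∈ Q, 1 - a p ≤ f p) :
    1 - ∑ p ∈ Q, a p ≤ ∏ p ∈ Q, f p := by
  classical
  induction Q using Finset.induction_on with
  | empty => simp
  | insert i s hi ih =>
    rw [sum_insert hi, prod_insert hi]
    have i1 := ih (fun p hp => h0 p (mem_insert_of_mem hp))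
      (fun p hp => h1 p (mem_insert_of_mem hp)) (fun p hp => ha p (mem_insert_of_mem hp))
    have i2 : ∏ p ∈ s, f p ≤ 1 :=
      prod_le_one (fun p hp => h0 p (mem_insert_of_mem hp)) fun p hp => h1 p (mem_insert_of_mem hp)
    have j1 := h1 i (mem_insert_self i s)
    have j2 := ha i (mem_insert_self i s)
    have j3 : 0 ≤ (1 - f i) * (1 - ∏ p ∈ s, f p) := mul_nonneg (by linarith) (by linarith)
    nlinarith

theorem factor (k : ℕ) (x : ℝ) (h0 : 0 ≤ x) (h1 : x < 1) (hk : (k : ℝ) * x ≤ 1) :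
    0 ≤ (1 - k * x) / (1 - x) ^ k ∧ (1 - k * x) / (1 - x) ^ k ≤ 1 ∧
      1 - (k : ℝ) ^ 2 * x ^ 2 ≤ (1 - k * x) / (1 - x) ^ k := by
  have d : 0 < (1 - x) ^ k := pow_pos (by linarith) k
  have b1 : 1 + (k : ℝ) * (-x) ≤ (1 + -x) ^ k := one_add_mul_le_pow (by linarith) k
  have b2 : 1 + (k : ℝ) * x ≤ (1 + x) ^ k := one_add_mul_le_pow (by linarith) k
  have b3 : (1 + x) ^ k * (1 - x) ^ k ≤ 1 := by
    rw [← mul_pow]
    exact pow_le_one₀ (mul_nonneg (by linarith) (by linarith)) (by nlinarith)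
  have b4 : (1 + (k : ℝ) * x) * (1 - x) ^ k ≤ 1 := (mul_le_mul_of_nonneg_right b2 d.le).trans b3
  refine ⟨div_nonneg (by linarith) d.le, (div_le_one d).2 ?_, (le_div_iff₀ d).2 ?_⟩
  · rw [← sub_eq_add_neg] at b1; linarith
  · have e : (1 - (k : ℝ) ^ 2 * x ^ 2) * (1 - x) ^ k =
        (1 - k * x) * ((1 + (k : ℝ) * x) * (1 - x) ^ k) := by ring
    rw [e]
    exact mul_le_of_le_one_right (by linarith) b4

theorem sum_sq (Q : Finset ℕ) (y : ℕ) (hy : 1 ≤ y) (hQ : ∀ p ∈ Q, y < p) :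
    ∑ p ∈ Q, (1 / (p : ℝ)) ^ 2 ≤ 1 / (y : ℝ) := by
  have h1 : Q ⊆ Ioc y (y + Q.sup id) := fun p hp =>
    mem_Ioc.2 ⟨hQ p hp, (le_sup (f := id) hp).trans (Nat.le_add_left _ _)⟩
  have h2 := sum_Ioc_inv_sq_le_sub (α := ℝ) (k := y) (n := y + Q.sup id) (by omega)
    (Nat.le_add_right _ _)
  have h3 : ∑ p ∈ Q, (1 / (p : ℝ)) ^ 2 ≤ ∑ i ∈ Ioc y (y + Q.sup id), ((i : ℝ) ^ 2)⁻¹ := by
    refine le_trans (le_of_eq (sum_congr rfl fun p _ => ?_))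
      (sum_le_sum_of_subset_of_nonneg h1 fun _ _ _ => by positivity)
    rw [one_div, inv_pow]
  have h4 : (0 : ℝ) ≤ (((y + Q.sup id : ℕ) : ℝ))⁻¹ := by positivity
  rw [one_div (y : ℝ)]
  linarith

end Facx

open Facx in
theorem fac_st : FacSt := by
  intro Q k y hy hk hQ
  have key : ∀ p ∈ Q, 0 ≤ (1 - (k : ℝ) / p) / (1 - 1 / (p : ℝ)) ^ k ∧
      (1 - (k : ℝ) / p) / (1 - 1 / (p : ℝ)) ^ k ≤ 1 ∧
      1 - (k : ℝ) ^ 2 * (1 / (p : ℝ)) ^ 2 ≤ (1 - (k : ℝ) / p) / (1 - 1 / (p : ℝ)) ^ k := by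
    intro p hp
    have a1 : (1 : ℝ) < p := by exact_mod_cast (show 1 < p by have := hQ p hp; omega)
    have a2 : (k : ℝ) ≤ p := by exact_mod_cast (show k ≤ p by have := hQ p hp; omega)
    have a3 : (0 : ℝ) < p := by linarith
    have := factor k (1 / (p : ℝ)) (by positivity) ((div_lt_one a3).2 a1)
      (by rw [mul_one_div]; exact (div_le_one a3).2 a2)
    rwa [mul_one_div] at this
  refine ⟨?_, prod_nonneg fun p hp => (key p hp).1,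
    prod_le_one (fun p hp => (key p hp).1) fun p hp => (key p hp).2.1⟩
  refine le_trans ?_ (one_sub_sum_le Q _ (fun p => (k : ℝ) ^ 2 * (1 / (p : ℝ)) ^ 2)
    (fun p hp => (key p hp).1) (fun p hp => (key p hp).2.1) fun p hp => (key p hp).2.2)
  rw [← mul_sum, div_eq_mul_one_div ((k : ℝ) ^ 2)]
  have := mul_le_mul_of_nonneg_left (sum_sq Q y hy hQ) (sq_nonneg (k : ℝ))
  linarith

end Pool.Agent.Lib.MP_be93de_nt.Hb
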