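import Pool.Agent.Lib.MP_be93de_nt.Hb.Defs

namespace Pool.Agent.Lib.MP_be93de_nt.Hb

open Finset Filter

namespace FreeCx

theorem log_le (s : ℕ) (hs : 10000 ≤ s) :
    Real.log (1 + Real.log ((2 ^ (4 * s ^ 2) : ℕ) : ℝ)) + 38 ≤ (s : ℝ) / 6 := by
  have h0 : (10000 : ℝ) ≤ s := by exact_mod_cast hs
  have h2 : Real.log 2 ≤ 1 := by
    have := Real.log_le_sub_one_of_pos (show (0 : ℝ) < 2 by norm_num)
    linarith
  have h2' : 0 ≤ Real.log 2 := Real.log_nonneg (by norm_num)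
  have e : Real.log ((2 ^ (4 * s ^ 2) : ℕ) : ℝ) = 4 * (s : ℝ) ^ 2 * Real.log 2 := by
    push_cast
    rw [Real.log_pow]
    push_cast
    ring
  rw [e]
  have h3 : 1 + 4 * (s : ℝ) ^ 2 * Real.log 2 ≤ (100 * ((s : ℝ) / 25)) ^ 2 := by nlinarith
  have h4 : Real.log (1 + 4 * (s : ℝ) ^ 2 * Real.log 2) ≤
      Real.log ((100 * ((s : ℝ) / 25)) ^ 2) := Real.log_le_log (by positivity) h3
  rw [Real.log_pow, Real.log_mul (by norm_num) (by positivity)] at h4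
  have h5 := Real.log_le_sub_one_of_pos (show (0 : ℝ) < 100 by norm_num)
  have h6 := Real.log_le_sub_one_of_pos (show (0 : ℝ) < (s : ℝ) / 25 by positivity)
  push_cast at h4
  linarith

theorem tail_le (s : ℕ) (hs : 1 ≤ s) {L : ℝ} (h0 : 0 ≤ L) (hL : L ≤ (s : ℝ) / 6) :
    2 * L ^ s / s.factorial ≤ 1 / (s : ℝ) := by
  have hs0 : (0 : ℝ) < s := by exact_mod_cast hs
  have hf : (0 : ℝ) < s.factorial := by exact_mod_cast s.factorial_pos
  have h1 := Real.pow_div_factorial_le_exp (s : ℝ) hs0.le s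
  have h2 : Real.exp s ≤ 3 ^ s := by
    rw [← Real.exp_one_pow]
    exact pow_le_pow_left₀ (Real.exp_pos 1).le (Real.exp_one_lt_d9.le.trans (by norm_num)) s
  have h3 : L ^ s ≤ (s : ℝ) ^ s / 6 ^ s := by
    rw [← div_pow]; exact pow_le_pow_left₀ h0 hL s
  have h4 : (s : ℝ) ^ s ≤ 3 ^ s * s.factorial := (div_le_iff₀ hf).1 (h1.trans h2)
  have h5 : 2 * (s : ℝ) ≤ 2 ^ s := by
    obtain ⟨k, rfl⟩ := Nat.exists_eq_add_of_le hs
    have : (k : ℝ) + 1 ≤ 2 ^ k := by exact_mod_cast Nat.lt_two_pow_self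
    push_cast
    rw [pow_add]
    linarith
  have h6 : (6 : ℝ) ^ s = 2 ^ s * 3 ^ s := by rw [← mul_pow]; norm_num
  have h7 : L ^ s * 2 ^ s ≤ s.factorial := by
    rw [le_div_iff₀ (by positivity), h6] at h3
    have h8 : (0 : ℝ) < 3 ^ s := by positivity
    refine le_of_mul_le_mul_right ?_ h8
    nlinarith
  rw [div_le_div_iff₀ hf hs0]
  have h9 := mul_le_mul_of_nonneg_left h5 (pow_nonneg h0 s)
  linarith

end FreeCx

theorem free_st (h1 : MertSt) (h2 : BonfSt) : FreeSt := by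
  filter_upwards [eventually_ge_atTop 10000] with s hs N
  have hs1 : 1 ≤ s := by omega
  have hs0 : (0 : ℝ) < s := by exact_mod_cast hs1
  have hB := h2 (pr (2 ^ (4 * s)) (2 ^ (4 * s ^ 2))) (fun _ => {0}) 1 N s
    (fun p hp => (mem_filter.1 hp).2)
    (fun p hp => singleton_subset_iff.2 (mem_range.2 (mem_filter.1 hp).2.pos))
  simp only [card_singleton, Nat.cast_one, sum_const, nsmul_eq_mul, mul_one] at hB
  have a1 : ∏ p ∈ pr (2 ^ (4 * s)) (2 ^ (4 * s ^ 2)), (1 - 1 / (p : ℝ)) ≤ Real.exp 42 / s :=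
    (h1.2.2 s hs1).2.2
  have a2 := FreeCx.tail_le s hs1 (sum_nonneg fun p _ => by positivity)
    ((h1.2.1 (2 ^ (4 * s)) (2 ^ (4 * s ^ 2))).trans (FreeCx.log_le s hs))
  have a3 : (1 + ((pr (2 ^ (4 * s)) (2 ^ (4 * s ^ 2))).card : ℝ)) ^ s ≤ 2 ^ (5 * s ^ 3) := by
    have c1 : (pr (2 ^ (4 * s)) (2 ^ (4 * s ^ 2))).card ≤ 2 ^ (4 * s ^ 2) - 2 ^ (4 * s) :=
      (card_filter_le _ _).trans_eq (Nat.card_Ioc _ _)
    have c2 : 0 < 2 ^ (4 * s) := by positivity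
    have c3 : 0 < 2 ^ (4 * s ^ 2) := by positivity
    have c4 : 1 + (pr (2 ^ (4 * s)) (2 ^ (4 * s ^ 2))).card ≤ 2 ^ (4 * s ^ 2) := by omega
    have c5 : (2 ^ (4 * s ^ 2)) ^ s ≤ 2 ^ (5 * s ^ 3) := by
      rw [← pow_mul]
      exact Nat.pow_le_pow_right (by norm_num) (by nlinarith [Nat.zero_le (s ^ 3)])
    exact_mod_cast (Nat.pow_le_pow_left c4 s).trans c5
  have a4 : Real.exp 42 + 1 ≤ Real.exp 43 := by
    have b1 : Real.exp 43 = Real.exp 42 * Real.exp 1 := by rw [← Real.exp_add]; norm_num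
    have b2 := Real.add_one_le_exp (1 : ℝ)
    have b3 := Real.add_one_le_exp (42 : ℝ)
    nlinarith
  have hN : (0 : ℝ) ≤ N := Nat.cast_nonneg N
  have a5 := mul_le_mul_of_nonneg_left a1 hN
  have a6 := mul_le_mul_of_nonneg_left a2 hN
  have a7 : (N : ℝ) * (Real.exp 42 / s) + N * (1 / s) ≤ Real.exp 43 * N / s := by
    rw [← mul_add, ← add_div, mul_comm (Real.exp 43), mul_div_assoc]
    gcongr
  have a8 := (abs_le.1 hB).2
  have a9 : 2 * (N : ℝ) * (∑ p ∈ pr (2 ^ (4 * s)) (2 ^ (4 * s ^ 2)), 1 / (p : ℝ)) ^ s /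
      s.factorial = N * (2 * (∑ p ∈ pr (2 ^ (4 * s)) (2 ^ (4 * s ^ 2)), 1 / (p : ℝ)) ^ s /
      s.factorial) := by ring
  refine le_trans (Nat.cast_le.2 (card_le_card fun m hm => ?_))
    ((sub_le_iff_le_add.1 a8).trans (by linarith))
  simp only [mem_filter, mem_Icc, mem_Ico, Free, mem_singleton, Nat.dvd_iff_mod_eq_zero] at hm ⊢
  exact ⟨⟨hm.1.1, by omega⟩, hm.2⟩

end Pool.Agent.Lib.MP_be93de_nt.Hb
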