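import Pool.Agent.Lib.MP_be93de_nt.Hb.Defs

/-! The expectation functional: linear, monotone, and a good outcome below the mean. -/

namespace Pool.Agent.Lib.MP_be93de_nt.Hb

open Finset

namespace Funcx

theorem mem_un {cs : List (Finset ℕ)} {b : ℕ} (h : b ∈ un cs) : ∃ c ∈ cs, b ∈ c := by
  induction cs with
  | nil => simp [un] at h
  | cons c cs ih =>
    rcases mem_union.1 h with h | h
    · exact ⟨c, List.mem_cons_self, h⟩
    · obtain ⟨c', h1, h2⟩ := ih h
      exact ⟨c', List.mem_cons_of_mem _ h1, h2⟩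

theorem lin (p : Finset ℕ → ℕ → Finset ℕ → ℝ) (cs : List (Finset ℕ)) :
    ∀ (r : ℕ) (ι : Type) (I : Finset ι) (d : ι → ℝ) (f : ι → Finset ℕ → ℝ),
      Ex p cs r (fun B => ∑ i ∈ I, d i * f i B) = ∑ i ∈ I, d i * Ex p cs r (f i) := by
  induction cs with
  | nil => intro r ι I d f; rfl
  | cons c cs ih =>
    intro r ι I d f
    simp only [Ex]
    rw [sum_congr rfl (fun π _ => by rw [ih (r + π.card) ι I d (fun i B => f i (π ∪ B)), mul_sum]),
      sum_comm]
    refine sum_congr rfl fun i _ => ?_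
    rw [mul_sum]
    exact sum_congr rfl fun π _ => by ring

variable {P : ℕ → Prop} {p : Finset ℕ → ℕ → Finset ℕ → ℝ}

theorem const (cs : List (Finset ℕ)) (h : ∀ c ∈ cs, Prob P c (p c)) :
    ∀ (r : ℕ) (a : ℝ), Ex p cs r (fun _ => a) = a := by
  induction cs with
  | nil => intro r a; rfl
  | cons c cs ih =>
    intro r a
    simp only [Ex]
    rw [sum_congr rfl (fun π _ => by
      rw [ih (fun c' hc' => h c' (List.mem_cons_of_mem _ hc')) (r + π.card) a]), ← sum_mul,
      (h c List.mem_cons_self).total r, one_mul]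

theorem mono (cs : List (Finset ℕ)) (h : ∀ c ∈ cs, Prob P c (p c)) :
    ∀ (r : ℕ) (f f' : Finset ℕ → ℝ), (∀ B ⊆ un cs, f B ≤ f' B) → Ex p cs r f ≤ Ex p cs r f' := by
  induction cs with
  | nil => intro r f f' hf; exact hf ∅ (empty_subset _)
  | cons c cs ih =>
    intro r f f' hf
    simp only [Ex]
    refine sum_le_sum fun π hπ => mul_le_mul_of_nonneg_left ?_ ((h c List.mem_cons_self).nonneg r π)
    exact ih (fun c' hc' => h c' (List.mem_cons_of_mem _ hc')) _ _ _ fun B hB =>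
      hf _ (union_subset_union (mem_powerset.1 hπ) hB)

theorem pick {ι : Type} (s : Finset ι) (w v : ι → ℝ) (h0 : ∀ i, 0 ≤ w i) (h1 : ∑ i ∈ s, w i = 1) :
    ∃ i ∈ s, w i ≠ 0 ∧ v i ≤ ∑ i ∈ s, w i * v i := by
  by_contra hne
  have hlt : ∀ i ∈ s, w i ≠ 0 → ∑ i ∈ s, w i * v i < v i := fun i hi hw => by
    by_contra h
    exact hne ⟨i, hi, hw, not_lt.1 h⟩
  obtain ⟨j, hj, hw⟩ : ∃ j ∈ s, w j ≠ 0 := exists_ne_zero_of_sum_ne_zero (by rw [h1]; norm_num)
  have h2 : ∑ i ∈ s, w i * (∑ i ∈ s, w i * v i) < ∑ i ∈ s, w i * v i := by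
    refine sum_lt_sum (fun i hi => ?_) ⟨j, hj, ?_⟩
    · by_cases hw' : w i = 0
      · simp [hw']
      · exact mul_le_mul_of_nonneg_left (hlt i hi hw').le (h0 i)
    · exact mul_lt_mul_of_pos_left (hlt j hj hw) (lt_of_le_of_ne (h0 j) (Ne.symm hw))
  rw [← sum_mul, h1, one_mul] at h2
  exact lt_irrefl _ h2

theorem good_union {r : ℕ} {π B : Finset ℕ} (hs : ∀ a ∈ π, ∀ b ∈ B, a < b ∧ a + 2 ≠ b)
    (h1 : Good P r π) (h2 : Good P (r + π.card) B) : Good P r (π ∪ B) := by
  intro a ha ha2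
  rcases mem_union.1 ha with ha | ha
  · have h3 : a + 2 ∈ π := by
      rcases mem_union.1 ha2 with h | h
      · exact h
      · exact absurd rfl (hs a ha _ h).2
    have h4 : (π ∪ B).filter (· ≤ a) = π.filter (· ≤ a) := by
      ext x
      simp only [mem_filter, mem_union]
      constructor
      · rintro ⟨hx | hx, hxa⟩
        · exact ⟨hx, hxa⟩
        · exact absurd (hs a ha x hx).1 (not_lt.2 hxa)
      · rintro ⟨hx, hxa⟩
        exact ⟨Or.inl hx, hxa⟩
    rw [h4]
    exact h1 a ha h3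
  · have h3 : a + 2 ∈ B := by
      rcases mem_union.1 ha2 with h | h
      · have := (hs _ h a ha).1
        omega
      · exact h
    have h4 : (π ∪ B).filter (· ≤ a) = π ∪ B.filter (· ≤ a) := by
      rw [filter_union, filter_true_of_mem fun x hx => (hs x hx a ha).1.le]
    have h5 : Disjoint π (B.filter (· ≤ a)) := disjoint_left.2 fun x hx hx' =>
      lt_irrefl _ (hs x hx x (mem_filter.1 hx').1).1
    rw [h4, card_union_of_disjoint h5, ← add_assoc]
    exact h2 a ha h3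

theorem select (cs : List (Finset ℕ)) (h : ∀ c ∈ cs, Prob P c (p c)) (hs : Srt cs) :
    ∀ (r : ℕ) (f : Finset ℕ → ℝ), ∃ B ⊆ un cs, Good P r B ∧ f B ≤ Ex p cs r f := by
  induction cs with
  | nil =>
    intro r f
    exact ⟨∅, empty_subset _, fun a ha => absurd ha (notMem_empty a), le_rfl⟩
  | cons c cs ih =>
    intro r f
    have hc := h c List.mem_cons_self
    obtain ⟨hs1, hs2⟩ := List.pairwise_cons.1 hs
    obtain ⟨π, hπ, hw, hv⟩ := pick c.powerset (p c r)
      (fun π => Ex p cs (r + π.card) (fun B => f (π ∪ B))) (hc.nonneg r) (hc.total r)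
    obtain ⟨B, hB, hg, hf⟩ := ih (fun c' hc' => h c' (List.mem_cons_of_mem _ hc')) hs2
      (r + π.card) (fun B => f (π ∪ B))
    have hπc := mem_powerset.1 hπ
    refine ⟨π ∪ B, union_subset_union hπc hB, good_union (fun a ha b hb => ?_)
      (hc.good r π hπc hw) hg, hf.trans hv⟩
    obtain ⟨c', h1, h2⟩ := mem_un (hB hb)
    exact hs1 c' h1 a (hπc ha) b h2

end Funcx

theorem func_st : FuncSt := fun _ p cs =>
  ⟨Funcx.lin p cs, fun h => ⟨Funcx.const cs h, Funcx.mono cs h, Funcx.select cs h⟩⟩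

end Pool.Agent.Lib.MP_be93de_nt.Hb
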