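import Pool.Agent.Lib.MP_be93de_nt.Hb.Defs

/-! Gluing the levels: part (1) of the theorem. -/

namespace Pool.Agent.Lib.MP_be93de_nt.Hb

open Finset Filter

namespace Hlx

/-- the error term -/
noncomputable def E (A : Set ℕ) (q : ℕ) (H : Finset ℕ) (S u v : ℝ) : ℝ :=
  (cnt A q H u v : ℝ) - S / q * ∫ t in u..v, 1 / Real.log t ^ H.card

lemma sub_Icc (A : Set ℕ) {q : ℕ} (H : Finset ℕ) (hq : 1 ≤ q) {u : ℝ} (v : ℝ) (hu : 0 ≤ u) :
    {m : ℕ | u < (q * m : ℕ) ∧ ((q * m : ℕ) : ℝ) ≤ v ∧ ∀ b ∈ H, q * m + b ∈ A} ⊆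
      ((Icc 1 ⌊v⌋₊ : Finset ℕ) : Set ℕ) := by
  rintro m ⟨h1, h2, -⟩
  rw [mem_coe, mem_Icc]
  constructor
  · rcases Nat.eq_zero_or_pos m with rfl | h
    · simp at h1; linarith
    · exact h
  · exact le_trans (Nat.le_mul_of_pos_left m hq) (Nat.le_floor h2)

lemma cnt_le (A : Set ℕ) {q : ℕ} (H : Finset ℕ) (hq : 1 ≤ q) {u v : ℝ} (hu : 0 ≤ u) (hv : 0 ≤ v) :
    (cnt A q H u v : ℝ) ≤ v := by
  have h := Set.ncard_le_ncard (sub_Icc A H hq v hu) (Finset.finite_toSet _)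
  rw [Set.ncard_coe_finset, Nat.card_Icc, Nat.add_sub_cancel] at h
  exact le_trans (Nat.cast_le.2 h) (Nat.floor_le hv)

lemma cnt_add (A : Set ℕ) {q : ℕ} (H : Finset ℕ) (hq : 1 ≤ q) {u v w : ℝ} (hu : 0 ≤ u)
    (huv : u ≤ v) (hvw : v ≤ w) : cnt A q H u w = cnt A q H u v + cnt A q H v w := by
  unfold cnt
  rw [← Set.ncard_union_eq _ ((Finset.finite_toSet _).subset (sub_Icc A H hq v hu))
    ((Finset.finite_toSet _).subset (sub_Icc A H hq w (hu.trans huv)))]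
  · congr 1
    ext m
    simp only [Set.mem_setOf_eq, Set.mem_union]
    constructor
    · rintro ⟨h1, h2, h3⟩
      rcases le_or_gt ((q * m : ℕ) : ℝ) v with h | h
      · exact Or.inl ⟨h1, h, h3⟩
      · exact Or.inr ⟨h, h2, h3⟩
    · rintro (⟨h1, h2, h3⟩ | ⟨h1, h2, h3⟩)
      · exact ⟨h1, h2.trans hvw, h3⟩
      · exact ⟨huv.trans_lt h1, h2, h3⟩
  · rw [Set.disjoint_left]
    rintro m ⟨-, h2, -⟩ ⟨h1, -, -⟩
    exact absurd h2 (not_le.2 h1)

lemma half_lt_log {t : ℝ} (ht : 2 ≤ t) : 1 / 2 ≤ Real.log t := by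
  have h1 := Real.log_two_gt_d9
  have h2 := Real.log_le_log (by norm_num) ht
  linarith

lemma integ (k : ℕ) {u v : ℝ} (hu : 2 ≤ u) (huv : u ≤ v) :
    IntervalIntegrable (fun t : ℝ => 1 / Real.log t ^ k) MeasureTheory.volume u v := by
  apply ContinuousOn.intervalIntegrable
  rw [Set.uIcc_of_le huv]
  refine ContinuousOn.div continuousOn_const (ContinuousOn.pow ?_ k) ?_
  · refine Real.continuousOn_log.mono fun t ht => ?_
    have : 2 ≤ t := hu.trans ht.1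
    simp only [Set.mem_compl_iff, Set.mem_singleton_iff]
    linarith
  · intro t ht
    have := half_lt_log (hu.trans ht.1)
    exact pow_ne_zero _ (by linarith)

lemma E_add (A : Set ℕ) {q : ℕ} (H : Finset ℕ) (S : ℝ) (hq : 1 ≤ q) {u v w : ℝ} (hu : 2 ≤ u)
    (huv : u ≤ v) (hvw : v ≤ w) : E A q H S u w = E A q H S u v + E A q H S v w := by
  unfold E
  rw [cnt_add A H hq (by linarith) huv hvw, ← intervalIntegral.integral_add_adjacent_intervals
    (integ H.card hu huv) (integ H.card (hu.trans huv) hvw)]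
  push_cast
  ring

lemma E_self (A : Set ℕ) (q : ℕ) (H : Finset ℕ) (S u : ℝ) : E A q H S u u = 0 := by
  unfold E cnt
  have : {m : ℕ | u < (q * m : ℕ) ∧ ((q * m : ℕ) : ℝ) ≤ u ∧ ∀ b ∈ H, q * m + b ∈ A} = ∅ := by
    ext m
    simp only [Set.mem_setOf_eq, Set.mem_empty_iff_false, iff_false]
    rintro ⟨h1, h2, -⟩
    exact absurd h2 (not_le.2 h1)
  rw [this]
  simp

lemma E_crude (A : Set ℕ) {q : ℕ} (H : Finset ℕ) {S M : ℝ} (hq : 1 ≤ q) (h0 : 0 ≤ S)
    (hM : 1 ≤ M) (hS : S * 2 ^ H.card ≤ M) {u v : ℝ} (hu : 2 ≤ u) (huv : u ≤ v) :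
    |E A q H S u v| ≤ v * M := by
  unfold E
  have hv : 0 ≤ v := by linarith
  have h1 := cnt_le A H hq (u := u) (by linarith) hv
  have h2 : (0 : ℝ) ≤ cnt A q H u v := Nat.cast_nonneg _
  have h3 : 0 ≤ ∫ t in u..v, 1 / Real.log t ^ H.card := by
    apply intervalIntegral.integral_nonneg huv
    intro t ht
    have := half_lt_log (hu.trans ht.1)
    positivity
  have h4 : ∫ t in u..v, 1 / Real.log t ^ H.card ≤ 2 ^ H.card * v := by
    have h := intervalIntegral.norm_integral_le_of_norm_le_const (a := u) (b := v)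
      (f := fun t : ℝ => 1 / Real.log t ^ H.card) (C := 2 ^ H.card) (by
        intro t ht
        rw [Set.uIoc_of_le huv] at ht
        have h5 := half_lt_log (hu.trans ht.1.le)
        rw [Real.norm_eq_abs, abs_of_nonneg (by positivity), ← one_div_pow]
        refine pow_le_pow_left₀ (by positivity) ?_ _
        rw [div_le_iff₀ (by linarith)]
        linarith)
    rw [Real.norm_eq_abs, abs_of_nonneg h3, abs_of_nonneg (by linarith)] at h
    exact h.trans (mul_le_mul_of_nonneg_left (by linarith) (by positivity))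
  have hq' : (1 : ℝ) ≤ q := by exact_mod_cast hq
  have h5 : S / q ≤ S := div_le_self h0 hq'
  have h6 : 0 ≤ S / q := by positivity
  have h7 : S / q * ∫ t in u..v, 1 / Real.log t ^ H.card ≤ v * M :=
    calc _ ≤ S * (2 ^ H.card * v) := mul_le_mul h5 h4 h3 h0
      _ = v * (S * 2 ^ H.card) := by ring
      _ ≤ v * M := mul_le_mul_of_nonneg_left hS hv
  have h8 : v ≤ v * M := le_mul_of_one_le_right hv hM
  have h9 := mul_nonneg h6 h3
  rw [abs_le]
  constructor <;> linarith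

lemma mem_tests {s q : ℕ} {H : Finset ℕ} {L : ℝ} (hL : L ≤ s * Real.log 2) (hq : 1 ≤ q)
    (h1 : (q : ℝ) ≤ Real.exp L) (h2 : H.Nonempty) (h3 : (H.card : ℝ) ≤ L)
    (h4 : ∀ b ∈ H, (b : ℝ) ≤ Real.exp L) : (q, H) ∈ tests s := by
  have he : Real.exp L ≤ ((2 ^ s : ℕ) : ℝ) := by
    refine (Real.exp_le_exp.2 hL).trans (le_of_eq ?_)
    rw [Real.exp_nat_mul, Real.exp_log (by norm_num)]
    push_cast
    rfl
  have hl := Real.log_two_lt_d9
  have hs : (0 : ℝ) ≤ s := Nat.cast_nonneg _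
  unfold tests
  rw [mem_product, mem_Icc, mem_filter, mem_powerset]
  refine ⟨⟨hq, by exact_mod_cast h1.trans he⟩, fun b hb => ?_, h2.card_pos, ?_⟩
  · rw [mem_range, Nat.lt_succ_iff]
    exact_mod_cast (h4 b hb).trans he
  · have : (H.card : ℝ) ≤ s := by nlinarith
    exact_mod_cast this

lemma L_le {s : ℕ} (hs : 2147483648 ≤ s) {x : ℝ} (hx : 2 ≤ x) (h : x ≤ X (4 * s)) (n : ℕ)
    (hn : 11 ≤ n) : Real.log x ^ (1 / n : ℝ) ≤ s * Real.log 2 := by
  have hl := Real.log_two_lt_d9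
  have hg := Real.log_two_gt_d9
  have hs' : (2147483648 : ℝ) ≤ s := by exact_mod_cast hs
  have h1 : Real.log x ≤ (4 * (s : ℝ)) ^ 10 := by
    refine (Real.log_le_log (by linarith) h).trans ?_
    unfold X
    push_cast
    rw [Real.log_pow]
    push_cast
    exact mul_le_of_le_one_right (by positivity) (by linarith)
  have h2 : (4 * (s : ℝ)) ^ 10 ≤ (s / 2 : ℝ) ^ n := by
    refine le_trans ?_ (pow_le_pow_right₀ (by linarith) hn)
    have k : (0 : ℝ) ≤ (s : ℝ) ^ 10 := by positivity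
    have := mul_le_mul_of_nonneg_left hs' k
    calc (4 * (s : ℝ)) ^ 10 = (s : ℝ) ^ 10 * 2147483648 / 2 ^ 11 := by ring
      _ ≤ (s : ℝ) ^ 10 * s / 2 ^ 11 := by gcongr
      _ = _ := by ring
  have h3 : Real.log x ^ (1 / n : ℝ) ≤ ((s / 2 : ℝ) ^ n) ^ (1 / n : ℝ) :=
    Real.rpow_le_rpow (Real.log_nonneg (by linarith)) (h1.trans h2) (by positivity)
  have h4 : ((s / 2 : ℝ) ^ n) ^ (1 / n : ℝ) = s / 2 := by
    rw [one_div]
    exact Real.pow_rpow_inv_natCast (x := (s / 2 : ℝ)) (n := n) (by positivity) (by omega)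
  rw [h4] at h3
  nlinarith

lemma S_le (h1 : MertSt) (h2 : SingSt) {s q : ℕ} {H : Finset ℕ} (hs : 1 ≤ s)
    (ht : (q, H) ∈ tests s) {S : ℝ} (hS : IsS q H S) :
    0 ≤ S ∧ S * 2 ^ H.card ≤ (2 * Real.exp 42 * s) ^ s := by
  obtain ⟨h0, -, -, h3⟩ := (h2 s _ ht).2 S hS
  refine ⟨h0, ?_⟩
  have hk : H.card ≤ s := (mem_filter.1 (mem_product.1 ht).2).2.2
  have hp := (h1.1 0 (2 ^ (2 * s))).1
  have h4 := (h1.2.2 s hs).1
  have hs' : (1 : ℝ) ≤ s := by exact_mod_cast hs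
  have he : (1 : ℝ) ≤ Real.exp 42 := Real.one_le_exp (by norm_num)
  have h5 : S ≤ (th 0 (2 ^ (2 * s)))⁻¹ ^ H.card := by
    rw [inv_pow, ← one_div, le_div_iff₀ (pow_pos hp _)]
    exact h3
  have h6 : S ≤ (Real.exp 42 * s) ^ H.card :=
    h5.trans (pow_le_pow_left₀ (inv_nonneg.2 hp.le) h4 _)
  calc S * 2 ^ H.card ≤ (Real.exp 42 * s) ^ H.card * 2 ^ H.card :=
        mul_le_mul_of_nonneg_right h6 (by positivity)
    _ = (2 * Real.exp 42 * s) ^ H.card := by rw [← mul_pow]; congr 1; ring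
    _ ≤ (2 * Real.exp 42 * s) ^ s := pow_le_pow_right₀ (by nlinarith) hk

lemma one_le_M {s : ℕ} (hs : 1 ≤ s) : (1 : ℝ) ≤ (2 * Real.exp 42 * s) ^ s := by
  have hs' : (1 : ℝ) ≤ s := by exact_mod_cast hs
  have he : (1 : ℝ) ≤ Real.exp 42 := Real.one_le_exp (by norm_num)
  exact one_le_pow₀ (by nlinarith)

lemma small {s : ℕ} (hs : 1 ≤ s) {x : ℝ} (hx : (X (2 * s) : ℝ) ≤ x) :
    (X s : ℝ) * (2 * Real.exp 42 * s) ^ s ≤ x ^ (2 / 3 : ℝ) := by
  have he : Real.exp 42 ≤ 2 ^ 84 := by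
    have h1 : Real.exp 1 ≤ 2 ^ 2 := by have := Real.exp_one_lt_d9; linarith
    calc Real.exp 42 = Real.exp 1 ^ 42 := by rw [← Real.exp_nat_mul]; norm_num
      _ ≤ (2 ^ 2) ^ 42 := pow_le_pow_left₀ (Real.exp_pos _).le h1 _
      _ = 2 ^ 84 := by rw [← pow_mul]
  have h2 : (s : ℝ) ≤ 2 ^ s := by exact_mod_cast (Nat.lt_two_pow_self (n := s)).le
  have h3 : 2 * Real.exp 42 * s ≤ 2 ^ (85 + s) := by
    calc 2 * Real.exp 42 * s ≤ 2 * 2 ^ 84 * 2 ^ s := by gcongr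
      _ = 2 ^ (85 + s) := by rw [pow_add]; norm_num
  have h4 : (X s : ℝ) * (2 * Real.exp 42 * s) ^ s ≤ 2 ^ (s ^ 10 + (85 + s) * s) := by
    rw [pow_add, pow_mul]
    unfold X
    push_cast
    gcongr
  have h5 : (s ^ 10 + (85 + s) * s) * 2 ≤ (2 * s) ^ 10 := by
    have a1 : s ≤ s ^ 10 := Nat.le_self_pow (by norm_num) s
    have a2 : s ^ 2 ≤ s ^ 10 := Nat.pow_le_pow_right hs (by norm_num)
    rw [mul_pow]
    nlinarith
  have h6 : ((2 : ℝ) ^ (s ^ 10 + (85 + s) * s)) ^ 2 ≤ x := by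
    refine le_trans ?_ hx
    rw [← pow_mul]
    unfold X
    push_cast
    exact pow_le_pow_right₀ (by norm_num) h5
  have h7 : (1 : ℝ) ≤ x := le_trans (one_le_pow₀ (one_le_pow₀ (by norm_num))) h6
  refine h4.trans ((Real.le_sqrt' (by positivity)).2 h6 |>.trans ?_)
  rw [Real.sqrt_eq_rpow]
  exact Real.rpow_le_rpow_of_exponent_le h7 (by norm_num)

lemma X_mono {a b : ℕ} (h : a ≤ b) : X a ≤ X b :=
  Nat.pow_le_pow_right (by norm_num) (Nat.pow_le_pow_left h _)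

lemma level (j0 : ℕ) {x : ℝ} (hx : (X (2 * 2 ^ j0) : ℝ) ≤ x) :
    ∃ j, j0 ≤ j ∧ (X (2 * 2 ^ j) : ℝ) ≤ x ∧ x ≤ X (4 * 2 ^ j) := by
  classical
  have hex : ∃ n : ℕ, x ≤ X (4 * 2 ^ (j0 + n)) := by
    refine ⟨⌈x⌉₊, (Nat.le_ceil x).trans (Nat.cast_le.2 ?_)⟩
    have a1 : ⌈x⌉₊ ≤ 2 ^ (j0 + ⌈x⌉₊) :=
      (Nat.le_add_left _ _).trans (Nat.lt_two_pow_self).le
    have a2 : 4 * 2 ^ (j0 + ⌈x⌉₊) ≤ (4 * 2 ^ (j0 + ⌈x⌉₊)) ^ 10 := Nat.le_self_pow (by norm_num) _
    have a3 : (4 * 2 ^ (j0 + ⌈x⌉₊)) ^ 10 ≤ X (4 * 2 ^ (j0 + ⌈x⌉₊)) := (Nat.lt_two_pow_self).le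
    omega
  refine ⟨j0 + Nat.find hex, Nat.le_add_right _ _, ?_, Nat.find_spec hex⟩
  rcases h : Nat.find hex with _ | n
  · exact hx
  · have := Nat.find_min hex (m := n) (by omega)
    rw [show 2 * 2 ^ (j0 + (n + 1)) = 4 * 2 ^ (j0 + n) by ring]
    exact (not_le.1 this).le

end Hlx

/-- part (1) of the theorem, final exponents -/
def Part1b (A : Set ℕ) (C : ℝ) : Prop :=
  ∀ (x y : ℝ) (q : ℕ) (H : Finset ℕ), 2 ≤ y → y ≤ x → 1 ≤ q →
    (q : ℝ) ≤ Real.exp (Real.log x ^ (1 / 12 : ℝ)) → H.Nonempty →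
    (H.card : ℝ) ≤ Real.log x ^ (1 / 12 : ℝ) →
    (∀ b ∈ H, (b : ℝ) ≤ Real.exp (Real.log x ^ (1 / 12 : ℝ))) →
    ∃ S : ℝ, IsS q H S ∧
      |(cnt A q H y x : ℝ) - S / q * ∫ t in y..x, 1 / Real.log t ^ H.card| ≤
        C * ((x - y) * Real.exp (-Real.log x ^ (1 / 11 : ℝ)) + x ^ (2 / 3 : ℝ))

open Hlx in
theorem hl_st2 (h1 : MertSt) (h2 : SingSt) :
    ∀ i0 A, GlobOK i0 A → ∃ C, 0 ≤ C ∧ Part1b A C := by
  intro i0 A hA
  have hH : ∀ i, i0 ≤ i → HLs (2 ^ i) A := fun i hi => by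
    obtain ⟨F, hF, hag⟩ := hA.st i hi
    exact hF.hl A hag
  obtain ⟨j0, hj0, h16⟩ : ∃ j0, i0 ≤ j0 ∧ ∀ j, j0 ≤ j → 2147483648 ≤ 2 ^ j :=
    ⟨i0 + 31, Nat.le_add_right _ _, fun j hj =>
      le_trans (by norm_num) (Nat.pow_le_pow_right (by norm_num) (show 31 ≤ j by omega))⟩
  set s0 : ℕ := 2 ^ j0 with hs0
  have hs0' : 2147483648 ≤ s0 := h16 _ le_rfl
  have hM0 := one_le_M (s := s0) (by omega)
  have hC0 : (0 : ℝ) ≤ X (2 * s0) * (2 * Real.exp 42 * s0) ^ s0 := by positivity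
  refine ⟨X (2 * s0) * (2 * Real.exp 42 * s0) ^ s0 + 4, by linarith, ?_⟩
  intro x y q H hy hyx hq a1 a2 a3 a4
  have hx : 2 ≤ x := hy.trans hyx
  have hx23 : 1 ≤ x ^ (2 / 3 : ℝ) := Real.one_le_rpow (by linarith) (by norm_num)
  have hxy : 0 ≤ (x - y) * Real.exp (-Real.log x ^ (1 / 11 : ℝ)) :=
    mul_nonneg (by linarith) (Real.exp_pos _).le
  rcases le_total x (X (2 * s0)) with hb | hb
  · have hL : Real.log x ^ (1 / 12 : ℝ) ≤ s0 * Real.log 2 := by
      exact_mod_cast L_le hs0' hx (hb.trans (Nat.cast_le.2 (X_mono (by omega)))) 12 (by norm_num)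
    have ht := mem_tests hL hq a1 a2 a3 a4
    obtain ⟨S, hS⟩ := (h2 s0 _ ht).1
    obtain ⟨p0, p1⟩ := S_le h1 h2 (by omega) ht hS
    refine ⟨S, hS, ?_⟩
    have h := E_crude A H hq p0 hM0 p1 hy hyx
    have h' : x * (2 * Real.exp 42 * s0) ^ s0 ≤ X (2 * s0) * (2 * Real.exp 42 * s0) ^ s0 :=
      mul_le_mul_of_nonneg_right hb (by linarith)
    refine (h.trans h').trans ?_
    nlinarith
  · obtain ⟨j, hj, b1, b2⟩ := level j0 hb
    set s : ℕ := 2 ^ j with hs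
    have hs' : 2147483648 ≤ s := h16 _ hj
    have hl2 : 0 < Real.log 2 := Real.log_pos (by norm_num)
    have hL : Real.log x ^ (1 / 12 : ℝ) ≤ s * Real.log 2 := by
      exact_mod_cast L_le hs' hx b2 12 (by norm_num)
    have hL' : Real.log x ^ (1 / 11 : ℝ) ≤ s * Real.log 2 := by
      exact_mod_cast L_le hs' hx b2 11 (by norm_num)
    have hL2 : Real.log x ^ (1 / 12 : ℝ) ≤ ((2 * s : ℕ) : ℝ) * Real.log 2 := by
      refine hL.trans (mul_le_mul_of_nonneg_right ?_ hl2.le)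
      exact_mod_cast (by omega : s ≤ 2 * s)
    have ht := mem_tests hL hq a1 a2 a3 a4
    have ht2 := mem_tests hL2 hq a1 a2 a3 a4
    obtain ⟨S, hS⟩ := (h2 s _ ht).1
    obtain ⟨p0, p1⟩ := S_le h1 h2 (by omega) ht hS
    refine ⟨S, hS, ?_⟩
    have H1 : HLs s A := hH j (by omega)
    have H2 : HLs (2 * s) A := by
      have := hH (j + 1) (by omega)
      rwa [pow_succ'] at this
    have hab : (X s : ℝ) ≤ X (2 * s) := Nat.cast_le.2 (X_mono (by omega))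
    have hε : (1 : ℝ) / 2 ^ s ≤ Real.exp (-Real.log x ^ (1 / 11 : ℝ)) := by
      refine le_trans (le_of_eq ?_) (Real.exp_le_exp.2 (neg_le_neg hL'))
      rw [Real.exp_neg, Real.exp_nat_mul, Real.exp_log (by norm_num), one_div]
    have hε2 : (1 : ℝ) / 2 ^ (2 * s) ≤ 1 / 2 ^ s :=
      one_div_le_one_div_of_le (by positivity) (pow_le_pow_right₀ (by norm_num) (by omega))
    set ε := Real.exp (-Real.log x ^ (1 / 11 : ℝ)) with hεd
    have c1 : y ≤ max y (X s) := le_max_left _ _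
    have c2 : max y (X s) ≤ max y (X (2 * s) : ℝ) := max_le_max le_rfl hab
    have c3 : max y (X (2 * s) : ℝ) ≤ x := max_le hyx b1
    have e0 : |E A q H S y (max y (X s))| ≤ x ^ (2 / 3 : ℝ) := by
      rcases le_total y (X s) with h | h
      · rw [max_eq_right h]
        exact (E_crude A H hq p0 (one_le_M (by omega)) p1 hy h).trans (small (by omega) b1)
      · rw [max_eq_left h, E_self, abs_zero]; linarith
    have e1 : |E A q H S (max y (X s)) (max y (X (2 * s)))| ≤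
        4 * (max y (X (2 * s) : ℝ) - max y (X s)) * ε + x ^ (2 / 3 : ℝ) := by
      rcases le_total y (X (2 * s)) with h | h
      · have h3 := H1 _ ht S hS (max y (X s)) (max y (X (2 * s))) (le_max_right _ _) c2
          (max_le h le_rfl)
        refine le_trans h3 (add_le_add ?_ ?_)
        · rw [div_eq_mul_one_div]
          exact mul_le_mul_of_nonneg_left hε (by linarith)
        · exact Real.rpow_le_rpow (by linarith) c3 (by norm_num)
      · rw [max_eq_left h, max_eq_left (hab.trans h), E_self, abs_zero]; linarith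
    have e2 : |E A q H S (max y (X (2 * s))) x| ≤
        4 * (x - max y (X (2 * s) : ℝ)) * ε + x ^ (2 / 3 : ℝ) := by
      have h3 := H2 _ ht2 S hS (max y (X (2 * s))) x (le_max_right _ _) c3
        (by rwa [show 2 * (2 * s) = 4 * s by ring])
      refine le_trans h3 (add_le_add ?_ le_rfl)
      rw [div_eq_mul_one_div]
      exact mul_le_mul_of_nonneg_left (hε2.trans hε) (by linarith)
    have hsum : E A q H S y x = E A q H S y (max y (X s)) +
        (E A q H S (max y (X s)) (max y (X (2 * s))) + E A q H S (max y (X (2 * s))) x) := by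
      rw [← E_add A H S hq (hy.trans c1) c2 c3, ← E_add A H S hq hy c1 (c2.trans c3)]
    have hε0 : 0 ≤ ε := (Real.exp_pos _).le
    have hfin : |E A q H S y x| ≤ 4 * ((x - y) * ε + x ^ (2 / 3 : ℝ)) := by
      rw [hsum]
      refine (abs_add_le _ _).trans ((add_le_add e0 ((abs_add_le _ _).trans
        (add_le_add e1 e2))).trans ?_)
      have := mul_le_mul_of_nonneg_right c1 hε0
      nlinarith
    refine le_trans hfin (mul_le_mul_of_nonneg_right (by linarith) (by linarith))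

end Pool.Agent.Lib.MP_be93de_nt.Hb
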