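import Pool.Agent.Lib.MP_be93de_nt.Hb.Defs

/-! The main term of a block. -/

namespace Pool.Agent.Lib.MP_be93de_nt.Hb

open Finset Filter

namespace MainTx

theorem sq_le (s : ℕ) (hs : 4 ≤ s) : s ^ 2 ≤ 2 ^ s := by
  induction s, hs using Nat.le_induction with
  | base => norm_num
  | succ n hn ih =>
    have h1 : 2 * n + 1 ≤ n ^ 2 := by nlinarith
    calc (n + 1) ^ 2 = n ^ 2 + (2 * n + 1) := by ring
      _ ≤ 2 ^ n + 2 ^ n := by omega
      _ = 2 ^ (n + 1) := by ring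

theorem logX (s : ℕ) : Real.log (X s) = (s : ℝ) ^ 10 * Real.log 2 := by
  unfold X
  push_cast
  rw [Real.log_pow]
  push_cast
  rfl

theorem close {ρ θ L S q Yv W tv e a : ℝ} {k : ℕ} (hθ : 0 < θ) (hL : 0 < L)
    (hρ : ρ = 1 / (θ * L)) (hρ1 : ρ ≤ 1) (hq : 1 ≤ q) (hY : 0 ≤ Yv) (ha : 0 ≤ a)
    (h1 : S * θ ^ k ≤ W) (h2 : W - a ≤ S * θ ^ k) (h3 : |tv - Yv / q * W| ≤ e)
    (h4 : Yv * a ≤ e) : |ρ ^ k * tv - Yv * (S / q * (1 / L ^ k))| ≤ 2 * e := by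
  have hq0 : 0 < q := by linarith
  have hρ0 : 0 ≤ ρ := by rw [hρ]; positivity
  have e1 : ρ ^ k * tv - Yv * (S / q * (1 / L ^ k)) = ρ ^ k * (tv - Yv / q * (S * θ ^ k)) := by
    rw [hρ, div_pow, mul_pow, one_pow]
    field_simp
  have h5 : 0 ≤ Yv / q := by positivity
  have h6 : Yv / q ≤ Yv := div_le_self hY hq
  have h7 : Yv / q * (S * θ ^ k) ≤ Yv / q * W := mul_le_mul_of_nonneg_left h1 h5
  have h8 : Yv / q * (W - a) ≤ Yv / q * (S * θ ^ k) := mul_le_mul_of_nonneg_left h2 h5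
  have h9 : Yv / q * a ≤ Yv * a := mul_le_mul_of_nonneg_right h6 ha
  have h10 : 0 ≤ Yv * a := mul_nonneg hY ha
  obtain ⟨h11, h12⟩ := abs_le.1 h3
  have h13 : |tv - Yv / q * (S * θ ^ k)| ≤ 2 * e := by
    rw [mul_sub] at h8
    exact abs_le.2 ⟨by linarith, by linarith⟩
  rw [e1, abs_mul, abs_of_nonneg (pow_nonneg hρ0 k)]
  exact (mul_le_of_le_one_left (abs_nonneg _) (pow_le_one₀ hρ0 hρ1)).trans h13

end MainTx

open MainTx in
theorem term_st (h1 : MertSt) (h2 : SingSt) (h3 : EcountSt) : TermSt := by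
  have hev : ∀ᶠ s : ℕ in atTop, 2 * Real.exp 42 ≤ (s : ℝ) :=
    tendsto_natCast_atTop_atTop.eventually_ge_atTop _
  filter_upwards [h3, hev, eventually_ge_atTop 4] with s hE hs hs4 T hT
  have hs1 : (1 : ℝ) ≤ s := by exact_mod_cast le_trans (by norm_num) hs4
  have hs0 : (0 : ℝ) < s := by linarith
  have hθ : 0 < th 0 (2 ^ (2 * s)) := (h1.1 _ _).1
  have hθi : (th 0 (2 ^ (2 * s)))⁻¹ ≤ Real.exp 42 * s := (h1.2.2 s (by omega)).1
  have hl2 : (1 : ℝ) / 2 ≤ Real.log 2 := by have := Real.log_two_gt_d9; linarith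
  have hX0 : (0 : ℝ) < X s := by unfold X; positivity
  have hXT : Real.log (X s) ≤ Real.log T := Real.log_le_log hX0 (by exact_mod_cast hT)
  have hp9 : (0 : ℝ) < (s : ℝ) ^ 9 := by positivity
  have hp8 : (1 : ℝ) ≤ (s : ℝ) ^ 8 := one_le_pow₀ hs1
  have hbig : Real.exp 42 * s * (s : ℝ) ^ 8 ≤ Real.log (X s) := by
    rw [logX]
    calc Real.exp 42 * s * (s : ℝ) ^ 8 = Real.exp 42 * (s : ℝ) ^ 9 := by ring
      _ ≤ (s * (1 / 2)) * (s : ℝ) ^ 9 := mul_le_mul_of_nonneg_right (by linarith) hp9.le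
      _ ≤ (s * Real.log 2) * (s : ℝ) ^ 9 :=
        mul_le_mul_of_nonneg_right (mul_le_mul_of_nonneg_left hl2 hs0.le) hp9.le
      _ = _ := by ring
  have he0 : 0 < Real.exp 42 * s := by positivity
  have hbig1 : Real.exp 42 * s ≤ Real.log (X s) :=
    (le_mul_of_one_le_right he0.le hp8).trans hbig
  have hL : 0 < Real.log T := by linarith
  have hρ : 1 / (th 0 (2 ^ (2 * s)) * Real.log T) ≤ 1 / (s : ℝ) ^ 8 := by
    refine one_div_le_one_div_of_le (by positivity) ?_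
    have h4 : 1 ≤ th 0 (2 ^ (2 * s)) * (Real.exp 42 * s) := by
      have := mul_le_mul_of_nonneg_left hθi hθ.le
      rwa [mul_inv_cancel₀ hθ.ne'] at this
    calc (s : ℝ) ^ 8 ≤ th 0 (2 ^ (2 * s)) * (Real.exp 42 * s) * (s : ℝ) ^ 8 :=
          le_mul_of_one_le_left (by positivity) h4
      _ = th 0 (2 ^ (2 * s)) * (Real.exp 42 * s * (s : ℝ) ^ 8) := by ring
      _ ≤ _ := mul_le_mul_of_nonneg_left (hbig.trans hXT) hθ.le
  refine ⟨by positivity, hρ, fun τ hτ S hS => ?_⟩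
  obtain ⟨s0, s1, s2, s3⟩ := (h2 s τ hτ).2 S hS
  refine ⟨s0, ?_, ?_⟩
  · have h5 : S ≤ ((th 0 (2 ^ (2 * s)))⁻¹) ^ τ.2.card := by
      rw [inv_pow, ← one_div, le_div_iff₀ (pow_pos hθ _)]
      exact s3
    exact h5.trans (pow_le_pow_left₀ (inv_pos.2 hθ).le (hθi.trans hbig1) _)
  · have hq : (1 : ℝ) ≤ τ.1 := by
      exact_mod_cast (mem_Icc.1 (mem_product.1 hτ).1).1
    have hY : (0 : ℝ) ≤ Y s := Nat.cast_nonneg _
    have h6 : (s : ℝ) ^ 2 / 2 ^ (2 * s) ≤ 1 / 2 ^ s := by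
      have h7 : (s : ℝ) ^ 2 ≤ 2 ^ s := by exact_mod_cast sq_le s hs4
      rw [div_le_div_iff₀ (by positivity) (by positivity), one_mul, two_mul, pow_add]
      exact mul_le_mul_of_nonneg_right h7 (by positivity)
    have h8 := close (k := τ.2.card) hθ hL rfl
      (hρ.trans (by rw [div_le_one (by positivity)]; exact hp8)) hq hY (by positivity) s1 s2
      (hE T τ hτ) ((mul_le_mul_of_nonneg_left h6 hY).trans_eq (by ring))
    exact h8.trans_eq (by ring)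

end Pool.Agent.Lib.MP_be93de_nt.Hb
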