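import Pool.Agent.Lib.MP_be93de_nt.Hb.Defs

/-! Patterns with twins are rare among the patterns of a given size. -/

namespace Pool.Agent.Lib.MP_be93de_nt.Hb

open Finset

namespace Rarex

lemma h78_choose (m n : ℕ) (hnm : n ≤ m) : ∀ j : ℕ, j ≤ n →
    (((m - j).choose (n - j) : ℕ) : ℝ) * (m : ℝ) ^ j ≤ (m.choose n : ℝ) * (n : ℝ) ^ j := by
  intro j
  induction j with
  | zero => intro _; simp
  | succ j ih =>
    intro hj
    have h1 := ih (by omega)
    obtain ⟨a, ha⟩ : ∃ a, m - j = a + 1 := ⟨m - j - 1, by omega⟩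
    obtain ⟨b, hb⟩ : ∃ b, n - j = b + 1 := ⟨n - j - 1, by omega⟩
    have e1 : m - (j + 1) = a := by omega
    have e2 : n - (j + 1) = b := by omega
    rw [ha, hb] at h1
    rw [e1, e2]
    have h2 : ((a : ℝ) + 1) * (a.choose b : ℝ) = ((a + 1).choose (b + 1) : ℝ) * ((b : ℝ) + 1) := by
      exact_mod_cast Nat.add_one_mul_choose_eq a b
    have hm : (m : ℝ) = (a : ℝ) + 1 + j := by
      have : m = a + 1 + j := by omega
      exact_mod_cast this
    have hn : (n : ℝ) = (b : ℝ) + 1 + j := by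
      have : n = b + 1 + j := by omega
      exact_mod_cast this
    have hab : (b : ℝ) ≤ a := by
      have : b ≤ a := by omega
      exact_mod_cast this
    have hj0 : (0 : ℝ) ≤ j := Nat.cast_nonneg j
    have ha0 : (0 : ℝ) < (a : ℝ) + 1 := by positivity
    have h3 : (a.choose b : ℝ) * (m : ℝ) ≤ ((a + 1).choose (b + 1) : ℝ) * (n : ℝ) := by
      have hc : (0 : ℝ) ≤ ((a + 1).choose (b + 1) : ℝ) := Nat.cast_nonneg _
      have h4 : ((b : ℝ) + 1) * (m : ℝ) ≤ ((a : ℝ) + 1) * (n : ℝ) := by
        rw [hm, hn]; nlinarith [mul_le_mul_of_nonneg_right hab hj0]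
      have h5 : ((a : ℝ) + 1) * ((a.choose b : ℝ) * (m : ℝ)) ≤
          ((a : ℝ) + 1) * (((a + 1).choose (b + 1) : ℝ) * (n : ℝ)) := by
        calc ((a : ℝ) + 1) * ((a.choose b : ℝ) * (m : ℝ))
            = ((a + 1).choose (b + 1) : ℝ) * (((b : ℝ) + 1) * (m : ℝ)) := by
              rw [← mul_assoc, h2]; ring
          _ ≤ ((a + 1).choose (b + 1) : ℝ) * (((a : ℝ) + 1) * (n : ℝ)) :=
              mul_le_mul_of_nonneg_left h4 hc
          _ = _ := by ring
      exact le_of_mul_le_mul_left h5 ha0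
    have hm0 : (0 : ℝ) ≤ (m : ℝ) ^ j := by positivity
    have hn0 : (0 : ℝ) ≤ (n : ℝ) := Nat.cast_nonneg n
    calc (a.choose b : ℝ) * (m : ℝ) ^ (j + 1) = ((a.choose b : ℝ) * (m : ℝ)) * (m : ℝ) ^ j := by ring
      _ ≤ (((a + 1).choose (b + 1) : ℝ) * (n : ℝ)) * (m : ℝ) ^ j :=
          mul_le_mul_of_nonneg_right h3 hm0
      _ = (((a + 1).choose (b + 1) : ℝ) * (m : ℝ) ^ j) * (n : ℝ) := by ring
      _ ≤ ((m.choose n : ℝ) * (n : ℝ) ^ j) * (n : ℝ) := mul_le_mul_of_nonneg_right h1 hn0
      _ = _ := by ring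

lemma h78_count (c K : Finset ℕ) (n : ℕ) (hK : K ⊆ c) (hn : n ≤ c.card) (hc : 0 < c.card) :
    (((powersetCard n c).filter (fun π => K ⊆ π)).card : ℝ) ≤
      (c.card.choose n : ℝ) * ((n : ℝ) / c.card) ^ K.card := by
  have hc' : (0 : ℝ) < c.card := by exact_mod_cast hc
  by_cases h : K.card ≤ n
  · rw [card_filter_powersetCard_subset K c n hK h, div_pow, ← mul_div_assoc,
      le_div_iff₀ (by positivity)]
    exact h78_choose c.card n hn K.card h
  · have : (powersetCard n c).filter (fun π => K ⊆ π) = ∅ := by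
      rw [filter_eq_empty_iff]
      intro π hπ hs
      have := card_le_card hs
      rw [(mem_powersetCard.1 hπ).2] at this
      exact h this
    rw [this]
    simp only [card_empty, Nat.cast_zero]
    positivity

/-- a set of lower twins together with the upper twins -/
def dbl (T : Finset ℕ) : Finset ℕ := T ∪ T.image (· + 2)

lemma h78_dbl_sub {c T : Finset ℕ} (hT : T ⊆ tw c) : dbl T ⊆ c := by
  intro a ha
  rcases mem_union.1 ha with h | h
  · exact (mem_filter.1 (hT h)).1
  · obtain ⟨b, hb, rfl⟩ := mem_image.1 h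
    exact (mem_filter.1 (hT hb)).2

lemma h78_dbl_card {c T : Finset ℕ} (h3 : ∀ a ∈ c, ¬ 3 ∣ a) (hT : T ⊆ tw c) :
    (dbl T).card = 2 * T.card := by
  have hd : Disjoint T (T.image (· + 2)) := by
    rw [disjoint_left]
    intro a ha hb
    obtain ⟨b, hb', e⟩ := mem_image.1 hb
    have h1 := h3 _ (mem_filter.1 (hT hb')).1
    have h2 := h3 _ (mem_filter.1 (hT hb')).2
    have h4 := h3 _ (mem_filter.1 (hT ha)).2
    have e' : b + 2 = a := e
    omega
  unfold dbl
  rw [card_union_of_disjoint hd, card_image_of_injective _ (add_left_injective 2)]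
  omega

lemma h78_geom (S : Finset ℕ) (x : ℝ) :
    ∑ T ∈ S.powerset.filter (fun T => T.Nonempty), x ^ T.card = (1 + x) ^ S.card - 1 := by
  have h1 : ∑ T ∈ S.powerset, x ^ T.card = (1 + x) ^ S.card := by
    have := prod_one_add (s := S) (f := fun _ => x)
    simp only [prod_const] at this
    exact this.symm
  have h2 := sum_filter_add_sum_filter_not S.powerset (fun T => T.Nonempty)
    (fun T => x ^ T.card)
  have h3 : S.powerset.filter (fun T => ¬ T.Nonempty) = {∅} := by
    ext T
    simp only [mem_filter, mem_powerset, not_nonempty_iff_eq_empty, mem_singleton]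
    constructor
    · exact fun h => h.2
    · rintro rfl; exact ⟨empty_subset _, rfl⟩
  rw [h3, sum_singleton, card_empty, pow_zero, h1] at h2
  linarith

lemma h78_exp : Real.exp (1 / 3) ≤ 3 / 2 := by
  have h1 : (2 / 3 : ℝ) ≤ Real.exp (-(1 / 3)) := by
    have := Real.add_one_le_exp (-(1 / 3) : ℝ)
    linarith
  have h2 : Real.exp (1 / 3) * Real.exp (-(1 / 3)) = 1 := by
    rw [← Real.exp_add]; simp
  have h3 := Real.exp_pos (1 / 3 : ℝ)
  nlinarith

end Rarex

open Rarex in
theorem rare_st : RareSt := by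
  intro c g n h3 hg hn
  have hg0 : (0 : ℝ) ≤ g := by linarith
  by_cases hnc : n ≤ c.card
  swap
  · rw [powersetCard_eq_empty.2 (by omega)]
    simp only [filter_empty, sum_empty]
    positivity
  by_cases hc : c.card = 0
  · have hc' : c = ∅ := card_eq_zero.1 hc
    have : (powersetCard n c).filter (fun π => (tw π).Nonempty) = ∅ := by
      rw [filter_eq_empty_iff]
      intro π hπ ⟨a, ha⟩
      have := (mem_powersetCard.1 hπ).1 (mem_filter.1 ha).1
      rw [hc'] at this
      exact absurd this (notMem_empty a)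
    rw [this, sum_empty]
    positivity
  have hc0 : 0 < c.card := Nat.pos_of_ne_zero hc
  have hcr : (0 : ℝ) < c.card := by exact_mod_cast hc0
  set F := (tw c).powerset.filter (fun T => T.Nonempty) with hF
  have s1 : ∑ π ∈ (powersetCard n c).filter (fun π => (tw π).Nonempty), g ^ (tw π).card ≤
      ∑ π ∈ powersetCard n c, ∑ T ∈ F, (if dbl T ⊆ π then g ^ T.card else 0) := by
    rw [sum_filter]
    refine sum_le_sum fun π hπ => ?_
    have hnn : ∀ T ∈ F, (0 : ℝ) ≤ (if dbl T ⊆ π then g ^ T.card else 0) := by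
      intro T _
      split_ifs
      · positivity
      · exact le_rfl
    split_ifs with h
    · have hm : tw π ∈ F := by
        refine mem_filter.2 ⟨mem_powerset.2 ?_, h⟩
        intro a ha
        have hs := (mem_powersetCard.1 hπ).1
        exact mem_filter.2 ⟨hs (mem_filter.1 ha).1, hs (mem_filter.1 ha).2⟩
      have := single_le_sum hnn hm
      rwa [if_pos (h78_dbl_sub (c := π) (Subset.refl _))] at this
    · exact sum_nonneg hnn
  set x : ℝ := g * ((n : ℝ) / c.card) ^ 2 with hx
  have hx0 : 0 ≤ x := by positivity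
  have s2 : ∑ π ∈ powersetCard n c, ∑ T ∈ F, (if dbl T ⊆ π then g ^ T.card else 0) ≤
      ∑ T ∈ F, (c.card.choose n : ℝ) * x ^ T.card := by
    rw [sum_comm]
    refine sum_le_sum fun T hT => ?_
    have hT' : T ⊆ tw c := mem_powerset.1 (mem_filter.1 hT).1
    rw [← sum_filter, sum_const, nsmul_eq_mul]
    have := h78_count c (dbl T) n (h78_dbl_sub hT') hnc hc0
    rw [h78_dbl_card h3 hT', pow_mul] at this
    calc _ ≤ ((c.card.choose n : ℝ) * (((n : ℝ) / c.card) ^ 2) ^ T.card) * g ^ T.card :=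
          mul_le_mul_of_nonneg_right this (by positivity)
      _ = _ := by rw [hx, mul_pow]; ring
  have s3 : (1 + x) ^ (tw c).card ≤ 3 / 2 := by
    have a1 : (1 + x) ^ (tw c).card ≤ (1 + x) ^ c.card :=
      pow_le_pow_right₀ (by linarith) (card_le_card (filter_subset _ _))
    have a2 : (1 + x) ^ c.card ≤ Real.exp x ^ c.card :=
      pow_le_pow_left₀ (by linarith) (by linarith [Real.add_one_le_exp x]) _
    have a3 : (c.card : ℝ) * x ≤ 1 / 3 := by
      have : (c.card : ℝ) * x = g * (n : ℝ) ^ 2 / c.card := by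
        rw [hx]; field_simp
      rw [this, div_le_iff₀ hcr]
      linarith
    rw [← Real.exp_nat_mul] at a2
    exact a1.trans (a2.trans ((Real.exp_le_exp.2 a3).trans h78_exp))
  refine s1.trans (s2.trans ?_)
  rw [← mul_sum, hF, h78_geom]
  have hch : (0 : ℝ) ≤ (c.card.choose n : ℝ) := Nat.cast_nonneg _
  nlinarith

end Pool.Agent.Lib.MP_be93de_nt.Hb
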