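import Pool.Agent.Lib.MP_be93de_nt.Hb.Defs

/-! The blocks of one level, chosen one after the other by a square potential. -/

namespace Pool.Agent.Lib.MP_be93de_nt.Hb

open Finset Filter

namespace Seqx

theorem tup_le (q : ℕ) (H : Finset ℕ) (Z : ℕ) (B : Finset ℕ) (hq : 1 ≤ q) (hH : 1 ≤ H.card) :
    tup q H Z B ≤ B.card := by
  obtain ⟨b, hb⟩ := card_pos.1 hH
  refine card_le_card_of_injOn (fun m => q * m + b) ?_ ?_
  · intro m hm
    exact (mem_filter.1 (mem_coe.1 hm)).2 b hb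
  · intro m _ m' _ h
    have h1 : q * m = q * m' := Nat.add_right_cancel h
    exact Nat.eq_of_mul_eq_mul_left hq h1

theorem tests_card (s : ℕ) (hs : 2 ≤ s) : (tests s).card ≤ 2 ^ (3 * s ^ 2) := by
  have h1 : ((range (2 ^ s + 1)).powerset.filter (fun H => 1 ≤ H.card ∧ H.card ≤ s)) ⊆
      (Icc 1 s).biUnion fun k => powersetCard k (range (2 ^ s + 1)) := by
    intro H hH
    obtain ⟨a, b, c⟩ := mem_filter.1 hH
    exact mem_biUnion.2 ⟨H.card, mem_Icc.2 ⟨b, c⟩, mem_powersetCard.2 ⟨mem_powerset.1 a, rfl⟩⟩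
  have h0 : 1 ≤ 2 ^ s := Nat.one_le_two_pow
  have h2 : ∀ k ∈ Icc 1 s, (powersetCard k (range (2 ^ s + 1))).card ≤ (2 ^ (s + 1)) ^ s := by
    intro k hk
    rw [card_powersetCard, card_range]
    calc (2 ^ s + 1).choose k ≤ (2 ^ s + 1) ^ k := Nat.choose_le_pow _ _
      _ ≤ (2 ^ (s + 1)) ^ k := Nat.pow_le_pow_left (by rw [pow_succ]; omega) _
      _ ≤ (2 ^ (s + 1)) ^ s := Nat.pow_le_pow_right (by positivity) (mem_Icc.1 hk).2
  have h3 := (card_le_card h1).trans (card_biUnion_le.trans (sum_le_card_nsmul _ _ _ h2))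
  rw [Nat.card_Icc, smul_eq_mul] at h3
  have h4 : s + 1 - 1 ≤ 2 ^ s := by
    have := Nat.lt_two_pow_self (n := s)
    omega
  unfold tests
  rw [card_product, Nat.card_Icc]
  calc (2 ^ s + 1 - 1) * _ ≤ 2 ^ s * (2 ^ s * (2 ^ (s + 1)) ^ s) :=
        Nat.mul_le_mul (by omega) (h3.trans (Nat.mul_le_mul_right _ h4))
    _ = 2 ^ (s + s + (s + 1) * s) := by rw [← pow_mul, ← pow_add, ← pow_add, add_assoc]
    _ ≤ 2 ^ (3 * s ^ 2) := Nat.pow_le_pow_right (by norm_num) (by nlinarith)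

theorem mem_tests {s : ℕ} {τ : ℕ × Finset ℕ} (h : τ ∈ tests s) : 1 ≤ τ.1 ∧ 1 ≤ τ.2.card := by
  obtain ⟨a, b⟩ := mem_product.1 h
  exact ⟨(mem_Icc.1 a).1, (mem_filter.1 b).2.1⟩

/-- the square potential -/
theorem potential {ι : Type} (I : Finset ι) (D e : ℕ → ι → ℝ) (c : ℝ) (h0 : ∀ τ, D 0 τ = 0)
    (hs : ∀ j τ, D (j + 1) τ = D j τ + e j τ) (hd : ∀ j, ∑ τ ∈ I, D j τ * e j τ ≤ 0)
    (he : ∀ j, ∀ τ ∈ I, |e j τ| ≤ c) (j : ℕ) : ∑ τ ∈ I, D j τ ^ 2 ≤ j * I.card * c ^ 2 := by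
  induction j with
  | zero => simp [h0]
  | succ j ih =>
    have h1 : ∑ τ ∈ I, D (j + 1) τ ^ 2 =
        ∑ τ ∈ I, D j τ ^ 2 + 2 * ∑ τ ∈ I, D j τ * e j τ + ∑ τ ∈ I, e j τ ^ 2 := by
      rw [mul_sum, ← sum_add_distrib, ← sum_add_distrib]
      exact sum_congr rfl fun τ _ => by rw [hs]; ring
    have h2 : ∑ τ ∈ I, e j τ ^ 2 ≤ I.card * c ^ 2 := by
      have := sum_le_card_nsmul I (fun τ => e j τ ^ 2) (c ^ 2) fun τ hτ => by
        have h3 := he j τ hτ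
        exact sq_le_sq' (abs_le.1 h3).1 (abs_le.1 h3).2
      rwa [nsmul_eq_mul] at this
    have h3 := hd j
    push_cast
    nlinarith

end Seqx

open Seqx in
theorem seq_st (h1 : BlockSt) (h2 : TermSt) : SeqSt := by
  filter_upwards [h1, h2, eventually_ge_atTop 2] with s hB hT hs r
  have hX : ∀ j, X s ≤ TT s j := fun j => Nat.le_add_right _ _
  have hb := fun (j r : ℕ) (d : ℕ × Finset ℕ → ℝ) =>
    hB (TT s j) r _ d (hT _ (hX j)).1 (hT _ (hX j)).2.1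
  choose Bf μf hsub hne hgood hpot hμ using hb
  let st : ℕ → ℕ × (ℕ × Finset ℕ → ℝ) := fun j => Nat.rec (r, fun _ => 0)
    (fun j x => (x.1 + (Bf j x.1 x.2).card,
      fun τ => x.2 τ + ((tup τ.1 τ.2 (TT s j + Y s) (Bf j x.1 x.2) : ℝ) - μf j x.1 x.2 τ))) j
  let B : ℕ → Finset ℕ := fun j => Bf j (st j).1 (st j).2
  let μ : ℕ → ℕ × Finset ℕ → ℝ := fun j => μf j (st j).1 (st j).2
  let e : ℕ → ℕ × Finset ℕ → ℝ := fun j τ => (tup τ.1 τ.2 (TT s j + Y s) (B j) : ℝ) - μ j τ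
  have hr : ∀ j, (st j).1 = r + ∑ i ∈ range j, (B i).card := by
    intro j
    induction j with
    | zero => simp [st]
    | succ j ih => rw [sum_range_succ, ← add_assoc, ← ih]
  have hD : ∀ j τ, (st j).2 τ = ∑ i ∈ range j, e i τ := by
    intro j τ
    induction j with
    | zero => simp [st]
    | succ j ih => rw [sum_range_succ, ← ih]
  have hY : (0 : ℝ) ≤ Y s := Nat.cast_nonneg _
  have h2s : (1 : ℝ) ≤ 2 ^ s := one_le_pow₀ (by norm_num)
  have hYs : (Y s : ℝ) / 2 ^ s ≤ Y s := div_le_self hY h2s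
  have he : ∀ j, ∀ τ ∈ tests s, |e j τ| ≤ 2 * Y s := by
    intro j τ hτ
    obtain ⟨q1, k1⟩ := mem_tests hτ
    have a1 : (tup τ.1 τ.2 (TT s j + Y s) (B j) : ℝ) ≤ Y s := by
      have := (tup_le τ.1 τ.2 (TT s j + Y s) (B j) q1 k1).trans (card_le_card (hsub j _ _))
      rw [Nat.card_Ico] at this
      exact_mod_cast this.trans (by omega)
    have a2 : (tup τ.1 τ.2 (TT s j + Y s) (EB s (TT s j)) : ℝ) ≤ Y s := by
      have := (tup_le τ.1 τ.2 (TT s j + Y s) (EB s (TT s j)) q1 k1).trans (card_filter_le _ _)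
      rw [Nat.card_Ico] at this
      exact_mod_cast this.trans (by omega)
    have a3 := abs_le.1 (hμ j (st j).1 (st j).2 τ hτ)
    obtain ⟨r0, r1, -⟩ := hT _ (hX j)
    have r2 : 1 / (s : ℝ) ^ 8 ≤ 1 := by
      have : (1 : ℝ) ≤ s := by exact_mod_cast (by omega : 1 ≤ s)
      exact div_le_self zero_le_one (one_le_pow₀ this)
    have p0 := pow_nonneg r0 τ.2.card
    have p1 := pow_le_one₀ (n := τ.2.card) r0 (r1.trans r2)
    have t0 : (0 : ℝ) ≤ tup τ.1 τ.2 (TT s j + Y s) (B j) := Nat.cast_nonneg _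
    have t1 : (0 : ℝ) ≤ tup τ.1 τ.2 (TT s j + Y s) (EB s (TT s j)) := Nat.cast_nonneg _
    have m0 := mul_nonneg p0 t1
    have m1 := (mul_le_of_le_one_left t1 p1).trans a2
    simp only [e, μ]
    rw [abs_le]
    constructor <;> linarith [a3.1, a3.2]
  have hP := potential (tests s) (fun j => (st j).2) e (2 * Y s) (fun _ => rfl) (fun _ _ => rfl)
    (fun j => hpot j (st j).1 (st j).2) he
  have hc : ((tests s).card : ℝ) ≤ 2 ^ (3 * s ^ 2) := by exact_mod_cast tests_card s hs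
  have hDb : ∀ j j2 : ℕ, j ≤ j2 → ∀ τ ∈ tests s,
      |(st j).2 τ| ≤ 2 * Y s * Real.sqrt (j2 * 2 ^ (3 * s ^ 2)) := by
    intro j j2 hj τ hτ
    have b1 := (single_le_sum (f := fun τ => (st j).2 τ ^ 2) (fun _ _ => sq_nonneg _) hτ).trans (hP j)
    have b2 : (j : ℝ) * (tests s).card ≤ j2 * 2 ^ (3 * s ^ 2) :=
      mul_le_mul (by exact_mod_cast hj) hc (Nat.cast_nonneg _) (Nat.cast_nonneg _)
    refine abs_le_of_sq_le_sq ?_ (by positivity)
    rw [mul_pow _ (Real.sqrt _), Real.sq_sqrt (by positivity), mul_comm]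
    exact b1.trans (mul_le_mul_of_nonneg_right b2 (sq_nonneg _))
  refine ⟨B, fun j => hsub j _ _, fun j => hne j _ _, fun j => hr j ▸ hgood j _ _, ?_⟩
  intro τ hτ S hS j1 j2 hj
  have c1 : ∀ j ∈ Ico j1 j2,
      |μ j τ - Y s * (S / τ.1 * (1 / Real.log (TT s j) ^ τ.2.card))| ≤ 3 * (Y s / 2 ^ s) := by
    intro j _
    have a3 := abs_le.1 (hμ j (st j).1 (st j).2 τ hτ)
    have a4 := abs_le.1 ((hT _ (hX j)).2.2 τ hτ S hS).2.2
    rw [mul_div_assoc (2 : ℝ)] at a4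
    simp only [μ]
    rw [abs_le]
    constructor <;> linarith [a3.1, a3.2, a4.1, a4.2]
  have c2 := (abs_sum_le_sum_abs _ _).trans (sum_le_card_nsmul _ _ _ c1)
  rw [Nat.card_Ico, nsmul_eq_mul, Nat.cast_sub hj] at c2
  have c3 : ∑ j ∈ Ico j1 j2, ((tup τ.1 τ.2 (TT s j + Y s) (B j) : ℝ) -
      Y s * (S / τ.1 * (1 / Real.log (TT s j) ^ τ.2.card))) = ((st j2).2 τ - (st j1).2 τ) +
      ∑ j ∈ Ico j1 j2, (μ j τ - Y s * (S / τ.1 * (1 / Real.log (TT s j) ^ τ.2.card))) := by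
    rw [hD, hD, ← sum_Ico_eq_sub _ hj, ← sum_add_distrib]
    exact sum_congr rfl fun j _ => by simp only [e]; ring
  have d1 := abs_le.1 (hDb j1 j2 hj τ hτ)
  have d2 := abs_le.1 (hDb j2 j2 le_rfl τ hτ)
  have d3 := abs_le.1 c2
  have d4 : 3 * ((j2 : ℝ) - j1) * Y s / 2 ^ s = ((j2 : ℝ) - j1) * (3 * (Y s / 2 ^ s)) := by ring
  rw [c3, d4, abs_le]
  constructor <;> linarith [d1.1, d1.2, d2.1, d2.2, d3.1, d3.2]

end Pool.Agent.Lib.MP_be93de_nt.Hb
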