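import Pool.Agent.Lib.MP_be93de_nt.Hb.Defs

/-! The rank neutral tilt of the base weights of one cell. -/

namespace Pool.Agent.Lib.MP_be93de_nt.Hb

open Finset

namespace Tiltx

noncomputable section

/-- ranks inside `π` of the lower members of its twins -/
def JJ (π : Finset ℕ) : Finset ℕ := (tw π).image (fun a => (π.filter (· ≤ a)).card)

/-- patterns of size `n` with a twin -/
def WW (c : Finset ℕ) (n : ℕ) : Finset (Finset ℕ) :=
  (powersetCard n c).filter (fun π => (tw π).Nonempty)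

/-- patterns of size `n` without a twin -/
def ZZ (c : Finset ℕ) (n : ℕ) : Finset (Finset ℕ) :=
  (powersetCard n c).filter (fun π => ¬ (tw π).Nonempty)

def al (c : Finset ℕ) (nm : ℕ) (π J : Finset ℕ) : ℝ :=
  if nm < π.card then (if J = ∅ then 1 else 0)
  else if (tw π).Nonempty then (if J = JJ π then 1 else 0)
  else (if J = ∅ then 1 + ((WW c π.card).card : ℝ) / (ZZ c π.card).card else 0) -
    (((WW c π.card).filter (fun π' => JJ π' = J)).card : ℝ) / (ZZ c π.card).card

lemma JJ_sub (π : Finset ℕ) : JJ π ⊆ Icc 1 π.card := by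
  intro j hj
  obtain ⟨a, ha, rfl⟩ := mem_image.1 hj
  have ha' : a ∈ π := (mem_filter.1 ha).1
  refine mem_Icc.2 ⟨?_, card_filter_le _ _⟩
  exact card_pos.2 ⟨a, mem_filter.2 ⟨ha', le_rfl⟩⟩

lemma G_nonneg (P : ℕ → Prop) {g : ℝ} (hg : 1 ≤ g) (J : Finset ℕ) (r : ℕ) : 0 ≤ G P g J r := by
  refine prod_nonneg fun j _ => ?_
  by_cases h : P (r + j)
  · rw [ind_pos h]; linarith
  · rw [ind_neg h]

lemma G_le (P : ℕ → Prop) {g : ℝ} (hg : 1 ≤ g) (π : Finset ℕ) (r : ℕ) :
    G P g (JJ π) r ≤ g ^ (tw π).card := by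
  have h1 : G P g (JJ π) r ≤ ∏ _j ∈ JJ π, g := by
    refine prod_le_prod (fun j _ => ?_) (fun j _ => ?_)
    · by_cases h : P (r + j)
      · rw [ind_pos h]; linarith
      · rw [ind_neg h]
    · by_cases h : P (r + j)
      · rw [ind_pos h]
      · rw [ind_neg h]; linarith
  rw [prod_const] at h1
  exact h1.trans (pow_le_pow_right₀ hg card_image_le)

lemma G_empty (P : ℕ → Prop) (g : ℝ) (r : ℕ) : G P g ∅ r = 1 := by simp [G]

lemma card_add (c : Finset ℕ) (n : ℕ) :
    ((WW c n).card : ℝ) + (ZZ c n).card = c.card.choose n := by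
  have h := card_filter_add_card_filter_not (s := powersetCard n c) (fun π => (tw π).Nonempty)
  rw [card_powersetCard] at h
  unfold WW ZZ
  exact_mod_cast h

lemma fib (c : Finset ℕ) (n : ℕ) (F : Finset ℕ → ℝ) :
    ∑ J ∈ (Icc 1 n).powerset, (((WW c n).filter (fun π' => JJ π' = J)).card : ℝ) * F J =
      ∑ π' ∈ WW c n, F (JJ π') := by
  have hm : ∀ π' ∈ WW c n, JJ π' ∈ (Icc 1 n).powerset := by
    intro π' h
    have h2 : π'.card = n := (mem_powersetCard.1 (mem_filter.1 h).1).2
    rw [mem_powerset, ← h2]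
    exact JJ_sub π'
  rw [← sum_fiberwise_of_maps_to hm]
  refine sum_congr rfl fun J _ => ?_
  rw [sum_congr rfl (g := fun _ => F J) (fun π' h => by rw [(mem_filter.1 h).2]), sum_const,
    nsmul_eq_mul]

lemma al_big {c : Finset ℕ} {nm : ℕ} {π : Finset ℕ} (h : nm < π.card) (F : Finset ℕ → ℝ) :
    ∑ J ∈ (Icc 1 π.card).powerset, al c nm π J * F J = F ∅ := by
  simp only [al, if_pos h, ite_mul, one_mul, zero_mul]
  rw [sum_ite_eq', if_pos (mem_powerset.2 (empty_subset _))]

lemma al_tw {c : Finset ℕ} {nm : ℕ} {π : Finset ℕ} (h : ¬ nm < π.card) (h2 : (tw π).Nonempty)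
    (F : Finset ℕ → ℝ) :
    ∑ J ∈ (Icc 1 π.card).powerset, al c nm π J * F J = F (JJ π) := by
  simp only [al, if_neg h, if_pos h2, ite_mul, one_mul, zero_mul]
  rw [sum_ite_eq', if_pos (mem_powerset.2 (JJ_sub π))]

lemma al_no {c : Finset ℕ} {nm : ℕ} {π : Finset ℕ} (h : ¬ nm < π.card) (h2 : ¬ (tw π).Nonempty)
    (F : Finset ℕ → ℝ) :
    ∑ J ∈ (Icc 1 π.card).powerset, al c nm π J * F J =
      (1 + ((WW c π.card).card : ℝ) / (ZZ c π.card).card) * F ∅ -
        (∑ π' ∈ WW c π.card, F (JJ π')) / (ZZ c π.card).card := by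
  simp only [al, if_neg h, if_neg h2, sub_mul, ite_mul, zero_mul]
  rw [sum_sub_distrib, sum_ite_eq', if_pos (mem_powerset.2 (empty_subset _)), ← fib, sum_div]
  congr 1
  refine sum_congr rfl fun J _ => ?_
  ring

lemma al_abs {c : Finset ℕ} {nm : ℕ} {π : Finset ℕ}
    (hW : ¬ nm < π.card → ((WW c π.card).card : ℝ) ≤ (ZZ c π.card).card) :
    ∑ J ∈ (Icc 1 π.card).powerset, |al c nm π J| ≤ 3 := by
  by_cases h : nm < π.card
  · have : ∀ J, |al c nm π J| = al c nm π J * 1 := by
      intro J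
      simp only [al, if_pos h]
      split_ifs <;> simp
    rw [sum_congr rfl fun J _ => this J, al_big h]
    norm_num
  by_cases h2 : (tw π).Nonempty
  · have : ∀ J, |al c nm π J| = al c nm π J * 1 := by
      intro J
      simp only [al, if_neg h, if_pos h2]
      split_ifs <;> simp
    rw [sum_congr rfl fun J _ => this J, al_tw h h2]
    norm_num
  have hq : ((WW c π.card).card : ℝ) / (ZZ c π.card).card ≤ 1 :=
    div_le_one_of_le₀ (hW h) (Nat.cast_nonneg _)
  have hq0 : 0 ≤ ((WW c π.card).card : ℝ) / (ZZ c π.card).card := by positivity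
  have : ∀ J, |al c nm π J| ≤
      (if J = ∅ then 1 + ((WW c π.card).card : ℝ) / (ZZ c π.card).card else 0) +
        (((WW c π.card).filter (fun π' => JJ π' = J)).card : ℝ) * (1 / (ZZ c π.card).card) := by
    intro J
    simp only [al, if_neg h, if_neg h2]
    refine (abs_sub _ _).trans (le_of_eq ?_)
    rw [abs_of_nonneg, abs_of_nonneg (by positivity)]
    · ring
    · split_ifs
      · linarith
      · exact le_rfl
  refine (sum_le_sum fun J _ => this J).trans ?_
  rw [sum_add_distrib, sum_ite_eq', if_pos (mem_powerset.2 (empty_subset _)),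
    fib c π.card (fun _ => 1 / ((ZZ c π.card).card : ℝ)), sum_const, nsmul_eq_mul, mul_one_div]
  linarith

/-- the tilted law -/
def pp (P : ℕ → Prop) (g : ℝ) (c : Finset ℕ) (nm : ℕ) (β : ℕ → ℝ) (r : ℕ) (π : Finset ℕ) : ℝ :=
  if π ⊆ c then β π.card * ∑ J ∈ (Icc 1 π.card).powerset, al c nm π J * G P g J r else 0

end

end Tiltx

open Tiltx in
theorem tilt_st (h : RareSt) : TiltSt := by
  intro P c g ρ δ nm β h3 hg hc hβ
  have hR : ∀ n, ¬ nm < n → ∑ π ∈ WW c n, g ^ (tw π).card ≤ (c.card.choose n : ℝ) / 2 := by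
    intro n hn
    refine h c g n h3 hg (le_trans ?_ hc)
    have : (n : ℝ) ≤ nm := by exact_mod_cast not_lt.1 hn
    have hg0 : 0 ≤ g := by linarith
    gcongr
  have hS : ∀ n, ¬ nm < n → ∀ r, ∑ π ∈ WW c n, G P g (JJ π) r ≤ (c.card.choose n : ℝ) / 2 :=
    fun n hn r => (sum_le_sum fun π _ => G_le P hg π r).trans (hR n hn)
  have hW : ∀ n, ¬ nm < n → ((WW c n).card : ℝ) ≤ (ZZ c n).card := by
    intro n hn
    have h1 : ∑ _π ∈ WW c n, (1 : ℝ) ≤ ∑ π ∈ WW c n, g ^ (tw π).card :=
      sum_le_sum fun π _ => one_le_pow₀ hg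
    rw [sum_const, nsmul_eq_mul, mul_one] at h1
    have h2 := hR n hn
    have h4 := card_add c n
    linarith
  have hneu : ∀ r n, ∑ π ∈ powersetCard n c, pp P g c nm β r π =
      ∑ π ∈ powersetCard n c, β π.card := by
    intro r n
    by_cases hn : nm < n
    · refine sum_congr rfl fun π hπ => ?_
      obtain ⟨h1, h2⟩ := mem_powersetCard.1 hπ
      simp only [pp, if_pos h1]
      rw [h2, hβ.trunc n hn, zero_mul]
    have e1 : ∑ π ∈ powersetCard n c, β π.card = β n * c.card.choose n := by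
      rw [sum_congr rfl (g := fun _ => β n)
        (fun π hπ => by rw [(mem_powersetCard.1 hπ).2]), sum_const, nsmul_eq_mul,
        card_powersetCard, mul_comm]
    have e2 : ∑ π ∈ WW c n, pp P g c nm β r π = β n * ∑ π ∈ WW c n, G P g (JJ π) r := by
      rw [mul_sum]
      refine sum_congr rfl fun π hπ => ?_
      obtain ⟨h0, h4⟩ := mem_filter.1 hπ
      obtain ⟨h1, h2⟩ := mem_powersetCard.1 h0
      simp only [pp, if_pos h1]
      rw [al_tw (by rw [h2]; exact hn) h4, h2]
    have e3 : ∑ π ∈ ZZ c n, pp P g c nm β r π = (ZZ c n).card * (β n *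
        ((1 + ((WW c n).card : ℝ) / (ZZ c n).card) -
          (∑ π' ∈ WW c n, G P g (JJ π') r) / (ZZ c n).card)) := by
      rw [← nsmul_eq_mul, ← sum_const]
      refine sum_congr rfl fun π hπ => ?_
      obtain ⟨h0, h4⟩ := mem_filter.1 hπ
      obtain ⟨h1, h2⟩ := mem_powersetCard.1 h0
      simp only [pp, if_pos h1]
      rw [al_no (by rw [h2]; exact hn) h4, h2, G_empty, mul_one]
    rw [e1, ← sum_filter_add_sum_filter_not (powersetCard n c) (fun π => (tw π).Nonempty)]
    change ∑ π ∈ WW c n, pp P g c nm β r π + ∑ π ∈ ZZ c n, pp P g c nm β r π = _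
    rw [e2, e3, ← card_add c n]
    by_cases hz : ((ZZ c n).card : ℝ) = 0
    · have hw : ((WW c n).card : ℝ) = 0 :=
        le_antisymm (hz ▸ hW n hn) (Nat.cast_nonneg _)
      have hw' : WW c n = ∅ := card_eq_zero.1 (by exact_mod_cast hw)
      rw [hz, hw']
      simp
    · field_simp
      ring
  refine ⟨pp P g c nm β, ⟨?_, ?_, ?_⟩, β, al c nm, hβ, hneu, ?_⟩
  · intro r π
    unfold pp
    split_ifs with h1
    · refine mul_nonneg (hβ.nonneg _) ?_
      by_cases hn : nm < π.card
      · rw [al_big hn]; exact G_nonneg P hg _ _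
      by_cases h2 : (tw π).Nonempty
      · rw [al_tw hn h2]; exact G_nonneg P hg _ _
      rw [al_no hn h2, G_empty, mul_one]
      have hz : (0 : ℝ) < (ZZ c π.card).card := by
        have : 0 < (ZZ c π.card).card :=
          card_pos.2 ⟨π, mem_filter.2 ⟨mem_powersetCard.2 ⟨h1, rfl⟩, h2⟩⟩
        exact_mod_cast this
      have h4 := hS _ hn r
      have h5 := card_add c π.card
      have h6 := hW _ hn
      have h7 : (∑ π' ∈ WW c π.card, G P g (JJ π') r) / (ZZ c π.card).card ≤ 1 :=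
        (div_le_one hz).2 (by linarith)
      have h8 : 0 ≤ ((WW c π.card).card : ℝ) / (ZZ c π.card).card := by positivity
      linarith
    · exact le_rfl
  · intro r
    rw [sum_powerset, sum_congr rfl fun n _ => hneu r n, ← sum_powerset c (fun π => β π.card)]
    exact hβ.total
  · intro r π h1 hp a ha ha2
    have h2 : (tw π).Nonempty := ⟨a, mem_filter.2 ⟨ha, ha2⟩⟩
    simp only [pp, if_pos h1] at hp
    by_cases hn : nm < π.card
    · exact absurd (by rw [hβ.trunc _ hn, zero_mul]) hp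
    rw [al_tw hn h2] at hp
    by_contra hP
    refine hp (mul_eq_zero_of_right _ ?_)
    exact prod_eq_zero (mem_image.2 ⟨a, mem_filter.2 ⟨ha, ha2⟩, rfl⟩) (ind_neg hP)
  · intro π h1
    refine ⟨?_, al_abs (hW _), fun r => by simp only [pp, if_pos h1]⟩
    rw [sum_congr rfl (g := fun J => al c nm π J * 1) (fun J _ => (mul_one _).symm)]
    by_cases hn : nm < π.card
    · rw [al_big hn]
    by_cases h2 : (tw π).Nonempty
    · rw [al_tw hn h2]
    rw [al_no hn h2, sum_const, nsmul_eq_mul]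
    ring

end Pool.Agent.Lib.MP_be93de_nt.Hb
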