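import Pool.Agent.Lib.MP_be93de_nt.Hb.Defs

namespace Pool.Agent.Lib.MP_be93de_nt.Hb

open Finset

namespace Unionx

theorem TT_succ (s j : ℕ) : TT s (j + 1) = TT s j + Y s := by
  unfold TT; ring

theorem TT_mono (s : ℕ) {i j : ℕ} (h : i ≤ j) : TT s i ≤ TT s j :=
  Nat.add_le_add_left (Nat.mul_le_mul_right _ h) _

theorem big {s : ℕ} (hs : 1 ≤ s) : X s * Y s + X s ≤ X (2 * s) := by
  have h1 : s ^ 8 ≤ s ^ 10 := Nat.pow_le_pow_right hs (by norm_num)
  have h2 : 1 ≤ s ^ 10 := Nat.one_le_pow _ _ hs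
  have h3 : (2 * s) ^ 10 = 1024 * s ^ 10 := by ring
  have h4 : 1 ≤ Y s := Nat.one_le_two_pow
  have h5 : X s * Y s * 2 ≤ X (2 * s) := by
    unfold X Y
    rw [← pow_add, ← pow_succ]
    exact Nat.pow_le_pow_right (by norm_num) (by omega)
  have h6 : X s ≤ X s * Y s := Nat.le_mul_of_pos_right _ h4
  omega

theorem nb_mul {s : ℕ} (hs : 1 ≤ s) : nb s * Y s = X (2 * s) - X s := by
  have h1 : s ^ 8 ≤ s ^ 10 := Nat.pow_le_pow_right hs (by norm_num)
  have h3 : (2 * s) ^ 10 = 1024 * s ^ 10 := by ring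
  refine Nat.div_mul_cancel (Nat.dvd_sub ?_ ?_)
  · exact pow_dvd_pow 2 (by omega)
  · exact pow_dvd_pow 2 h1

variable {s r : ℕ} {B : ℕ → Finset ℕ}

theorem lt_of_lt (h : SeqOK s r B) {i j a b : ℕ} (hij : i < j) (ha : a ∈ B i) (hb : b ∈ B j) :
    a + 3 < b := by
  have h1 := (mem_Ico.mp (h.sub i ha)).2
  have h2 := (mem_Ico.mp (h.sub j hb)).1
  have h3 := TT_mono s (show i + 1 ≤ j from hij)
  rw [TT_succ] at h3
  omega

theorem card_un (h : SeqOK s r B) (k : ℕ) :
    ((range k).biUnion B).card = ∑ i ∈ range k, (B i).card := by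
  refine card_biUnion fun i _ j _ hij => ?_
  rw [Function.onFun, disjoint_left]
  intro a h1 h2
  rcases lt_or_gt_of_ne hij with c | c
  · have := lt_of_lt h c h1 h2; omega
  · have := lt_of_lt h c h2 h1; omega

end Unionx

theorem union_st : UnionSt := by
  intro s r B hs h
  have h1 := Unionx.big hs
  have h2 := Unionx.nb_mul hs
  have e : TT s (nb s) = X (2 * s) := by
    unfold TT
    omega
  refine ⟨e, ?_, ?_, ?_⟩
  · intro a ha
    obtain ⟨j, hj, haj⟩ := mem_biUnion.mp ha
    obtain ⟨k1, k2⟩ := mem_Ico.mp (h.sub j haj)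
    have k3 := Unionx.TT_mono s (show j + 1 ≤ nb s from mem_range.mp hj)
    rw [Unionx.TT_succ] at k3
    have k4 : X s ≤ TT s j := Nat.le_add_right _ _
    exact mem_Ico.mpr ⟨by omega, by omega⟩
  · intro a ha ha2
    obtain ⟨j, hj, haj⟩ := mem_biUnion.mp ha
    obtain ⟨j', -, haj'⟩ := mem_biUnion.mp ha2
    obtain rfl : j = j' := by
      rcases lt_trichotomy j j' with c | c | c
      · have := Unionx.lt_of_lt h c haj haj'; omega
      · exact c
      · have := Unionx.lt_of_lt h c haj' haj; omega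
    have k := h.good j a haj haj'
    have f : ((range (nb s)).biUnion B).filter (· ≤ a) =
        (range j).biUnion B ∪ (B j).filter (· ≤ a) := by
      ext b
      simp only [mem_filter, mem_biUnion, mem_union, mem_range]
      constructor
      · rintro ⟨⟨i, -, hb⟩, hba⟩
        rcases lt_trichotomy i j with c | c | c
        · exact Or.inl ⟨i, c, hb⟩
        · exact Or.inr ⟨c ▸ hb, hba⟩
        · have := Unionx.lt_of_lt h c haj hb; omega
      · rintro (⟨i, c, hb⟩ | ⟨hb, hba⟩)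
        · have := Unionx.lt_of_lt h c hb haj
          exact ⟨⟨i, c.trans (mem_range.mp hj), hb⟩, by omega⟩
        · exact ⟨⟨j, mem_range.mp hj, hb⟩, hba⟩
    have d : Disjoint ((range j).biUnion B) ((B j).filter (· ≤ a)) := by
      rw [disjoint_left]
      intro b k1 k2
      obtain ⟨i, hi, hb⟩ := mem_biUnion.mp k1
      have := Unionx.lt_of_lt h (mem_range.mp hi) hb (mem_filter.mp k2).1
      omega
    rw [f, card_union_of_disjoint d, Unionx.card_un h, ← add_assoc]
    exact k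
  · rw [Unionx.card_un h]
    have k1 : ∑ _i ∈ range (nb s), 1 ≤ ∑ i ∈ range (nb s), (B i).card :=
      sum_le_sum fun i _ => card_pos.mpr (h.ne i)
    rw [sum_const, card_range, smul_eq_mul, mul_one] at k1
    refine le_trans ?_ k1
    have k2 : 0 < Y s := Nat.two_pow_pos _
    exact Nat.le_of_mul_le_mul_right (by omega) k2

end Pool.Agent.Lib.MP_be93de_nt.Hb
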