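import Pool.Agent.Lib.MP_be93de_nt.Hb.Mert
import Pool.Agent.Lib.MP_be93de_nt.Hb.Alt
import Pool.Agent.Lib.MP_be93de_nt.Hb.Crt
import Pool.Agent.Lib.MP_be93de_nt.Hb.Bonf
import Pool.Agent.Lib.MP_be93de_nt.Hb.Fac
import Pool.Agent.Lib.MP_be93de_nt.Hb.Sing
import Pool.Agent.Lib.MP_be93de_nt.Hb.Cells
import Pool.Agent.Lib.MP_be93de_nt.Hb.Rare
import Pool.Agent.Lib.MP_be93de_nt.Hb.BaseW
import Pool.Agent.Lib.MP_be93de_nt.Hb.Tilt
import Pool.Agent.Lib.MP_be93de_nt.Hb.Func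
import Pool.Agent.Lib.MP_be93de_nt.Hb.Comb
import Pool.Agent.Lib.MP_be93de_nt.Hb.Avg
import Pool.Agent.Lib.MP_be93de_nt.Hb.Block
import Pool.Agent.Lib.MP_be93de_nt.Hb.Ecount
import Pool.Agent.Lib.MP_be93de_nt.Hb.MainT
import Pool.Agent.Lib.MP_be93de_nt.Hb.Seq
import Pool.Agent.Lib.MP_be93de_nt.Hb.Union
import Pool.Agent.Lib.MP_be93de_nt.Hb.Inter
import Pool.Agent.Lib.MP_be93de_nt.Hb.Glob
import Pool.Agent.Lib.MP_be93de_nt.Hb.Hl
import Pool.Agent.Lib.MP_be93de_nt.Hb.FreeC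
import Pool.Agent.Lib.MP_be93de_nt.Hb.Rank
import Pool.Agent.Lib.MP_be93de_nt.Hb.Exc

/-! The model set: assembly of the steps. -/

namespace Pool.Agent.Lib.MP_be93de_nt.Hb

theorem stage_st (h1 : SeqSt) (h2 : UnionSt) (h3 : InterSt) : StageSt := by
  filter_upwards [h1, h3, Filter.eventually_ge_atTop 1] with s a b hs r
  obtain ⟨B, hB⟩ := a r
  obtain ⟨e, u1, u2, u3⟩ := h2 s r B hs hB
  exact ⟨_, u1, u2, u3, fun A hA => b r B A hB e hA⟩

theorem main : ∃ (A : Set ℕ) (C : ℝ), A.Infinite ∧ Part1b A C ∧ Part2 A C := by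
  have bonf := bonf_st alt_st crt_st
  have sing := sing_st fac_st
  have tm := term_st mert_st sing (ecount_st mert_st bonf)
  have bl := block_st mert_st cells_st base_st (tilt_st rare_st) func_st (comb_st func_st)
    (avg_st mert_st bonf fac_st)
  obtain ⟨i0, A, hA⟩ := glob_st (stage_st (seq_st bl tm) union_st (inter_st tm))
  obtain ⟨C1, p1, h1⟩ := hl_st2 mert_st sing i0 A hA
  obtain ⟨C2, p2, h2⟩ := exc_st (free_st mert_st bonf) rank_st i0 A hA
  refine ⟨A, C1 + C2, (rank_st i0 A hA).1, ?_, ?_⟩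
  · intro x y q H a b c d e f g
    obtain ⟨S, hS, h⟩ := h1 x y q H a b c d e f g
    refine ⟨S, hS, h.trans (mul_le_mul_of_nonneg_right (by linarith) ?_)⟩
    have : 0 ≤ x - y := by linarith
    have : 0 ≤ x := by linarith
    positivity
  · intro N hN
    refine (h2 N hN).trans ?_
    have : 0 ≤ Real.log N := Real.log_natCast_nonneg N
    gcongr
    linarith

end Pool.Agent.Lib.MP_be93de_nt.Hb
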