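import Pool.Agent.Lib.MP_be93de_nt.Hb.Defs
import Pool.Agent.Lib.MP_be93de_nt.Rough

/-! Crude two sided bounds for products over primes. -/

namespace Pool.Agent.Lib.MP_be93de_nt.Hb

open Finset

namespace Mertx

lemma pr_zero (n : ℕ) : pr 0 n = Nat.primesLE n := (Nat.primesLE_eq_filter_Ioc_zero n).symm

lemma fac_pos {p : ℕ} (hp : p.Prime) : 0 < 1 - 1 / (p : ℝ) := by
  have h : (1 : ℝ) < p := by exact_mod_cast hp.one_lt
  have : 1 / (p : ℝ) < 1 := by rw [div_lt_one (by linarith)]; exact h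
  linarith

lemma th_pos (a b : ℕ) : 0 < th a b :=
  prod_pos fun p hp => fac_pos (mem_filter.1 hp).2

lemma th_le (a b : ℕ) : th a b ≤ 1 :=
  prod_le_one (fun p hp => (fac_pos (mem_filter.1 hp).2).le) (fun p _ => by
    have : (0 : ℝ) ≤ 1 / p := by positivity
    linarith)

lemma th_mul {a b : ℕ} (h : a ≤ b) : th 0 b = th 0 a * th a b := by
  unfold th pr
  rw [← prod_union (disjoint_filter_filter (Ioc_disjoint_Ioc_of_le le_rfl)), ← filter_union,
    Ioc_union_Ioc_eq_Ioc (Nat.zero_le _) h]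

lemma low (n : ℕ) : (th 0 n)⁻¹ ≤ Real.exp 40 * (1 + Real.log n) := by
  have h1 : ((primorial n).totient : ℝ) = primorial n * th 0 n := by
    have := Nat.totient_eq_mul_prod_factors (primorial n)
    rw [primeFactors_primorial] at this
    have h := congrArg (fun q : ℚ => (q : ℝ)) this
    unfold th
    rw [pr_zero]
    simpa using h
  have h2 := totient_primorial_ge n
  have hP : (0 : ℝ) < primorial n := by exact_mod_cast primorial_pos n
  rw [h1, mul_comm (primorial n : ℝ)] at h2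
  have h3 := le_of_mul_le_mul_right h2 hP
  have hl : 0 < 1 + Real.log n := by have := Real.log_natCast_nonneg n; linarith
  have h4 : 0 < Real.exp (-40) / (1 + Real.log n) := by positivity
  refine (inv_anti₀ h4 h3).trans (le_of_eq ?_)
  rw [inv_div, Real.exp_neg, div_inv_eq_mul, mul_comm]

lemma up (n : ℕ) : Real.log n ≤ (th 0 n)⁻¹ := by
  let f : ℕ →* ℝ :=
    { toFun := fun m => (m : ℝ)⁻¹
      map_one' := by simp
      map_mul' := fun a b => by push_cast; rw [mul_inv] }
  have hf : ∀ m, f m = (m : ℝ)⁻¹ := fun _ => rfl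
  have h0 : ∀ m, 0 ≤ f m := fun m => by rw [hf]; positivity
  have hs := (EulerProduct.summable_and_hasSum_smoothNumbers_prod_primesBelow_geometric (f := f)
    (fun {p} hp => by
      rw [hf, Real.norm_of_nonneg (by positivity)]
      exact inv_lt_one_of_one_lt₀ (by exact_mod_cast hp.one_lt)) (n + 1)).2
  have e : ∏ p ∈ Nat.primesBelow (n + 1), (1 - f p)⁻¹ = (th 0 n)⁻¹ := by
    unfold th
    rw [pr_zero, ← prod_inv_distrib]
    exact prod_congr rfl fun p _ => by rw [hf, one_div]
  rw [e] at hs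
  have hs' := (hasSum_subtype_iff_indicator (f := f) (s := Nat.smoothNumbers (n + 1))).1 hs
  have h1 := sum_le_hasSum (Icc 1 n) (fun m _ => Set.indicator_nonneg (fun m _ => h0 m) m) hs'
  have h2 : ∑ m ∈ Icc 1 n, (Nat.smoothNumbers (n + 1)).indicator f m = (harmonic n : ℝ) := by
    rw [harmonic_eq_sum_Icc]
    push_cast
    refine sum_congr rfl fun m hm => ?_
    rw [mem_Icc] at hm
    rw [Set.indicator_of_mem (Nat.mem_smoothNumbers_of_lt (by omega) (by omega)), hf]
  rw [h2] at h1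
  refine le_trans ?_ ((log_add_one_le_harmonic n).trans h1)
  rcases Nat.eq_zero_or_pos n with rfl | hn
  · simp
  · exact Real.log_le_log (by exact_mod_cast hn) (by exact_mod_cast Nat.le_succ n)

lemma e42 : 5 * Real.exp 40 ≤ Real.exp 42 := by
  have h : Real.exp 42 = Real.exp 1 * Real.exp 1 * Real.exp 40 := by
    rw [← Real.exp_add, ← Real.exp_add]; norm_num
  have h1 := Real.exp_one_gt_d9
  have h2 := Real.exp_pos 40
  have h3 : 5 ≤ Real.exp 1 * Real.exp 1 := by nlinarith
  rw [h]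
  exact mul_le_mul_of_nonneg_right h3 h2.le

lemma logp (k : ℕ) : Real.log ((2 ^ k : ℕ) : ℝ) = k * Real.log 2 := by
  push_cast
  rw [Real.log_pow]

end Mertx

open Mertx in
theorem mert_st : MertSt := by
  refine ⟨fun a b => ⟨th_pos a b, th_le a b⟩, fun a b => ?_, fun s hs => ?_⟩
  · refine le_trans ?_ (mertens2 b)
    apply sum_le_sum_of_subset_of_nonneg
    · intro p hp
      rw [← pr_zero]
      unfold pr at hp ⊢
      rw [mem_filter, mem_Ioc] at hp ⊢
      exact ⟨⟨by omega, hp.1.2⟩, hp.2⟩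
    · intro _ _ _; positivity
  · have hs' : (1 : ℝ) ≤ s := by exact_mod_cast hs
    have l1 := Real.log_two_gt_d9
    have l2 := Real.log_two_lt_d9
    have hE := Real.exp_pos 40
    have h42 := e42
    have hle : 2 ^ (4 * s) ≤ 2 ^ (4 * s ^ 2) :=
      Nat.pow_le_pow_right (by norm_num) (by nlinarith)
    have hm := th_mul hle
    have a1 := low (2 ^ (2 * s))
    have a2 := low (2 ^ (4 * s))
    have a3 := low (2 ^ (4 * s ^ 2))
    have a4 := up (2 ^ (4 * s ^ 2))
    rw [logp] at a1 a2 a3 a4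
    push_cast at a1 a2 a3 a4
    have p1 := th_pos 0 (2 ^ (4 * s))
    have p2 := th_pos 0 (2 ^ (4 * s ^ 2))
    have p3 := th_le 0 (2 ^ (4 * s))
    have p4 : 0 < sig s := th_pos _ _
    have hm' : th 0 (2 ^ (4 * s ^ 2)) = th 0 (2 ^ (4 * s)) * sig s := hm
    generalize th 0 (2 ^ (4 * s ^ 2)) = u at *
    generalize th 0 (2 ^ (4 * s)) = v at *
    generalize sig s = g at *
    generalize Real.log 2 = L at *
    generalize Real.exp 40 = E at *
    generalize Real.exp 42 = F at *
    have s2 : (1 : ℝ) ≤ (s : ℝ) ^ 2 := by nlinarith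
    refine ⟨a1.trans ?_, ?_, ?_⟩
    · have : 1 + 2 * (s : ℝ) * L ≤ 5 * s := by nlinarith
      calc E * (1 + 2 * (s : ℝ) * L) ≤ E * (5 * s) := mul_le_mul_of_nonneg_left this hE.le
        _ = 5 * E * s := by ring
        _ ≤ F * s := mul_le_mul_of_nonneg_right h42 (by linarith)
    · have b1 : g⁻¹ ≤ u⁻¹ := by
        apply inv_anti₀ p2
        rw [hm']
        nlinarith
      have : 1 + 4 * (s : ℝ) ^ 2 * L ≤ 5 * (s : ℝ) ^ 2 := by nlinarith
      calc g⁻¹ ≤ E * (1 + 4 * (s : ℝ) ^ 2 * L) := b1.trans a3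
        _ ≤ E * (5 * (s : ℝ) ^ 2) := mul_le_mul_of_nonneg_left this hE.le
        _ = 5 * E * (s : ℝ) ^ 2 := by ring
        _ ≤ F * (s : ℝ) ^ 2 := mul_le_mul_of_nonneg_right h42 (by linarith)
    · have b1 : g = v⁻¹ * u := by rw [hm']; field_simp
      have b2 : 4 * (s : ℝ) ^ 2 * L * u ≤ 1 := by
        have := mul_le_mul_of_nonneg_right a4 p2.le
        rwa [inv_mul_cancel₀ p2.ne'] at this
      have b3 : 1 + 4 * (s : ℝ) * L ≤ 5 * (4 * s * L) := by nlinarith
      rw [le_div_iff₀ (by linarith)]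
      calc g * s = v⁻¹ * (u * s) := by rw [b1]; ring
        _ ≤ E * (5 * (4 * s * L)) * (u * s) :=
          mul_le_mul_of_nonneg_right (a2.trans (mul_le_mul_of_nonneg_left b3 hE.le))
            (mul_nonneg p2.le (by linarith))
        _ = 5 * E * (4 * (s : ℝ) ^ 2 * L * u) := by ring
        _ ≤ 5 * E * 1 := mul_le_mul_of_nonneg_left b2 (by linarith)
        _ ≤ F := by linarith

end Pool.Agent.Lib.MP_be93de_nt.Hb
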